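import Pool.Agent.TF.Point

/-!
# The integral of the point cocycle, homotopy invariance
-/

set_option autoImplicit false

open Finset Equiv

namespace Pool.Agent.TF

section pcint

variable {X R : Type*} [CommRing R]

theorem pc_ofFn {n : ℕ} (h : Fin n → X → R) (v : Fin (n + 1) → X) :
    pc (List.ofFn h) (List.ofFn v) = ∏ i : Fin n, (h i (v i.succ) - h i (v i.castSucc)) := by
  induction n with
  | zero => simp [pc]
  | succ n ih =>
    rw [List.ofFn_succ (f := h), List.ofFn_succ (f := v), List.ofFn_succ (f := fun i => v i.succ)]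
    simp only [pc]
    rw [← List.ofFn_succ (f := fun i : Fin (n + 1) => v i.succ), ih, Fin.prod_univ_succ]
    rfl

theorem pc_map {Y : Type*} (φ : Y → X) (hs : List (X → R)) (l : List Y) :
    pc hs (l.map φ) = pc (hs.map (fun h => h ∘ φ)) l := by
  induction hs generalizing l with
  | nil =>
    match l with
    | [] => rfl
    | [v] => rfl
    | v :: w :: l => rfl
  | cons h hs ih =>
    match l with
    | [] => rfl
    | [v] => rfl
    | v :: w :: l =>
      have := ih (w :: l)
      simp only [List.map_cons] at this ⊢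
      simp only [pc, Function.comp_apply]
      rw [this]

/-- **The integral of the point cocycle is one.** -/
theorem kint_pc {n N : ℕ} (b : Fin n → ℤ) (hb : ∀ i, -(N : ℤ) ≤ b i ∧ b i < N) :
    kint N (pc (List.ofFn fun (i : Fin n) (a : Fin n → ℤ) => if b i < a i then (1 : R) else 0)) =
      1 := by
  classical
  have hv1 : ∀ (a : Fin n → ℤ) (i : Fin n), kv a (1 : Perm (Fin n)) i.succ i = a i + 1 := by
    intro a i
    unfold kv
    rw [if_pos]
    change (i : ℕ) < (i.succ : ℕ)
    rw [Fin.val_succ]
    exact Nat.lt_succ_self _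
  have hv0 : ∀ (a : Fin n → ℤ) (i : Fin n), kv a (1 : Perm (Fin n)) i.castSucc i = a i := by
    intro a i
    unfold kv
    rw [if_neg, add_zero]
    change ¬ (i : ℕ) < (i.castSucc : ℕ)
    rw [Fin.val_castSucc]
    exact lt_irrefl _
  unfold kint
  rw [Finset.sum_comm, Finset.sum_eq_single 1]
  · rw [Finset.sum_eq_single b]
    · rw [pc_ofFn, Perm.sign_one]
      simp only [Units.val_one, one_smul]
      apply Finset.prod_eq_one
      intro i _
      rw [hv1, hv0, if_pos (by omega), if_neg (lt_irrefl _), sub_zero]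
    · intro a _ hab
      rw [pc_ofFn]
      obtain ⟨i, hi⟩ : ∃ i, a i ≠ b i := by
        by_contra hcon
        push Not at hcon
        exact hab (funext hcon)
      rw [Finset.prod_eq_zero (Finset.mem_univ i), smul_zero]
      rw [hv1, hv0]
      have h1 : (b i < a i + 1) ↔ (b i < a i) := by omega
      rw [if_congr h1 rfl rfl, sub_self]
    · intro h
      exact absurd (mem_box.2 hb) h
  · intro σ _ hσ
    apply Finset.sum_eq_zero
    intro a _
    rw [pc_ofFn]
    obtain ⟨i, hi⟩ : ∃ i, σ.symm i ≠ i := by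
      by_contra hcon
      push Not at hcon
      apply hσ
      ext i
      have h1 := hcon i
      rw [Equiv.symm_apply_eq] at h1
      rw [← h1]
      rfl
    rw [Finset.prod_eq_zero (Finset.mem_univ i), smul_zero]
    have h2 : ((σ.symm i : Fin n) : ℕ) ≠ (i : ℕ) := fun h => hi (Fin.ext h)
    have h1 : (((σ.symm i : Fin n) : ℕ) < (i.succ : ℕ)) ↔
        (((σ.symm i : Fin n) : ℕ) < (i.castSucc : ℕ)) := by
      rw [Fin.val_succ, Fin.val_castSucc]
      omega
    have h3 : kv a σ i.succ i = kv a σ i.castSucc i := by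
      unfold kv
      rw [if_congr h1 rfl rfl]
    rw [h3, sub_self]
  · intro h
    exact absurd (Finset.mem_univ _) h

end pcint

section homotopy

variable {n : ℕ} {X M : Type*} [AddCommGroup M]

theorem kint_congr {n : ℕ} (N : ℕ) {f g : List (Fin n → ℤ) → M}
    (h : ∀ a ∈ box n N, ∀ σ, f (List.ofFn (kv a σ)) = g (List.ofFn (kv a σ))) :
    kint N f = kint N g := by
  unfold kint
  exact Finset.sum_congr rfl fun a ha => Finset.sum_congr rfl fun σ _ => by rw [h a ha σ]

theorem kint_add {n : ℕ} (N : ℕ) (f g : List (Fin n → ℤ) → M) :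
    kint N (fun l => f l + g l) = kint N f + kint N g := by
  unfold kint
  simp only [smul_add, Finset.sum_add_distrib]

theorem kint_neg {n : ℕ} (N : ℕ) (f : List (Fin n → ℤ) → M) :
    kint N (fun l => - f l) = - kint N f := by
  unfold kint
  simp only [smul_neg, Finset.sum_neg_distrib]

theorem kint_sub {n : ℕ} (N : ℕ) (f g : List (Fin n → ℤ) → M) :
    kint N (fun l => f l - g l) = kint N f - kint N g := by
  unfold kint
  simp only [smul_sub, Finset.sum_sub_distrib]

theorem kint_zero {n : ℕ} (N : ℕ) : kint N (fun _ : List (Fin n → ℤ) => (0 : M)) = 0 := by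
  unfold kint
  simp

theorem kint_mul {n : ℕ} {R : Type*} [CommRing R] (N : ℕ) (c : R) (f : List (Fin n → ℤ) → R) :
    kint N (fun l => c * f l) = c * kint N f := by
  unfold kint
  rw [Finset.mul_sum]
  refine Finset.sum_congr rfl fun a _ => ?_
  rw [Finset.mul_sum]
  refine Finset.sum_congr rfl fun σ _ => ?_
  rw [zsmul_eq_mul, zsmul_eq_mul]
  ring

/-- **Homotopy invariance.** The cochain `f` is closed on the lists formed by the images under `φ`
and `ψ` of the vertices of a Kuhn simplex, and vanishes on the lists near the frontier. -/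
theorem kint_homotopy (N : ℕ) (f : List X → M) (φ ψ : (Fin n → ℤ) → X)
    (hcl : ∀ c : Fin n → ℤ, (∀ i, -(N : ℤ) ≤ c i ∧ c i < N) → ∀ l : List X, l.length = n + 2 →
      (∀ x ∈ l, ∃ a : Fin n → ℤ, (∀ i, c i ≤ a i ∧ a i ≤ c i + 1) ∧ (x = φ a ∨ x = ψ a)) →
      dl f l = 0)
    (hbd : ∀ (i₀ : Fin n) (s : ℤ), (s = N ∨ s = -(N : ℤ)) → ∀ c : Fin n → ℤ,
      ∀ l : List X, l.length = n + 1 → (∀ x ∈ l, ∃ a : Fin n → ℤ,
        (∀ i, -(N : ℤ) ≤ a i ∧ a i ≤ N) ∧ (∀ i, c i ≤ a i ∧ a i ≤ c i + 1) ∧ a i₀ = s ∧
        (x = φ a ∨ x = ψ a)) → f l = 0) :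
    kint N (fun l => f (l.map ψ)) = kint N (fun l => f (l.map φ)) := by
  have hpz : ∀ l : List (Fin n → ℤ), prism φ ψ (fun _ => (0 : M)) l = 0 := by
    intro l
    induction l with
    | nil => rfl
    | cons a l ih => rw [prism_cons, ih, sub_zero]
  have hkv : ∀ (c : Fin n → ℤ) (σ : Perm (Fin n)) (j : Fin (n + 1)) (i : Fin n),
      c i ≤ kv c σ j i ∧ kv c σ j i ≤ c i + 1 := by
    intro c σ j i
    unfold kv
    split_ifs <;> omega
  have h1 : kint N (dl (prism φ ψ f)) = 0 := by
    rcases n with _ | n
    · unfold kint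
      apply Finset.sum_eq_zero
      intro a _
      apply Finset.sum_eq_zero
      intro σ _
      have : List.ofFn (kv a σ) = [kv a σ 0] := by simp
      rw [this]
      simp [dl, prism]
    apply kint_dl
    intro a σ ha ha' hN
    have h2 : prism φ ψ f (List.ofFn (kv a σ ∘ (Fin.last (n + 1)).succAbove)) =
        prism φ ψ (fun _ => (0 : M)) (List.ofFn (kv a σ ∘ (Fin.last (n + 1)).succAbove)) := by
      apply prism_congr
      intro l' hl' hmem
      apply hbd (σ (Fin.last n)) _ hN a
      · rw [hl', List.length_ofFn]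
      · intro x hx
        obtain ⟨v, hv, hxv⟩ := hmem x hx
        rw [List.mem_ofFn] at hv
        obtain ⟨j, rfl⟩ := hv
        have h5 := last_face_coord a σ j
        refine ⟨_, ?_, hkv a σ _, h5, hxv⟩
        intro i
        by_cases hi : i = σ (Fin.last n)
        · rw [hi]
          have h6 := ha (σ (Fin.last n))
          have h7 : kv a σ ((Fin.last (n + 1)).succAbove j) (σ (Fin.last n)) =
            a (σ (Fin.last n)) := h5
          rw [h7]
          exact h6
        · have h6 := hkv a σ ((Fin.last (n + 1)).succAbove j) i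
          have h7 := ha i
          have h8 := ha' i hi
          omega
    rw [h2]
    exact hpz _
  have h2 : kint N (fun l => prism φ ψ (dl f) l) = 0 := by
    rw [kint_congr (g := fun _ => 0) N]
    · exact kint_zero N
    · intro a ha σ
      have h3 : prism φ ψ (dl f) (List.ofFn (kv a σ)) =
          prism φ ψ (fun _ => (0 : M)) (List.ofFn (kv a σ)) := by
        apply prism_congr
        intro l' hl' hmem
        apply hcl a (mem_box.1 ha)
        · rw [hl', List.length_ofFn]
        · intro x hx
          obtain ⟨v, hv, hxv⟩ := hmem x hx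
          rw [List.mem_ofFn] at hv
          obtain ⟨j, rfl⟩ := hv
          exact ⟨_, hkv a σ j, hxv⟩
      rw [h3]
      exact hpz _
  have h3 : kint N (fun l => f (l.map ψ) - f (l.map φ)) = 0 := by
    rw [kint_congr (g := fun l => dl (prism φ ψ f) l + prism φ ψ (dl f) l) N
      (fun a _ σ => (dl_prism φ ψ f _).symm), kint_add, h2, add_zero]
    exact h1
  rw [kint_sub] at h3
  exact sub_eq_zero.1 h3

end homotopy

end Pool.Agent.TF
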