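import Mathlib

/-!
# Commutators of large spaces of matrices (row D of the project TF)

If `V` is a space of `N × N` matrices of codimension at most `D`, `2 D < N`, and `N` is invertible in the field, then the
commutators of `V` together with the identity matrix span the space of all matrices.
-/

set_option autoImplicit false

open Matrix Module

namespace Pool.Agent.TF

variable {F : Type*} [Field F] {N : ℕ}

/-- the functional `Y ↦ tr (Z Y)` -/
def trF (Z : Matrix (Fin N) (Fin N) F) : Dual F (Matrix (Fin N) (Fin N) F) where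
  toFun Y := trace (Z * Y)
  map_add' X Y := by rw [mul_add, trace_add]
  map_smul' c Y := by rw [Matrix.mul_smul, trace_smul, RingHom.id_apply]

lemma trF_apply (Z Y : Matrix (Fin N) (Fin N) F) : trF Z Y = trace (Z * Y) := rfl

lemma trF_single (Z : Matrix (Fin N) (Fin N) F) (i j : Fin N) : trF Z (single j i 1) = Z i j := by
  rw [trF_apply, trace]
  simp only [diag_apply]
  rw [Finset.sum_eq_single i]
  · rw [mul_apply, Finset.sum_eq_single j]
    · simp
    · intro k _ hk
      rw [single_apply_of_row_ne hk.symm, mul_zero]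
    · intro h
      exact absurd (Finset.mem_univ _) h
  · intro k _ hk
    rw [mul_apply]
    refine Finset.sum_eq_zero fun l _ => ?_
    rw [single_apply_of_col_ne _ _ hk.symm, mul_zero]
  · intro h
    exact absurd (Finset.mem_univ _) h

lemma eq_zero_of_trF {Z : Matrix (Fin N) (Fin N) F} (h : trF Z = 0) : Z = 0 := by
  ext i j
  rw [← trF_single Z i j, h, LinearMap.zero_apply, Matrix.zero_apply]

/-- every functional is given by the trace -/
lemma exists_trF (f : Dual F (Matrix (Fin N) (Fin N) F)) : ∃ A, f = trF A := by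
  refine ⟨Matrix.of fun i j => f (single j i 1), ?_⟩
  refine LinearMap.ext fun X => ?_
  have h1 : X = ∑ i, ∑ j, X i j • (single i j 1 : Matrix (Fin N) (Fin N) F) := by
    conv_lhs => rw [matrix_eq_sum_single X]
    refine Finset.sum_congr rfl fun i _ => Finset.sum_congr rfl fun j _ => ?_
    rw [smul_single, smul_eq_mul, mul_one]
  conv_lhs => rw [h1]
  conv_rhs => rw [h1]
  rw [map_sum, map_sum]
  refine Finset.sum_congr rfl fun i _ => ?_
  rw [map_sum, map_sum]
  refine Finset.sum_congr rfl fun j _ => ?_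
  rw [map_smul, map_smul, trF_single (Matrix.of fun i j => f (single j i 1)) j i, of_apply]

/-- the commutator form of `A` -/
def adF (A : Matrix (Fin N) (Fin N) F) : Matrix (Fin N) (Fin N) F →ₗ[F] Dual F (Matrix (Fin N) (Fin N) F) where
  toFun X := trF (A * X - X * A)
  map_add' X Y := by
    refine LinearMap.ext fun Z => ?_
    rw [LinearMap.add_apply, trF_apply, trF_apply, trF_apply, ← trace_add, ← add_mul]
    congr 2
    rw [mul_add, add_mul]
    abel
  map_smul' c X := by
    refine LinearMap.ext fun Z => ?_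
    rw [RingHom.id_apply, LinearMap.smul_apply, trF_apply, trF_apply, Matrix.mul_smul, Matrix.smul_mul, ← smul_sub,
      Matrix.smul_mul, trace_smul]

lemma adF_apply (A X Y : Matrix (Fin N) (Fin N) F) : adF A X Y = trF A (X * Y - Y * X) := by
  show trace ((A * X - X * A) * Y) = trace (A * (X * Y - Y * X))
  rw [sub_mul, mul_sub, trace_sub, trace_sub]
  congr 1
  · rw [Matrix.mul_assoc]
  · rw [Matrix.mul_assoc, trace_mul_comm X (A * Y), Matrix.mul_assoc]

/-- a matrix for which every vector is an eigenvector is a scalar -/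
lemma exists_vec {A : Matrix (Fin N) (Fin N) F} (hA : ∀ c : F, A ≠ c • (1 : Matrix (Fin N) (Fin N) F)) :
    ∃ v : Fin N → F, LinearIndependent F ![v, A *ᵥ v] := by
  by_contra hcon
  push Not at hcon
  obtain ⟨c, hc⟩ := LinearMap.exists_eq_smul_id_of_forall_notLinearIndependent (f := Matrix.mulVecLin A) hcon
  apply hA c
  have h1 : Matrix.mulVecLin A = Matrix.mulVecLin (c • (1 : Matrix (Fin N) (Fin N) F)) := by
    rw [hc]
    refine LinearMap.ext fun v => ?_
    rw [mulVecLin_apply, smul_mulVec, one_mulVec]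
    rfl
  exact Matrix.toLin'.injective (by rw [Matrix.toLin'_apply', Matrix.toLin'_apply', h1])

/-- the matrices `w ⊗ φ` -/
def rkF (φ : Fin N → F) : (Fin N → F) →ₗ[F] Matrix (Fin N) (Fin N) F where
  toFun w := vecMulVec w φ
  map_add' w w' := by rw [add_vecMulVec]
  map_smul' c w := by rw [smul_vecMulVec, RingHom.id_apply]

/-- the commutator form of a non-scalar matrix has rank at least `N` -/
lemma le_finrank_adF {A : Matrix (Fin N) (Fin N) F} (hA : ∀ c : F, A ≠ c • (1 : Matrix (Fin N) (Fin N) F)) :
    N ≤ finrank F (LinearMap.range (adF A)) := by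
  obtain ⟨v, hv⟩ := exists_vec hA
  -- a functional with `φ v = 0`, `φ (A v) = 1`
  obtain ⟨f, hf⟩ : ∃ f : Dual F (Fin N → F), f v = 0 ∧ f (A *ᵥ v) = 1 := by
    have h2 : A *ᵥ v ∉ Submodule.span F {v} := by
      intro hmem
      obtain ⟨c, hc⟩ := Submodule.mem_span_singleton.1 hmem
      rw [LinearIndependent.pair_iff] at hv
      have h3 := hv c (-1) (by rw [hc, neg_one_smul]; exact add_neg_cancel _)
      exact one_ne_zero (neg_eq_zero.1 h3.2)
    obtain ⟨g, hg1, hg2⟩ := Submodule.exists_le_ker_of_notMem h2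
    refine ⟨(g (A *ᵥ v))⁻¹ • g, ?_, ?_⟩
    · have h3 : g v = 0 := hg2 (Submodule.mem_span_singleton_self v)
      rw [LinearMap.smul_apply, h3, smul_zero]
    · rw [LinearMap.smul_apply, smul_eq_mul, inv_mul_cancel₀ hg1]
  obtain ⟨hf0, hf1⟩ := hf
  set φ : Fin N → F := fun i => f (Pi.single i 1) with hφ
  have hdot : ∀ u : Fin N → F, φ ⬝ᵥ u = f u := by
    intro u
    have h1 : u = ∑ i, u i • (Pi.single i (1 : F) : Fin N → F) := by
      funext j
      rw [Finset.sum_apply]
      simp [Pi.single_apply]
    conv_rhs => rw [h1]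
    rw [map_sum, dotProduct]
    refine Finset.sum_congr rfl fun i _ => ?_
    rw [map_smul, smul_eq_mul, mul_comm]
  have hinj : Function.Injective ((adF A).comp (rkF φ)) := by
    rw [← LinearMap.ker_eq_bot, Submodule.eq_bot_iff]
    intro w hw
    have h1 : A * vecMulVec w φ - vecMulVec w φ * A = 0 := eq_zero_of_trF hw
    have h2 : (A * vecMulVec w φ - vecMulVec w φ * A) *ᵥ v = 0 := by rw [h1, zero_mulVec]
    rw [sub_mulVec, ← mulVec_mulVec, ← mulVec_mulVec, vecMulVec_mulVec, vecMulVec_mulVec, hdot, hdot, hf0, hf1] at h2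
    simpa using h2
  calc N = finrank F (Fin N → F) := by rw [finrank_fintype_fun_eq_card, Fintype.card_fin]
    _ = finrank F (LinearMap.range ((adF A).comp (rkF φ))) := (LinearMap.finrank_range_of_inj hinj).symm
    _ ≤ finrank F (LinearMap.range (adF A)) := Submodule.finrank_mono (LinearMap.range_comp_le_range _ _)

/-- **Commutators of large spaces of matrices.** -/
theorem perf (hN : (N : F) ≠ 0) {D : ℕ} (hD : 2 * D < N) (V : Submodule F (Matrix (Fin N) (Fin N) F))
    (hV : N * N ≤ finrank F V + D) :
    Submodule.span F ({Z | ∃ X ∈ V, ∃ Y ∈ V, Z = X * Y - Y * X} ∪ {1}) = ⊤ := by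
  by_contra hne
  obtain ⟨f, hf0, hf⟩ := Submodule.exists_le_ker_of_lt_top _ (lt_top_iff_ne_top.2 hne)
  obtain ⟨A, rfl⟩ := exists_trF f
  have hker : ∀ Z ∈ ({Z | ∃ X ∈ V, ∃ Y ∈ V, Z = X * Y - Y * X} ∪ {1} : Set (Matrix (Fin N) (Fin N) F)), trF A Z = 0 :=
    fun Z hZ => hf (Submodule.subset_span hZ)
  have hA : ∀ c : F, A ≠ c • (1 : Matrix (Fin N) (Fin N) F) := by
    intro c hc
    have h1 := hker 1 (Or.inr rfl)
    rw [trF_apply, mul_one, hc, trace_smul, trace_one, Fintype.card_fin, smul_eq_mul] at h1
    have h2 : c = 0 := (mul_eq_zero.1 h1).resolve_right hN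
    apply hf0
    rw [hc, h2, zero_smul]
    refine LinearMap.ext fun Y => ?_
    rw [trF_apply, zero_mul, trace_zero, LinearMap.zero_apply]
  have hle : V.map (adF A) ≤ V.dualAnnihilator := by
    rintro _ ⟨X, hX, rfl⟩
    rw [Submodule.mem_dualAnnihilator]
    intro Y hY
    rw [adF_apply]
    exact hker _ (Or.inl ⟨X, hX, Y, hY, rfl⟩)
  have h1 : finrank F (V.map (adF A)) ≤ finrank F V.dualAnnihilator := Submodule.finrank_mono hle
  have h2 : finrank F V + finrank F V.dualAnnihilator = finrank F (Matrix (Fin N) (Fin N) F) :=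
    Subspace.finrank_add_finrank_dualAnnihilator_eq V
  have h3 : finrank F (Matrix (Fin N) (Fin N) F) = N * N := by
    rw [finrank_matrix, Fintype.card_fin, finrank_self, mul_one]
  -- the rank on `V`
  have h4 : finrank F (LinearMap.range (adF A)) ≤ finrank F (V.map (adF A)) + (N * N - finrank F V) := by
    obtain ⟨W, hW⟩ := V.exists_isCompl
    have e1 : LinearMap.range (adF A) = V.map (adF A) ⊔ W.map (adF A) := by
      rw [← Submodule.map_sup, hW.sup_eq_top, LinearMap.range_eq_map]
    rw [e1]
    have e2 : finrank F V + finrank F W = N * N := by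
      rw [← h3]
      exact Submodule.finrank_add_eq_of_isCompl hW
    have e3 : finrank F (W.map (adF A)) ≤ finrank F W := Submodule.finrank_map_le _ _
    have e4 := Submodule.finrank_add_le_finrank_add_finrank (V.map (adF A)) (W.map (adF A))
    omega
  have h5 := le_finrank_adF hA
  omega

end Pool.Agent.TF
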