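import Pool.Agent.TF.Frat
import Pool.Agent.TF.Perf

/-!
# The action of the congruence group through `SL_N(ℤ_p)` (row D of the project TF)

For `p` not dividing `N` the homomorphism `psi : CM p N j →* SL_N(ℤ_p)` maps `X` to `(1 + p ^ (j + 1) X)` divided by the
`N`-th root of its determinant.
-/

set_option autoImplicit false

open Matrix Topology Filter

namespace Pool.Agent.TF

variable {p : ℕ} [hp : Fact p.Prime] {N j : ℕ}

/-! ### Roots -/

section root

lemma norm_one_of_near {z : ℤ_[p]} (h : ‖z - 1‖ < 1) : ‖z‖ = 1 := by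
  have h1 : IsUnit z := by
    apply isUnit_of_toZMod
    have h2 : PadicInt.toZMod (z - 1) = 0 := by
      rw [← RingHom.mem_ker, PadicInt.ker_toZMod]
      exact (IsLocalRing.mem_maximalIdeal _).2 (PadicInt.mem_nonunits.2 h)
    rw [map_sub, map_one, sub_eq_zero] at h2
    rw [h2]
    exact one_ne_zero
  exact PadicInt.isUnit_iff.1 h1

lemma near_iff {z : ℤ_[p]} : ‖z - 1‖ < 1 ↔ PadicInt.toZMod z = 1 := by
  rw [← PadicInt.mem_nonunits, ← IsLocalRing.mem_maximalIdeal, ← PadicInt.ker_toZMod, RingHom.mem_ker, map_sub, map_one, sub_eq_zero]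

lemma norm_natCast_eq_one (hN : ¬ p ∣ N) : ‖(N : ℤ_[p])‖ = 1 := by
  rw [← PadicInt.isUnit_iff]
  apply isUnit_of_toZMod
  rw [map_natCast]
  intro h
  exact hN ((ZMod.natCast_eq_zero_iff _ _).1 h)

/-- the geometric factor is a unit -/
lemma norm_geom (hN : ¬ p ∣ N) {x y : ℤ_[p]} (hx : ‖x - 1‖ < 1) (hy : ‖y - 1‖ < 1) :
    ‖∑ i ∈ Finset.range N, x ^ i * y ^ (N - 1 - i)‖ = 1 := by
  rw [← PadicInt.isUnit_iff]
  apply isUnit_of_toZMod
  rw [near_iff] at hx hy
  rw [map_sum]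
  have h1 : ∀ i ∈ Finset.range N, PadicInt.toZMod (x ^ i * y ^ (N - 1 - i)) = (1 : ZMod p) := by
    intro i _
    rw [map_mul, map_pow, map_pow, hx, hy, one_pow, one_pow, mul_one]
  rw [Finset.sum_congr rfl h1, Finset.sum_const, Finset.card_range, nsmul_one]
  intro h
  exact hN ((ZMod.natCast_eq_zero_iff _ _).1 h)

lemma norm_pow_sub (hN : ¬ p ∣ N) {x y : ℤ_[p]} (hx : ‖x - 1‖ < 1) (hy : ‖y - 1‖ < 1) :
    ‖x ^ N - y ^ N‖ = ‖x - y‖ := by
  rw [← geom_sum₂_mul x y N, norm_mul, norm_geom hN hx hy, one_mul]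

lemma exists_root (hN : ¬ p ∣ N) {u : ℤ_[p]} (hu : ‖u - 1‖ < 1) : ∃ z : ℤ_[p], ‖z - 1‖ < 1 ∧ z ^ N * u = 1 := by
  have hu1 : ‖u‖ = 1 := norm_one_of_near hu
  set F : Polynomial ℤ_[p] := Polynomial.C u * Polynomial.X ^ N - 1 with hF
  have e1 : F.aeval (1 : ℤ_[p]) = u - 1 := by
    rw [hF]; simp
  have e2 : F.derivative.aeval (1 : ℤ_[p]) = u * N := by
    rw [hF, Polynomial.derivative_sub, Polynomial.derivative_one, sub_zero, Polynomial.derivative_C_mul,
      Polynomial.derivative_X_pow]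
    simp
  have h1 : ‖F.aeval (1 : ℤ_[p])‖ < ‖F.derivative.aeval (1 : ℤ_[p])‖ ^ 2 := by
    rw [e1, e2, norm_mul, hu1, norm_natCast_eq_one hN, one_mul, one_pow]
    exact hu
  obtain ⟨z, hz1, hz2, -, -⟩ := hensels_lemma h1
  refine ⟨z, ?_, ?_⟩
  · rw [e2, norm_mul, hu1, norm_natCast_eq_one hN, one_mul] at hz2
    exact hz2
  · have h2 : F.aeval z = u * z ^ N - 1 := by
      rw [hF]; simp
    rw [h2, sub_eq_zero] at hz1
    rw [mul_comm]
    exact hz1

lemma root_unique (hN : ¬ p ∣ N) {u z z' : ℤ_[p]} (hz : ‖z - 1‖ < 1) (hz' : ‖z' - 1‖ < 1) (h : z ^ N * u = 1)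
    (h' : z' ^ N * u = 1) : z = z' := by
  have h1 : z ^ N = z' ^ N := by
    have hu : u ≠ 0 := by
      rintro rfl
      rw [mul_zero] at h
      exact zero_ne_one h
    exact mul_right_cancel₀ hu (h.trans h'.symm)
  have h2 := norm_pow_sub hN hz hz'
  rw [h1, sub_self, norm_zero] at h2
  exact sub_eq_zero.1 (norm_eq_zero.1 h2.symm)

lemma near_mul {z z' : ℤ_[p]} (hz : ‖z - 1‖ < 1) (hz' : ‖z' - 1‖ < 1) : ‖z * z' - 1‖ < 1 := by
  rw [near_iff] at hz hz' ⊢
  rw [map_mul, hz, hz', one_mul]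

lemma near_det (X : CM p N j) : ‖(up X).det - 1‖ < 1 := by
  rw [near_iff, RingHom.map_det]
  have h1 : PadicInt.toZMod.mapMatrix (up X) = 1 := map_up X
  rw [h1, det_one]

end root

variable (hN : ¬ p ∣ N)

/-- the inverse of the `N`-th root of the determinant -/
noncomputable def rtd (X : CM p N j) : ℤ_[p] := (exists_root hN (near_det X)).choose

lemma near_rtd (X : CM p N j) : ‖rtd hN X - 1‖ < 1 := (exists_root hN (near_det X)).choose_spec.1

lemma rtd_pow (X : CM p N j) : rtd hN X ^ N * (up X).det = 1 := (exists_root hN (near_det X)).choose_spec.2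

lemma rtd_eq {X : CM p N j} {z : ℤ_[p]} (hz : ‖z - 1‖ < 1) (h : z ^ N * (up X).det = 1) : rtd hN X = z :=
  root_unique hN (near_rtd hN X) hz (rtd_pow hN X) h

lemma rtd_mul (X Y : CM p N j) : rtd hN (X * Y) = rtd hN X * rtd hN Y := by
  refine rtd_eq hN (near_mul (near_rtd hN X) (near_rtd hN Y)) ?_
  rw [up_mul, det_mul, mul_pow, mul_mul_mul_comm, rtd_pow, rtd_pow, one_mul]

lemma rtd_one : rtd hN (1 : CM p N j) = 1 := by
  refine rtd_eq hN ?_ ?_
  · rw [sub_self, norm_zero]; exact one_pos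
  · rw [up_one, det_one, one_pow, mul_one]

lemma norm_rtd_sub (X Y : CM p N j) : ‖rtd hN X - rtd hN Y‖ = ‖(up X).det - (up Y).det‖ := by
  rw [← norm_pow_sub hN (near_rtd hN X) (near_rtd hN Y)]
  have h1 := rtd_pow hN X
  have h2 := rtd_pow hN Y
  have h3 : (rtd hN X ^ N - rtd hN Y ^ N) * ((up X).det * (up Y).det) = (up Y).det - (up X).det := by
    calc (rtd hN X ^ N - rtd hN Y ^ N) * ((up X).det * (up Y).det)
        = (rtd hN X ^ N * (up X).det) * (up Y).det - (rtd hN Y ^ N * (up Y).det) * (up X).det := by ring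
      _ = _ := by rw [h1, h2, one_mul, one_mul]
  have h4 : ‖(rtd hN X ^ N - rtd hN Y ^ N) * ((up X).det * (up Y).det)‖ = ‖(up Y).det - (up X).det‖ := by rw [h3]
  rw [norm_mul, norm_mul, norm_one_of_near (near_det X), norm_one_of_near (near_det Y), mul_one, mul_one] at h4
  rw [h4, norm_sub_rev]

lemma continuous_rtd : Continuous (rtd hN : CM p N j → ℤ_[p]) := by
  rw [continuous_iff_continuousAt]
  intro X
  have h1 : ContinuousAt (fun Y : CM p N j => (up Y).det) X := continuous_up.matrix_det.continuousAt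
  rw [ContinuousAt, tendsto_iff_norm_sub_tendsto_zero] at h1 ⊢
  simp only [norm_rtd_sub]
  exact h1

/-- the homomorphism to `SL_N(ℤ_p)` -/
noncomputable def psi : CM p N j →* SpecialLinearGroup (Fin N) ℤ_[p] where
  toFun X := ⟨rtd hN X • up X, by rw [det_smul, Fintype.card_fin, rtd_pow]⟩
  map_one' := Subtype.ext (by
    show rtd hN (1 : CM p N j) • up (1 : CM p N j) = 1
    rw [rtd_one, up_one, one_smul])
  map_mul' X Y := Subtype.ext (by
    show rtd hN (X * Y) • up (X * Y) = (rtd hN X • up X) * (rtd hN Y • up Y)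
    rw [rtd_mul, up_mul, Matrix.smul_mul, Matrix.mul_smul, smul_smul])

lemma psi_val (X : CM p N j) : (psi hN X : Matrix (Fin N) (Fin N) ℤ_[p]) = rtd hN X • up X := rfl

lemma continuous_psi : Continuous (psi hN : CM p N j → SpecialLinearGroup (Fin N) ℤ_[p]) := by
  refine Continuous.subtype_mk ?_ _
  have h1 : Continuous fun X : CM p N j => up X := continuous_up
  refine continuous_matrix fun a b => ?_
  exact (continuous_rtd hN).mul ((continuous_apply b).comp ((continuous_apply a).comp h1))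

/-- the homomorphism only depends on the matrix `1 + p ^ (j + 1) X` -/
lemma psi_congr {i j : ℕ} {X : CM p N i} {Y : CM p N j} (h : up X = up Y) : psi hN X = psi hN Y := by
  apply Subtype.ext
  show rtd hN X • up X = rtd hN Y • up Y
  have h1 : rtd hN X = rtd hN Y := rtd_eq hN (near_rtd hN Y) (by rw [h]; exact rtd_pow hN Y)
  rw [h1, h]

lemma psi_of_det_one {X : CM p N j} (h : (up X).det = 1) : (psi hN X : Matrix (Fin N) (Fin N) ℤ_[p]) = up X := by
  rw [psi_val, rtd_eq hN (z := 1) (by rw [sub_self, norm_zero]; exact one_pos) (by rw [h, one_pow, mul_one]), one_smul]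

/-- the image of `psi` contains all elements which are congruent to `1` modulo `p ^ (j + 1)` -/
lemma exists_psi_eq (g : SpecialLinearGroup (Fin N) ℤ_[p]) {Z : Matrix (Fin N) (Fin N) ℤ_[p]}
    (hg : (g : Matrix (Fin N) (Fin N) ℤ_[p]) = 1 + (p : ℤ_[p]) ^ (j + 1) • Z) : psi hN (⟨Z⟩ : CM p N j) = g := by
  apply Subtype.ext
  have h1 : up (⟨Z⟩ : CM p N j) = (g : Matrix (Fin N) (Fin N) ℤ_[p]) := hg.symm
  rw [psi_of_det_one hN (by rw [h1]; exact g.2), h1]

/-- scalars act trivially -/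
lemma psi_scalar (c : ℤ_[p]) : psi hN (⟨c • 1⟩ : CM p N j) = 1 := by
  apply Subtype.ext
  have h1 : up (⟨c • 1⟩ : CM p N j) = (1 + (p : ℤ_[p]) ^ (j + 1) * c) • (1 : Matrix (Fin N) (Fin N) ℤ_[p]) := by
    show 1 + (p : ℤ_[p]) ^ (j + 1) • (c • (1 : Matrix (Fin N) (Fin N) ℤ_[p])) = _
    rw [add_smul, one_smul, smul_smul]
  set w : ℤ_[p] := 1 + (p : ℤ_[p]) ^ (j + 1) * c with hw
  have hwn : ‖w - 1‖ < 1 := by
    rw [near_iff, hw, map_add, map_mul, toZMod_p_pow, zero_mul, add_zero, map_one]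
  have hwu : IsUnit w := PadicInt.isUnit_iff.2 (norm_one_of_near hwn)
  obtain ⟨v, hv⟩ := hwu.exists_left_inv
  have hvn : ‖v - 1‖ < 1 := by
    rw [near_iff] at hwn ⊢
    have h2 : PadicInt.toZMod (v * w) = (1 : ZMod p) := by rw [hv, map_one]
    rwa [map_mul, hwn, mul_one] at h2
  have h3 : rtd hN (⟨c • 1⟩ : CM p N j) = v := by
    refine rtd_eq hN hvn ?_
    rw [h1, det_smul, det_one, mul_one, Fintype.card_fin, ← mul_pow, hv, one_pow]
  show rtd hN (⟨c • 1⟩ : CM p N j) • up (⟨c • 1⟩ : CM p N j) = 1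
  rw [h3, h1, smul_smul, hv, one_smul]

end Pool.Agent.TF
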