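import Pool.Agent.HSF.Defs2
import Pool.Agent.TF.Psi

/-!
# The congruence subgroups of `SL_N(ℤ_p)` (row M of Theorem F): topology, the matrix `(g - 1) / p ^ κ`
-/

set_option autoImplicit false

open Matrix Topology Filter

namespace Pool.Agent.TF

open Pool.Agent.HSF

variable {p : ℕ} [hp : Fact p.Prime] {N : ℕ}

/-! ### Topology -/

instance compactSpace_matrix : CompactSpace (Matrix (Fin N) (Fin N) ℤ_[p]) :=
  inferInstanceAs (CompactSpace (Fin N → Fin N → ℤ_[p]))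

instance compactSpace_SL : CompactSpace (SpecialLinearGroup (Fin N) ℤ_[p]) :=
  SpecialLinearGroup.isClosedEmbedding_val.compactSpace

instance t2Space_SL : T2Space (SpecialLinearGroup (Fin N) ℤ_[p]) :=
  SpecialLinearGroup.isClosedEmbedding_val.isEmbedding.t2Space

lemma mem_Gam {κ : ℕ} {g : SpecialLinearGroup (Fin N) ℤ_[p]} : g ∈ Gam N p κ ↔
    ∀ i j, (p : ℤ_[p]) ^ κ ∣ (g : Matrix (Fin N) (Fin N) ℤ_[p]) i j - (1 : Matrix (Fin N) (Fin N) ℤ_[p]) i j := Iff.rfl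

lemma mem_Gam_iff {κ : ℕ} {g : SpecialLinearGroup (Fin N) ℤ_[p]} : g ∈ Gam N p κ ↔
    ∃ Z : Matrix (Fin N) (Fin N) ℤ_[p], (g : Matrix (Fin N) (Fin N) ℤ_[p]) = 1 + (p : ℤ_[p]) ^ κ • Z := by
  constructor
  · intro h
    choose z hz using h
    refine ⟨Matrix.of z, ?_⟩
    ext i j
    rw [Matrix.add_apply, Matrix.smul_apply, of_apply, smul_eq_mul, ← hz]
    ring
  · rintro ⟨Z, hZ⟩ i j
    rw [hZ, Matrix.add_apply, Matrix.smul_apply, smul_eq_mul, add_sub_cancel_left]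
    exact dvd_mul_right _ _

lemma Gam_anti {κ κ' : ℕ} (h : κ ≤ κ') : Gam N p κ' ≤ Gam N p κ := fun _ hg i j =>
  (pow_dvd_pow _ h).trans (hg i j)

instance Gam_normal (κ : ℕ) : (Gam N p κ).Normal where
  conj_mem x hx g := by
    obtain ⟨Z, hZ⟩ := mem_Gam_iff.1 hx
    rw [mem_Gam_iff]
    refine ⟨(g : Matrix (Fin N) (Fin N) ℤ_[p]) * Z * ((g⁻¹ : SpecialLinearGroup (Fin N) ℤ_[p]) : Matrix (Fin N) (Fin N) ℤ_[p]), ?_⟩
    have h1 : ((g * x * g⁻¹ : SpecialLinearGroup (Fin N) ℤ_[p]) : Matrix (Fin N) (Fin N) ℤ_[p]) =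
      (g : Matrix (Fin N) (Fin N) ℤ_[p]) * (x : Matrix (Fin N) (Fin N) ℤ_[p]) * ((g⁻¹ : SpecialLinearGroup (Fin N) ℤ_[p]) : Matrix (Fin N) (Fin N) ℤ_[p]) := rfl
    have h2 : (g : Matrix (Fin N) (Fin N) ℤ_[p]) * ((g⁻¹ : SpecialLinearGroup (Fin N) ℤ_[p]) : Matrix (Fin N) (Fin N) ℤ_[p]) = 1 := by
      have h3 : ((g * g⁻¹ : SpecialLinearGroup (Fin N) ℤ_[p]) : Matrix (Fin N) (Fin N) ℤ_[p]) = 1 := by
        rw [mul_inv_cancel]; rfl
      exact h3
    rw [h1, hZ, mul_add, add_mul, mul_one, h2, Matrix.mul_smul, Matrix.smul_mul]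

lemma dvd_pow_iff_norm (κ : ℕ) (x : ℤ_[p]) : (p : ℤ_[p]) ^ κ ∣ x ↔ ‖x‖ ≤ (p : ℝ) ^ (-(κ : ℤ)) := by
  rw [PadicInt.norm_le_pow_iff_mem_span_pow, Ideal.mem_span_singleton]

lemma isClopen_Gam (κ : ℕ) : IsClopen (Gam N p κ : Set (SpecialLinearGroup (Fin N) ℤ_[p])) := by
  have h1 : (Gam N p κ : Set (SpecialLinearGroup (Fin N) ℤ_[p])) = ⋂ i, ⋂ j,
      (fun g : SpecialLinearGroup (Fin N) ℤ_[p] => (g : Matrix (Fin N) (Fin N) ℤ_[p]) i j) ⁻¹'
        Metric.closedBall ((1 : Matrix (Fin N) (Fin N) ℤ_[p]) i j) ((p : ℝ) ^ (-(κ : ℤ))) := by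
    ext g
    simp only [Set.mem_iInter, Set.mem_preimage, Metric.mem_closedBall, dist_eq_norm, ← dvd_pow_iff_norm]
    exact mem_Gam
  have hc : ∀ i j, Continuous (fun g : SpecialLinearGroup (Fin N) ℤ_[p] => (g : Matrix (Fin N) (Fin N) ℤ_[p]) i j) :=
    fun i j => (continuous_apply j).comp ((continuous_apply i).comp continuous_subtype_val)
  have h0 : ((p : ℝ) ^ (-(κ : ℤ))) ≠ 0 := (zpow_pos (by exact_mod_cast hp.out.pos) _).ne'
  rw [h1]
  exact isClopen_iInter_of_finite fun i => isClopen_iInter_of_finite fun j =>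
    (IsUltrametricDist.isClopen_closedBall _ h0).preimage (hc i j)

instance compactSpace_Gam (κ : ℕ) : CompactSpace (Gam N p κ) :=
  isCompact_iff_compactSpace.1 (isClopen_Gam κ).isClosed.isCompact

/-- the congruence subgroups are a basis at `1` -/
lemma exists_Gam_subset {V : Set (SpecialLinearGroup (Fin N) ℤ_[p])} (hV : V ∈ 𝓝 1) (κ : ℕ) :
    ∃ l, κ ≤ l ∧ (Gam N p l : Set (SpecialLinearGroup (Fin N) ℤ_[p])) ⊆ V := by
  have h1 : ⋂ l, (Gam N p l : Set (SpecialLinearGroup (Fin N) ℤ_[p])) = {1} := by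
    ext g
    rw [Set.mem_iInter, Set.mem_singleton_iff]
    constructor
    · intro h
      apply Subtype.ext
      ext i j
      have h2 : ‖(g : Matrix (Fin N) (Fin N) ℤ_[p]) i j - (1 : Matrix (Fin N) (Fin N) ℤ_[p]) i j‖ ≤ 0 := by
        refine ge_of_tendsto' (x := atTop) (f := fun l : ℕ => (p : ℝ) ^ (-(l : ℤ))) ?_ fun l =>
          (dvd_pow_iff_norm l _).1 (h l i j)
        have h3 := tendsto_pow_atTop_nhds_zero_of_lt_one (r := (p : ℝ)⁻¹) (by positivity)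
          (inv_lt_one_of_one_lt₀ (by exact_mod_cast hp.out.one_lt))
        refine h3.congr fun l => ?_
        rw [_root_.zpow_neg, zpow_natCast, inv_pow]
      exact sub_eq_zero.1 (norm_le_zero_iff.1 h2)
    · rintro rfl l
      exact one_mem _
  obtain ⟨l, hl⟩ := exists_subset_nhds_of_isCompact' (V := fun l => (Gam N p l : Set (SpecialLinearGroup (Fin N) ℤ_[p])))
    (directed_of_isDirected_le fun a b hab => Gam_anti hab)
    (fun l => (isClopen_Gam l).isClosed.isCompact) (fun l => (isClopen_Gam l).isClosed) (U := V) (by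
      intro x hx
      rw [h1, Set.mem_singleton_iff] at hx
      rw [hx]
      exact hV)
  exact ⟨max κ l, le_max_left _ _, fun g hg => hl (Gam_anti (le_max_right _ _) hg)⟩

/-! ### The matrix `(g - 1) / p ^ κ` -/

/-- the element of the congruence group with `psi (qm g) = g` -/
noncomputable def qm {j : ℕ} (g : Gam N p (j + 1)) : CM p N j := ⟨(mem_Gam_iff.1 g.2).choose⟩

lemma up_qm {j : ℕ} (g : Gam N p (j + 1)) : up (qm g) = (g.1 : Matrix (Fin N) (Fin N) ℤ_[p]) :=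
  (mem_Gam_iff.1 g.2).choose_spec.symm

lemma psi_qm (hN : ¬ p ∣ N) {j : ℕ} (g : Gam N p (j + 1)) : psi hN (qm g) = g.1 :=
  exists_psi_eq hN g.1 (mem_Gam_iff.1 g.2).choose_spec

/-- the image of `psi` is the congruence subgroup; the difference to `X` is a scalar modulo `p` -/
lemma psi_mem_Gam (hN : ¬ p ∣ N) {j : ℕ} (X : CM p N j) : ∃ w : ℤ_[p],
    (psi hN X : Matrix (Fin N) (Fin N) ℤ_[p]) = 1 + (p : ℤ_[p]) ^ (j + 1) • (X.mat + w • 1 + (p : ℤ_[p]) • (((p : ℤ_[p]) ^ j * w) • X.mat)) := by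
  have h1 : (p : ℤ_[p]) ^ (j + 1) ∣ rtd hN X - 1 := by
    rw [dvd_pow_iff_norm, ← rtd_one hN (N := N) (j := j), norm_rtd_sub, ← dvd_pow_iff_norm, up_one, det_one]
    unfold up
    rw [det_one_add_smul]
    exact ⟨trace X.mat + (det (1 + (Polynomial.X : Polynomial ℤ_[p]) • X.mat.map Polynomial.C)).divX.divX.eval ((p : ℤ_[p]) ^ (j + 1)) * (p : ℤ_[p]) ^ (j + 1), by ring⟩
  obtain ⟨w, hw⟩ := h1
  refine ⟨w, ?_⟩
  have h2 : rtd hN X = 1 + (p : ℤ_[p]) ^ (j + 1) * w := by rw [← hw]; ring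
  rw [psi_val, h2]
  unfold up
  rw [smul_add, add_smul, add_smul, one_smul, one_smul, smul_add, smul_add, smul_smul, smul_smul, smul_smul, smul_smul]
  have e1 : (p : ℤ_[p]) ^ (j + 1) * (p : ℤ_[p]) * ((p : ℤ_[p]) ^ j * w) = (p : ℤ_[p]) ^ (j + 1) * w * (p : ℤ_[p]) ^ (j + 1) := by ring
  rw [e1]
  abel

lemma redm_add {R : Type*} [Ring R] {M : ℕ} (x y : Matrix (Fin (M + 1)) (Fin (M + 1)) R) : redm (x + y) = redm x + redm y := by
  funext ij
  unfold redm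
  rw [Pi.add_apply]
  simp only [Matrix.add_apply]
  split_ifs <;> abel

lemma redm_scalar {R : Type*} [Ring R] {M : ℕ} (c : R) : redm (c • (1 : Matrix (Fin (M + 1)) (Fin (M + 1)) R)) = 0 := by
  funext ij
  unfold redm
  rw [Matrix.smul_apply, Matrix.smul_apply, one_apply_eq, Pi.zero_apply]
  split_ifs with h
  · rw [h, one_apply_eq, sub_self]
  · rw [one_apply_ne h, smul_zero, sub_zero]

end Pool.Agent.TF
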