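import Mathlib

/-!
# Cochains as functions on lists

`dl f` is the coboundary of the function `f` on the lists of points of `X` (all lists; the empty list is the simplex
of dimension `-1`); `pull φ f`, `prism φ ψ f` and the cone homotopy.
-/

set_option autoImplicit false

namespace Pool.Agent.TF

variable {X Y Z M : Type*} [AddCommGroup M]

/-- the coboundary of a function on lists -/
def dl : (List X → M) → List X → M
  | _, [] => 0
  | f, a :: l => f l - dl (fun l' => f (a :: l')) l

@[simp] lemma dl_nil (f : List X → M) : dl f [] = 0 := rfl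

lemma dl_cons (f : List X → M) (a : X) (l : List X) : dl f (a :: l) = f l - dl (fun l' => f (a :: l')) l := rfl

/-- the coboundary at a list depends only on the values on the faces -/
lemma dl_congr : ∀ {f g : List X → M} {l : List X}, (∀ j, j < l.length → f (l.eraseIdx j) = g (l.eraseIdx j)) →
    dl f l = dl g l
  | _, _, [], _ => rfl
  | f, g, a :: l, h => by
    rw [dl_cons, dl_cons]
    congr 1
    · exact h 0 (Nat.succ_pos _)
    · exact dl_congr fun j hj => h (j + 1) (Nat.succ_lt_succ hj)

/-- faces are sublists of smaller length -/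
lemma dl_congr_sub {f g : List X → M} {l : List X} (h : ∀ l' : List X, l'.length + 1 = l.length → l' ⊆ l → f l' = g l') :
    dl f l = dl g l :=
  dl_congr fun j hj => h _ (by rw [List.length_eraseIdx_of_lt hj]; omega) (List.eraseIdx_subset)

lemma dl_add (f g : List X → M) : ∀ l : List X, dl (fun l => f l + g l) l = dl f l + dl g l := by
  intro l
  induction l generalizing f g with
  | nil => rw [dl_nil, dl_nil, dl_nil, add_zero]
  | cons a l ih => rw [dl_cons, dl_cons, dl_cons, ih]; abel

lemma dl_neg (f : List X → M) : ∀ l : List X, dl (fun l => - f l) l = - dl f l := by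
  intro l
  induction l generalizing f with
  | nil => rw [dl_nil, dl_nil, neg_zero]
  | cons a l ih => rw [dl_cons, dl_cons, ih]; abel

lemma dl_sub (f g : List X → M) (l : List X) : dl (fun l => f l - g l) l = dl f l - dl g l := by
  simp only [sub_eq_add_neg]
  rw [dl_add, dl_neg]

lemma dl_zero (l : List X) : dl (fun _ => (0 : M)) l = 0 := by
  induction l with
  | nil => rfl
  | cons a l ih => rw [dl_cons, ih, sub_zero]

/-- additive maps -/
lemma dl_hom {N : Type*} [AddCommGroup N] (φ : M →+ N) (f : List X → M) : ∀ l : List X,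
    dl (fun l => φ (f l)) l = φ (dl f l) := by
  intro l
  induction l generalizing f with
  | nil => rw [dl_nil, dl_nil, map_zero]
  | cons a l ih => rw [dl_cons, dl_cons, map_sub, ih]

lemma dl_smul {k : Type*} [Ring k] [Module k M] (c : k) (f : List X → M) (l : List X) :
    dl (fun l => c • f l) l = c • dl f l :=
  dl_hom (DistribSMul.toAddMonoidHom M c) f l

lemma dl_mul {k : Type*} [Ring k] (c : k) (f : List X → k) (l : List X) :
    dl (fun l => c * f l) l = c * dl f l :=
  dl_hom (AddMonoidHom.mulLeft c) f l

lemma dl_mul_right {k : Type*} [Ring k] (c : k) (f : List X → k) (l : List X) :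
    dl (fun l => f l * c) l = dl f l * c :=
  dl_hom (AddMonoidHom.mulRight c) f l

lemma dl_sum {ι : Type*} (s : Finset ι) (f : ι → List X → M) (l : List X) :
    dl (fun l => ∑ i ∈ s, f i l) l = ∑ i ∈ s, dl (f i) l := by
  classical
  induction s using Finset.induction_on with
  | empty => simp only [Finset.sum_empty]; exact dl_zero l
  | insert i s hi ih =>
    simp only [Finset.sum_insert hi]
    rw [dl_add, ih]

/-- `d d = 0` -/
lemma dl_dl (f : List X → M) : ∀ l : List X, dl (dl f) l = 0 := by
  intro l
  induction l generalizing f with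
  | nil => rfl
  | cons a l ih =>
    rw [dl_cons]
    have h : (fun l' => dl f (a :: l')) = fun l' => f l' - dl (fun l'' => f (a :: l'')) l' := rfl
    rw [h, dl_sub, ih, sub_zero, sub_self]

/-- the explicit formula -/
lemma dl_eq_sum (f : List X → M) : ∀ l : List X, dl f l = ∑ j ∈ Finset.range l.length, (-1 : ℤ) ^ j • f (l.eraseIdx j) := by
  intro l
  induction l generalizing f with
  | nil => rfl
  | cons a l ih =>
    rw [dl_cons, ih, List.length_cons, Finset.sum_range_succ', pow_zero, one_smul, List.eraseIdx_cons_zero, add_comm,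
      sub_eq_add_neg, ← Finset.sum_neg_distrib]
    congr 1
    refine Finset.sum_congr rfl fun j _ => ?_
    rw [pow_succ, mul_neg, mul_one, neg_smul, List.eraseIdx_cons_succ]

/-- pull-back -/
def pull (φ : X → Y) (f : List Y → M) (l : List X) : M := f (l.map φ)

lemma dl_pull (φ : X → Y) (f : List Y → M) : ∀ l : List X, dl (pull φ f) l = dl f (l.map φ) := by
  intro l
  induction l generalizing f with
  | nil => rfl
  | cons a l ih =>
    rw [dl_cons, List.map_cons, dl_cons]
    have h : (fun l' => pull φ f (a :: l')) = pull φ (fun l' => f (φ a :: l')) := rfl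
    rw [h, ih]
    rfl

/-- the prism operator -/
def prism (φ ψ : X → Y) : (List Y → M) → List X → M
  | _, [] => 0
  | f, a :: l => f (φ a :: (a :: l).map ψ) - prism φ ψ (fun l' => f (φ a :: l')) l

@[simp] lemma prism_nil (φ ψ : X → Y) (f : List Y → M) : prism φ ψ f [] = 0 := rfl

lemma prism_cons (φ ψ : X → Y) (f : List Y → M) (a : X) (l : List X) :
    prism φ ψ f (a :: l) = f (φ a :: ψ a :: l.map ψ) - prism φ ψ (fun l' => f (φ a :: l')) l := rfl

lemma prism_add (φ ψ : X → Y) (f g : List Y → M) : ∀ l : List X,
    prism φ ψ (fun l => f l + g l) l = prism φ ψ f l + prism φ ψ g l := by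
  intro l
  induction l generalizing f g with
  | nil => rw [prism_nil, prism_nil, prism_nil, add_zero]
  | cons a l ih => rw [prism_cons, prism_cons, prism_cons, ih]; abel

lemma prism_neg (φ ψ : X → Y) (f : List Y → M) : ∀ l : List X, prism φ ψ (fun l => - f l) l = - prism φ ψ f l := by
  intro l
  induction l generalizing f with
  | nil => rw [prism_nil, prism_nil, neg_zero]
  | cons a l ih => rw [prism_cons, prism_cons, ih]; abel

lemma prism_sub (φ ψ : X → Y) (f g : List Y → M) (l : List X) :
    prism φ ψ (fun l => f l - g l) l = prism φ ψ f l - prism φ ψ g l := by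
  simp only [sub_eq_add_neg]
  rw [prism_add, prism_neg]

/-- additive maps -/
lemma prism_hom {N : Type*} [AddCommGroup N] (χ : M →+ N) (φ ψ : X → Y) (f : List Y → M) : ∀ l : List X,
    prism φ ψ (fun l => χ (f l)) l = χ (prism φ ψ f l) := by
  intro l
  induction l generalizing f with
  | nil => rw [prism_nil, prism_nil, map_zero]
  | cons a l ih => rw [prism_cons, prism_cons, map_sub, ih]

/-- the value of the prism depends only on the lists of the right length with entries `φ a`, `ψ a`, `a ∈ l` -/
lemma prism_congr (φ ψ : X → Y) : ∀ {f g : List Y → M} {l : List X},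
    (∀ l' : List Y, l'.length = l.length + 1 → (∀ y ∈ l', ∃ a ∈ l, y = φ a ∨ y = ψ a) → f l' = g l') →
    prism φ ψ f l = prism φ ψ g l
  | _, _, [], _ => rfl
  | f, g, a :: l, h => by
    rw [prism_cons, prism_cons]
    congr 1
    · apply h
      · simp
      · intro y hy
        rcases List.mem_cons.1 hy with rfl | hy
        · exact ⟨a, List.mem_cons_self, Or.inl rfl⟩
        · rw [← List.map_cons] at hy
          obtain ⟨b, hb, rfl⟩ := List.mem_map.1 hy
          exact ⟨b, hb, Or.inr rfl⟩
    · apply prism_congr
      intro l' hl' hmem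
      apply h
      · rw [List.length_cons, hl', List.length_cons]
      · intro y hy
        rcases List.mem_cons.1 hy with rfl | hy
        · exact ⟨a, List.mem_cons_self, Or.inl rfl⟩
        · obtain ⟨b, hb, hb'⟩ := hmem y hy
          exact ⟨b, List.mem_cons_of_mem _ hb, hb'⟩

/-- naturality in the target -/
lemma prism_pull (χ : Y → Z) (φ ψ : X → Y) (f : List Z → M) : ∀ l : List X,
    prism φ ψ (pull χ f) l = prism (χ ∘ φ) (χ ∘ ψ) f l := by
  intro l
  induction l generalizing f with
  | nil => rfl
  | cons a l ih =>
    rw [prism_cons, prism_cons]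
    have h : (fun l' => pull χ f (φ a :: l')) = pull χ (fun l' => f (χ (φ a) :: l')) := rfl
    rw [h, ih]
    congr 1
    unfold pull
    rw [List.map_cons, List.map_cons, List.map_map]
    rfl

/-- naturality in the source -/
lemma prism_map (φ ψ : Y → Z) (χ : X → Y) (f : List Z → M) : ∀ l : List X,
    prism φ ψ f (l.map χ) = prism (φ ∘ χ) (ψ ∘ χ) f l := by
  intro l
  induction l generalizing f with
  | nil => rfl
  | cons a l ih =>
    rw [List.map_cons, prism_cons, prism_cons, ih, List.map_map]
    rfl

/-- **the prism identity** -/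
theorem dl_prism (φ ψ : X → Y) (f : List Y → M) : ∀ l : List X,
    dl (prism φ ψ f) l + prism φ ψ (dl f) l = f (l.map ψ) - f (l.map φ) := by
  intro l
  induction l generalizing f with
  | nil => rw [dl_nil, prism_nil, List.map_nil, List.map_nil, add_zero, sub_self]
  | cons a l ih =>
    have h1 : (fun l' => prism φ ψ f (a :: l')) = fun l' => f (φ a :: ψ a :: l'.map ψ) -
        prism φ ψ (fun l'' => f (φ a :: l'')) l' := rfl
    have h2 : (fun l' => dl f (φ a :: l')) = fun l' => f l' - dl (fun l'' => f (φ a :: l'')) l' := rfl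
    have h3 : dl (fun l' : List X => f (φ a :: ψ a :: l'.map ψ)) l = dl (fun l' => f (φ a :: ψ a :: l')) (l.map ψ) :=
      dl_pull ψ (fun l' => f (φ a :: ψ a :: l')) l
    have h4 := ih (fun l'' => f (φ a :: l''))
    rw [dl_cons, h1, dl_sub, h3, prism_cons, h2, prism_sub, dl_cons, dl_cons, List.map_cons, List.map_cons]
    have h5 : dl (prism φ ψ fun l'' => f (φ a :: l'')) l = f (φ a :: l.map ψ) - f (φ a :: l.map φ) -
        prism φ ψ (dl fun l'' => f (φ a :: l'')) l := by
      rw [← h4]
      abel
    rw [h5]
    abel

/-! ### the cone homotopy -/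

/-- the homotopy of the length `n` -/
def coneN (Φ : (List X → M) → List X → M) : ℕ → (List X → M) → List X → M
  | 0, _, _ => 0
  | _ + 1, _, [] => 0
  | n + 1, f, a :: l => f (a :: a :: l) - Φ (fun l' => f (a :: l')) (a :: l) -
      dl (coneN Φ n fun l' => f (a :: l')) (a :: l)

/-- the cone homotopy between the identity and an operator `Φ` on cochains that commutes with `dl` -/
def cone (Φ : (List X → M) → List X → M) (f : List X → M) (l : List X) : M := coneN Φ l.length f l

lemma cone_nil (Φ : (List X → M) → List X → M) (f : List X → M) : cone Φ f [] = 0 := rfl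

lemma cone_cons (Φ : (List X → M) → List X → M) (f : List X → M) (a : X) (l : List X) :
    cone Φ f (a :: l) = f (a :: a :: l) - Φ (fun l' => f (a :: l')) (a :: l) -
      dl (cone Φ fun l' => f (a :: l')) (a :: l) := by
  show coneN Φ (l.length + 1) f (a :: l) = _
  unfold coneN
  congr 1
  apply dl_congr
  intro j hj
  unfold cone
  rw [List.length_eraseIdx_of_lt hj]
  rfl

lemma cone_sub {Φ : (List X → M) → List X → M} (hΦ : ∀ f g l, Φ (fun l => f l - g l) l = Φ f l - Φ g l)
    (f g : List X → M) : ∀ (n : ℕ) (l : List X), l.length = n → cone Φ (fun l => f l - g l) l = cone Φ f l - cone Φ g l := by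
  intro n
  induction n generalizing f g with
  | zero =>
    intro l hl
    rw [List.length_eq_zero_iff.1 hl, cone_nil, cone_nil, cone_nil, sub_zero]
  | succ n ih =>
    intro l hl
    obtain ⟨a, l, rfl⟩ := List.exists_cons_of_length_eq_add_one hl
    rw [cone_cons, cone_cons, cone_cons, hΦ]
    have h1 : dl (cone Φ fun l' => f (a :: l') - g (a :: l')) (a :: l) =
        dl (fun l'' => cone Φ (fun l' => f (a :: l')) l'' - cone Φ (fun l' => g (a :: l')) l'') (a :: l) :=
      dl_congr fun j hj => ih (fun l' => f (a :: l')) (fun l' => g (a :: l')) _ (by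
        rw [List.length_eraseIdx_of_lt hj]; omega)
    rw [h1, dl_sub]
    abel

/-- **the cone homotopy** -/
theorem dl_cone {Φ : (List X → M) → List X → M} (hΦ : ∀ f g l, Φ (fun l => f l - g l) l = Φ f l - Φ g l)
    (hd : ∀ f l, Φ (dl f) l = dl (Φ f) l) (h0 : ∀ f, Φ f [] = f []) (f : List X → M) : ∀ (n : ℕ) (l : List X), l.length = n →
    dl (cone Φ f) l + cone Φ (dl f) l = f l - Φ f l := by
  intro n
  induction n generalizing f with
  | zero =>
    intro l hl
    rw [List.length_eq_zero_iff.1 hl, dl_nil, cone_nil, h0, add_zero, sub_self]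
  | succ n ih =>
    intro l hl
    obtain ⟨a, l, rfl⟩ := List.exists_cons_of_length_eq_add_one hl
    rw [cone_cons]
    have h1 : (fun l' => dl f (a :: l')) = fun l' => f l' - dl (fun l'' => f (a :: l'')) l' := rfl
    have h2 : dl (cone Φ fun l' => dl f (a :: l')) (a :: l) = dl (cone Φ f) (a :: l) -
        dl (cone Φ (dl fun l'' => f (a :: l''))) (a :: l) := by
      rw [h1, ← dl_sub]
      exact dl_congr fun j hj => cone_sub hΦ _ _ _ _ rfl
    have h3 : dl (cone Φ (dl fun l'' => f (a :: l''))) (a :: l) =
        dl (fun l' => (f (a :: l') - Φ (fun l'' => f (a :: l'')) l') - dl (cone Φ fun l'' => f (a :: l'')) l') (a :: l) := by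
      apply dl_congr
      intro j hj
      have h4 := ih (fun l'' => f (a :: l'')) ((a :: l).eraseIdx j) (by
        rw [List.length_eraseIdx_of_lt hj]; omega)
      rw [← h4]
      abel
    rw [h2, h3, dl_sub, dl_sub, dl_dl, h1, hΦ, hd]
    show dl (cone Φ f) (a :: l) + (dl f (a :: a :: l) - _ - _) = _
    rw [dl_cons f a (a :: l)]
    abel

end Pool.Agent.TF
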