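import Pool.Agent.TF.Vol
import Pool.Agent.TF.Chain

/-!
# The cochains `beta`

`P v`, `v : Vx`, are maps of `X` into itself. For a function `f` on the lists of points of `X` and a list `s = [v₀, .., v_i]`
of vertices, `bt P f s` is `f` applied to the iterated prisms `h_{v₀} h_{v₁} .. h_{v_i}`. If the maps `P v` commute on
`s` and `f` is closed and killed by the maps `P v`, then the coboundary of `bt P f s x` in the variable `x` is the
coboundary in the variable `s`, up to sign.
-/

set_option autoImplicit false

open Module Matrix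

namespace Pool.Agent.TF

section bt
variable {X Vx M : Type*} [AddCommGroup M] (P : Vx → X → X)

/-- iterated prisms -/
def bt : (List X → M) → List Vx → List X → M
  | f, [] => f
  | f, v :: s => bt (prism id (P v) f) s

@[simp] lemma bt_nil (f : List X → M) : bt P f [] = f := rfl

lemma bt_cons (f : List X → M) (v : Vx) (s : List Vx) : bt P f (v :: s) = bt P (prism id (P v) f) s := rfl

lemma bt_add (f g : List X → M) (s : List Vx) (x : List X) :
    bt P (fun l => f l + g l) s x = bt P f s x + bt P g s x := by
  induction s generalizing f g with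
  | nil => rfl
  | cons v s ih =>
    rw [bt_cons, bt_cons, bt_cons, ← ih]
    congr 1
    funext l
    exact prism_add _ _ _ _ l

lemma bt_neg (f : List X → M) (s : List Vx) (x : List X) : bt P (fun l => - f l) s x = - bt P f s x := by
  induction s generalizing f with
  | nil => rfl
  | cons v s ih =>
    rw [bt_cons, bt_cons, ← ih]
    congr 1
    funext l
    exact prism_neg _ _ _ l

lemma prism_zero' {φ ψ : X → X} (l : List X) : prism φ ψ (fun _ => (0 : M)) l = 0 := by
  have h := prism_sub φ ψ (fun _ => (0 : M)) (fun _ => 0) l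
  simpa using h

lemma bt_zero (s : List Vx) (x : List X) : bt P (fun _ => (0 : M)) s x = 0 := by
  induction s with
  | nil => rfl
  | cons v s ih =>
    rw [bt_cons]
    have h : prism id (P v) (fun _ => (0 : M)) = fun _ => 0 := funext prism_zero'
    rw [h, ih]

/-- the iterated prisms of the empty list -/
lemma bt_empty (f : List X → M) {s : List Vx} (hs : s ≠ []) : bt P f s [] = 0 := by
  induction s generalizing f with
  | nil => exact absurd rfl hs
  | cons v s ih =>
    rw [bt_cons]
    rcases s with _ | ⟨u, s⟩
    · rfl
    · exact ih _ (List.cons_ne_nil _ _)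

/-- degrees -/
lemma bt_eq_zero {f : List X → M} {n : ℕ} (hf : ∀ l : List X, l.length ≠ n → f l = 0) (s : List Vx) {x : List X}
    (h : s.length + x.length ≠ n) : bt P f s x = 0 := by
  induction s generalizing f n with
  | nil => exact hf x (by simpa using h)
  | cons v s ih =>
    rw [bt_cons]
    rcases Nat.eq_zero_or_pos n with rfl | hn
    · -- `f` is supported on the empty list
      have h0 : prism id (P v) f = fun _ => 0 := by
        funext l
        rw [prism_congr id (P v) (g := fun _ => 0), prism_zero']
        intro l' hl' _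
        exact hf l' (by omega)
      rw [h0, bt_zero]
    · refine ih (n := n - 1) (fun l hl => ?_) (by rw [List.length_cons] at h; omega)
      rw [prism_congr id (P v) (g := fun _ => 0), prism_zero']
      intro l' hl' _
      exact hf l' (by omega)

/-- functions that are killed by a map -/
lemma prism_killed {u v : Vx} (h : P u ∘ P v = P v ∘ P u) {f : List X → M} (hf : ∀ l : List X, f (l.map (P v)) = 0)
    (l : List X) : prism id (P u) f (l.map (P v)) = 0 := by
  rw [prism_map]
  have h1 : prism (id ∘ P v) (P u ∘ P v) f l = prism id (P u) (pull (P v) f) l := by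
    rw [prism_pull, h]
    rfl
  rw [h1]
  have h2 : pull (P v) f = fun _ => (0 : M) := funext fun l => hf l
  rw [h2, prism_zero']

/-- **The main identity.** -/
theorem dl_bt {s : List Vx} (hP : s.Pairwise fun u v => P u ∘ P v = P v ∘ P u) {f : List X → M}
    (hf : ∀ v ∈ s, ∀ l : List X, f (l.map (P v)) = 0) (x : List X) :
    dl (bt P f s) x = (-1 : ℤ) ^ s.length • bt P (dl f) s x +
      (-1 : ℤ) ^ s.length • dl (fun s' => bt P f s' x) s := by
  induction s generalizing f with
  | nil => simp
  | cons v s ih =>
    rw [List.pairwise_cons] at hP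
    have h1 := ih hP.2 (f := prism id (P v) f) (fun u hu l =>
      prism_killed P (hP.1 u hu) (hf u (List.mem_cons_of_mem _ hu)) l)
    have h2 : dl (prism id (P v) f) = fun l => - (f l + prism id (P v) (dl f) l) := by
      funext l
      have h3 := dl_prism id (P v) f l
      rw [hf v List.mem_cons_self, List.map_id, zero_sub] at h3
      rw [neg_add, ← h3]
      abel
    rw [bt_cons, h1, h2, bt_neg, bt_add, dl_cons, List.length_cons, pow_succ]
    have h4 : (fun s' => bt P f (v :: s') x) = fun s' => bt P (prism id (P v) f) s' x := rfl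
    have h5 : bt P (prism id (P v) (dl f)) s x = bt P (dl f) (v :: s) x := rfl
    rw [h4, h5]
    simp only [mul_neg, mul_one, neg_smul, smul_neg, smul_add, smul_sub]
    abel

/-- equivariance -/
lemma bt_equivariant {a : Vx → Vx} {τ : X → X} (h : ∀ v x, P (a v) (τ x) = τ (P v x)) {f g : List X → M}
    (hf : ∀ l : List X, f (l.map τ) = g l) (s : List Vx) (x : List X) :
    bt P f (s.map a) (x.map τ) = bt P g s x := by
  induction s generalizing f g with
  | nil => exact hf x
  | cons v s ih =>
    rw [List.map_cons, bt_cons, bt_cons]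
    apply ih
    intro l
    rw [prism_map]
    have h2 : prism (id ∘ τ) (P (a v) ∘ τ) f l = prism id (P v) (pull τ f) l := by
      rw [prism_pull]
      congr 1
      funext y
      exact h v y
    rw [h2]
    congr 1
    funext l'
    exact hf l'

end bt

/-! ### the volume -/

section vol
variable {k : Type*} [Field k] {r D : ℕ}

lemma dl_ofFn_beta {X M : Type*} [AddCommGroup M] (g : List X → M) : ∀ {n : ℕ} (f : Fin (n + 1) → X),
    dl g (List.ofFn f) = ∑ j : Fin (n + 1), (-1 : ℤ) ^ (j : ℕ) • g (List.ofFn (f ∘ j.succAbove))
  | 0, f => by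
    rw [List.ofFn_succ, dl_cons, List.ofFn_zero, dl_nil, sub_zero, Fin.sum_univ_one]
    simp
  | n + 1, f => by
    rw [List.ofFn_succ, dl_cons, dl_ofFn_beta (fun l' => g (f 0 :: l')) (fun i : Fin (n + 1) => f i.succ)]
    conv_rhs => rw [Fin.sum_univ_succ, Fin.succAbove_zero, Fin.val_zero, pow_zero, one_smul]
    rw [sub_eq_add_neg]
    congr 1
    rw [← Finset.sum_neg_distrib]
    refine Finset.sum_congr rfl fun j _ => ?_
    rw [Fin.val_succ, pow_succ, mul_neg, mul_one, neg_smul]
    congr 2
    rw [List.ofFn_succ]
    congr 2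
    refine congrArg List.ofFn (funext fun i => ?_)
    simp only [Function.comp_apply, Fin.succ_succAbove_succ]

/-- the volume is closed -/
theorem dl_vol (l : List (Fin r → k)) : dl (vol (k := k) (r := r)) l = 0 := by
  rcases l with _ | ⟨a, l⟩
  · rfl
  · obtain ⟨n, f, hf⟩ : ∃ (n : ℕ) (f : Fin (n + 1) → (Fin r → k)), List.ofFn f = a :: l :=
      ⟨l.length, (a :: l).get, List.ofFn_get _⟩
    rw [← hf, dl_ofFn_beta]
    by_cases hn : n = r + 1
    · subst hn
      rw [← vol_closed f]
      refine Finset.sum_congr rfl fun j _ => ?_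
      rw [zsmul_eq_mul]
      push_cast
      rfl
    · refine Finset.sum_eq_zero fun j _ => ?_
      rw [vol_of_ne, smul_zero]
      rw [List.length_ofFn]
      exact hn

end vol

/-- a coloured system of affine projections with dual functionals -/
structure Sys (k : Type*) [Field k] (r D : ℕ) (Vx : Type*) where
  w : Fin (D + 1) → (Fin r → k)
  col : Vx → Fin (D + 1)
  xi : Vx → ((Fin r → k) →ₗ[k] k)
  cst : Vx → k
  dual : ∀ v j, xi v (w j) = if j = col v then 1 else 0

namespace Sys
variable {k : Type*} [Field k] {r D : ℕ} {Vx : Type*} (S : Sys k r D Vx)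

/-- the projection -/
def P (v : Vx) : (Fin r → k) → (Fin r → k) := Pm (S.w (S.col v)) (S.xi v) (S.cst v)

lemma xi_self (v : Vx) : S.xi v (S.w (S.col v)) = 1 := by
  rw [S.dual, if_pos rfl]

lemma P_comm {u v : Vx} (h : S.col u = S.col v → u = v) : S.P u ∘ S.P v = S.P v ∘ S.P u := by
  by_cases huv : S.col u = S.col v
  · rw [h huv]
  · funext x
    exact Pm_comm (by rw [S.dual, if_neg (Ne.symm huv)]) (by rw [S.dual, if_neg huv]) _ _ x

/-- a list of vertices is consistent if vertices of the same colour are equal -/
def Cons (s : List Vx) : Prop := s.Pairwise fun u v => S.col u = S.col v → u = v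

/-- the cochains `beta` -/
noncomputable def beta (s : List Vx) (x : List (Fin r → k)) : k := bt S.P vol s x

@[simp] lemma beta_nil (x : List (Fin r → k)) : S.beta [] x = vol x := rfl

/-- **The identity of `beta`.** -/
theorem dl_beta {s : List Vx} (hs : S.Cons s) (x : List (Fin r → k)) :
    dl (S.beta s) x = (-1) ^ s.length * dl (fun s' => S.beta s' x) s := by
  have h1 := dl_bt S.P (s := s) (hs.imp fun h => S.P_comm h) (f := vol (k := k) (r := r))
    (fun v _ l => vol_map_Pm (S.xi_self v) _ l) x
  have h2 : dl (vol (k := k) (r := r)) = fun _ => 0 := funext dl_vol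
  rw [h2, bt_zero, smul_zero, zero_add, zsmul_eq_mul] at h1
  push_cast at h1
  exact h1

/-- degrees -/
lemma beta_eq_zero (s : List Vx) {x : List (Fin r → k)} (h : s.length + x.length ≠ r + 1) : S.beta s x = 0 :=
  bt_eq_zero S.P (fun _ hl => vol_of_ne hl) s h

lemma beta_empty {s : List Vx} (hs : s ≠ []) : S.beta s [] = 0 := bt_empty S.P _ hs

/-- equivariance under translations -/
lemma beta_equivariant {a : Vx → Vx} {g : Fin r → k} (hcol : ∀ v, S.col (a v) = S.col v) (hxi : ∀ v, S.xi (a v) = S.xi v)
    (hcst : ∀ v, S.cst (a v) = S.cst v + S.xi v g) (s : List Vx) (x : List (Fin r → k)) :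
    S.beta (s.map a) (x.map (· + g)) = S.beta s x := by
  apply bt_equivariant
  · intro v x
    unfold P
    rw [hcol, hxi, hcst, Pm_add]
  · intro l
    exact vol_add g l

end Sys

end Pool.Agent.TF
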