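import Mathlib

/-!
# The congruence groups `1 + p ^ (j + 1) M_N(ℤ_p)` (row D of the project TF)

`CM p N j` is the set of all `N × N` matrices over `ℤ_p` with the product `X + Y + p ^ (j + 1) X Y`, so that
`X ↦ 1 + p ^ (j + 1) X` (`up`) is multiplicative. It is a compact totally disconnected group. `redM` is the reduction
modulo `p`, `lev m` the open normal subgroup of the matrices which are divisible by `p ^ m`.
-/

set_option autoImplicit false

open Matrix Topology Filter

namespace Pool.Agent.TF

/-- the congruence group of level `j + 1` -/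
@[ext] structure CM (p : ℕ) [Fact p.Prime] (N j : ℕ) : Type where
  /-- the matrix -/
  mat : Matrix (Fin N) (Fin N) ℤ_[p]

variable {p : ℕ} [hp : Fact p.Prime] {N j : ℕ}

/-- the matrix `1 + p ^ (j + 1) X` -/
noncomputable def up (X : CM p N j) : Matrix (Fin N) (Fin N) ℤ_[p] := 1 + (p : ℤ_[p]) ^ (j + 1) • X.mat

lemma pow_ne (n : ℕ) : (p : ℤ_[p]) ^ n ≠ 0 := pow_ne_zero _ (by exact_mod_cast hp.out.ne_zero)

lemma up_injective : Function.Injective (up : CM p N j → _) := by
  intro X Y h
  have h1 : (p : ℤ_[p]) ^ (j + 1) • X.mat = (p : ℤ_[p]) ^ (j + 1) • Y.mat := add_left_cancel h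
  exact CM.ext (smul_right_injective _ (pow_ne (j + 1)) h1)

lemma isUnit_of_toZMod {x : ℤ_[p]} (h : PadicInt.toZMod x ≠ 0) : IsUnit x := by
  by_contra hx
  apply h
  rw [← RingHom.mem_ker, PadicInt.ker_toZMod]
  exact (IsLocalRing.mem_maximalIdeal x).2 hx

lemma toZMod_p_pow (j : ℕ) : PadicInt.toZMod ((p : ℤ_[p]) ^ (j + 1)) = 0 := by
  rw [map_pow, map_natCast, ZMod.natCast_self, zero_pow (Nat.succ_ne_zero j)]

lemma map_up (X : CM p N j) : (up X).map PadicInt.toZMod = 1 := by
  unfold up
  ext a b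
  rw [map_apply, Matrix.add_apply, Matrix.smul_apply, smul_eq_mul, map_add, map_mul, toZMod_p_pow, zero_mul, add_zero]
  by_cases h : a = b
  · subst h
    rw [one_apply_eq, one_apply_eq, map_one]
  · rw [one_apply_ne h, one_apply_ne h, map_zero]

lemma isUnit_det_up (X : CM p N j) : IsUnit (up X).det := by
  apply isUnit_of_toZMod
  rw [RingHom.map_det]
  have h1 : PadicInt.toZMod.mapMatrix (up X) = 1 := map_up X
  rw [h1, det_one]
  exact one_ne_zero

noncomputable instance : Mul (CM p N j) where
  mul X Y := ⟨X.mat + Y.mat + (p : ℤ_[p]) ^ (j + 1) • (X.mat * Y.mat)⟩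

noncomputable instance : One (CM p N j) where
  one := ⟨0⟩

noncomputable instance : Inv (CM p N j) where
  inv X := ⟨-(X.mat * (up X)⁻¹)⟩

lemma mul_mat (X Y : CM p N j) : (X * Y).mat = X.mat + Y.mat + (p : ℤ_[p]) ^ (j + 1) • (X.mat * Y.mat) := rfl

lemma one_mat : (1 : CM p N j).mat = 0 := rfl

lemma inv_mat (X : CM p N j) : (X⁻¹).mat = -(X.mat * (up X)⁻¹) := rfl

lemma up_mul (X Y : CM p N j) : up (X * Y) = up X * up Y := by
  unfold up
  rw [mul_mat, add_mul, mul_add, mul_add, one_mul, one_mul, mul_one, smul_add, smul_add, Matrix.smul_mul, Matrix.mul_smul]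
  abel

lemma up_one : up (1 : CM p N j) = 1 := by
  unfold up
  rw [one_mat, smul_zero, add_zero]

lemma smul_mat_eq (X : CM p N j) : (p : ℤ_[p]) ^ (j + 1) • X.mat = up X - 1 := by
  unfold up
  rw [add_sub_cancel_left]

lemma up_inv (X : CM p N j) : up X⁻¹ = (up X)⁻¹ := by
  have hu := isUnit_det_up X
  have h1 : up X⁻¹ = 1 - (p : ℤ_[p]) ^ (j + 1) • (X.mat * (up X)⁻¹) := by
    unfold up
    rw [inv_mat, smul_neg, sub_eq_add_neg]
    rfl
  rw [h1, ← Matrix.smul_mul, smul_mat_eq, sub_mul, mul_nonsing_inv _ hu, one_mul, sub_sub_cancel]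

noncomputable instance : Group (CM p N j) := Group.ofLeftAxioms
  (fun X Y Z => up_injective (by rw [up_mul, up_mul, up_mul, up_mul, Matrix.mul_assoc]))
  (fun X => up_injective (by rw [up_mul, up_one, one_mul]))
  (fun X => up_injective (by rw [up_mul, up_inv, up_one, nonsing_inv_mul _ (isUnit_det_up X)]))

/-! ### Topology -/

noncomputable instance : TopologicalSpace (CM p N j) :=
  TopologicalSpace.induced CM.mat (inferInstanceAs (TopologicalSpace (Fin N → Fin N → ℤ_[p])))

/-- matrices, as a homeomorphism -/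
noncomputable def matH : CM p N j ≃ₜ (Fin N → Fin N → ℤ_[p]) where
  toFun := CM.mat
  invFun Z := ⟨Z⟩
  left_inv _ := rfl
  right_inv _ := rfl
  continuous_toFun := continuous_induced_dom
  continuous_invFun := continuous_induced_rng.2 continuous_id

instance : T2Space (CM p N j) := matH.isEmbedding.t2Space
instance : CompactSpace (CM p N j) := matH.symm.compactSpace
instance : TotallyDisconnectedSpace (CM p N j) := by
  constructor
  intro s _ hs x hx y hy
  have h1 := (hs.image (matH (p := p) (N := N) (j := j)) matH.continuous.continuousOn).subsingleton ⟨x, hx, rfl⟩ ⟨y, hy, rfl⟩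
  exact matH.injective h1

lemma continuous_mat : Continuous (fun X : CM p N j => X.mat) := continuous_induced_dom

lemma continuous_up : Continuous (up : CM p N j → _) :=
  continuous_const.add ((continuous_const_smul ((p : ℤ_[p]) ^ (j + 1))).comp continuous_mat)

lemma continuous_inv_up : Continuous fun X : CM p N j => (up X)⁻¹ := by
  have h1 : (fun X : CM p N j => (up X)⁻¹) = fun X : CM p N j => Ring.inverse (up X).det • (up X).adjugate := by
    funext X
    exact inv_def (up X)
  rw [h1]
  have h3 : Continuous fun X : CM p N j => (up X).adjugate := continuous_up.matrix_adjugate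
  suffices h4 : Continuous fun X : CM p N j => Ring.inverse (up X).det by
    refine continuous_matrix fun a b => ?_
    exact h4.mul ((continuous_apply b).comp ((continuous_apply a).comp h3))
  rw [continuous_iff_continuousAt]
  intro X
  obtain ⟨u, hu⟩ := isUnit_det_up X
  have h2 : ContinuousAt Ring.inverse (up X).det := by
    rw [← hu]
    exact NormedRing.inverse_continuousAt u
  exact ContinuousAt.comp (f := fun X : CM p N j => (up X).det) h2 continuous_up.matrix_det.continuousAt

instance : IsTopologicalGroup (CM p N j) where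
  continuous_mul := by
    have h1 : Continuous fun q : CM p N j × CM p N j => q.1.mat := continuous_mat.comp continuous_fst
    have h2 : Continuous fun q : CM p N j × CM p N j => q.2.mat := continuous_mat.comp continuous_snd
    exact continuous_induced_rng.2 ((h1.add h2).add ((continuous_const_smul ((p : ℤ_[p]) ^ (j + 1))).comp (h1.matrix_mul h2)))
  continuous_inv := by
    have h1 : Continuous fun X : CM p N j => X.mat * (up X)⁻¹ := continuous_mat.matrix_mul continuous_inv_up
    refine continuous_induced_rng.2 ?_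
    have h2 : (CM.mat ∘ fun X : CM p N j => X⁻¹) = fun X : CM p N j => -(X.mat * (up X)⁻¹) := rfl
    rw [h2]
    refine continuous_matrix fun a b => ?_
    exact (((continuous_apply b).comp ((continuous_apply a).comp h1))).neg

/-! ### Reduction modulo `p` -/

/-- reduction modulo `p` -/
noncomputable def redM (X : CM p N j) : Matrix (Fin N) (Fin N) (ZMod p) := X.mat.map PadicInt.toZMod

lemma redM_apply (X : CM p N j) (a b : Fin N) : redM X a b = PadicInt.toZMod (X.mat a b) := rfl

lemma redM_mul (X Y : CM p N j) : redM (X * Y) = redM X + redM Y := by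
  ext a b
  rw [redM_apply, Matrix.add_apply, redM_apply, redM_apply, mul_mat, Matrix.add_apply, Matrix.add_apply,
    Matrix.smul_apply, smul_eq_mul, map_add, map_add, map_mul, toZMod_p_pow, zero_mul, add_zero]

lemma redM_one : redM (1 : CM p N j) = 0 := by
  ext a b
  rw [redM_apply, one_mat, Matrix.zero_apply, map_zero, Matrix.zero_apply]

lemma redM_inv (X : CM p N j) : redM X⁻¹ = - redM X := by
  have h1 : redM (X⁻¹ * X) = 0 := by rw [inv_mul_cancel, redM_one]
  rw [redM_mul] at h1
  exact eq_neg_of_add_eq_zero_left h1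

lemma redM_conj (X Y : CM p N j) : redM (Y * X * Y⁻¹) = redM X := by
  rw [redM_mul, redM_mul, redM_inv]
  abel

lemma redM_surjective : Function.Surjective (redM : CM p N j → _) := by
  intro V
  choose f hf using fun q : Fin N × Fin N => ZMod.ringHom_surjective (PadicInt.toZMod : ℤ_[p] →+* ZMod p) (V q.1 q.2)
  refine ⟨⟨Matrix.of fun a b => f (a, b)⟩, ?_⟩
  ext a b
  exact hf (a, b)

/-- reduction modulo `p`, as a homomorphism -/
noncomputable def red : CM p N j →* Multiplicative (Matrix (Fin N) (Fin N) (ZMod p)) where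
  toFun X := Multiplicative.ofAdd (redM X)
  map_one' := by rw [redM_one]; rfl
  map_mul' X Y := by rw [redM_mul]; rfl

lemma red_apply (X : CM p N j) : red X = Multiplicative.ofAdd (redM X) := rfl

/-- two matrices with the same reduction differ by a multiple of `p` -/
lemma exists_of_redM_eq {X Y : CM p N j} (h : redM X = redM Y) :
    ∃ R : Matrix (Fin N) (Fin N) ℤ_[p], X.mat = Y.mat + (p : ℤ_[p]) • R := by
  have h1 : ∀ a b, ∃ r : ℤ_[p], X.mat a b = Y.mat a b + p * r := by
    intro a b
    have h2 : redM X a b = redM Y a b := by rw [h]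
    rw [redM_apply, redM_apply, ← sub_eq_zero, ← map_sub, ← RingHom.mem_ker, PadicInt.ker_toZMod,
      PadicInt.maximalIdeal_eq_span_p, Ideal.mem_span_singleton] at h2
    obtain ⟨r, hr⟩ := h2
    exact ⟨r, by rw [← hr]; ring⟩
  choose r hr using h1
  refine ⟨Matrix.of r, ?_⟩
  ext a b
  rw [Matrix.add_apply, Matrix.smul_apply, smul_eq_mul, of_apply]
  exact hr a b

lemma redM_eq_of {X Y : CM p N j} {R : Matrix (Fin N) (Fin N) ℤ_[p]} (h : X.mat = Y.mat + (p : ℤ_[p]) • R) :
    redM X = redM Y := by
  ext a b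
  rw [redM_apply, redM_apply, h, Matrix.add_apply, Matrix.smul_apply, smul_eq_mul, map_add, map_mul, map_natCast,
    ZMod.natCast_self, zero_mul, add_zero]

/-! ### The congruence filtration -/

/-- the matrices which are divisible by `p ^ m` -/
def lev (p : ℕ) [Fact p.Prime] (N j m : ℕ) : Subgroup (CM p N j) where
  carrier := {X | ∃ Z : Matrix (Fin N) (Fin N) ℤ_[p], X.mat = (p : ℤ_[p]) ^ m • Z}
  mul_mem' := by
    rintro X Y ⟨Z, hZ⟩ ⟨Z', hZ'⟩
    refine ⟨Z + Z' + (p : ℤ_[p]) ^ (j + 1) • ((p : ℤ_[p]) ^ m • (Z * Z')), ?_⟩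
    rw [mul_mat, hZ, hZ', smul_add, smul_add, Matrix.smul_mul, Matrix.mul_smul]
    congr 1
    rw [smul_comm]
  one_mem' := ⟨0, by rw [one_mat, smul_zero]⟩
  inv_mem' := by
    rintro X ⟨Z, hZ⟩
    refine ⟨-(Z * (up X)⁻¹), ?_⟩
    rw [inv_mat, hZ, smul_neg, Matrix.smul_mul]

lemma mem_lev {m : ℕ} {X : CM p N j} : X ∈ lev p N j m ↔
    ∃ Z : Matrix (Fin N) (Fin N) ℤ_[p], X.mat = (p : ℤ_[p]) ^ m • Z := Iff.rfl

lemma conj_mat (X Y : CM p N j) : (Y * X * Y⁻¹).mat = up Y * X.mat * (up Y)⁻¹ := by
  have h1 : (Y * X * Y⁻¹ : CM p N j) = ⟨up Y * X.mat * (up Y)⁻¹⟩ := by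
    apply up_injective
    have h2 : up (⟨up Y * X.mat * (up Y)⁻¹⟩ : CM p N j) = 1 + (p : ℤ_[p]) ^ (j + 1) • (up Y * X.mat * (up Y)⁻¹) := rfl
    rw [up_mul, up_mul, up_inv, h2]
    nth_rw 2 [up]
    rw [mul_add, add_mul, mul_one, mul_nonsing_inv _ (isUnit_det_up Y), Matrix.mul_smul, Matrix.smul_mul]
  rw [h1]

instance (m : ℕ) : (lev p N j m).Normal where
  conj_mem X hX Y := by
    obtain ⟨Z, hZ⟩ := hX
    refine ⟨up Y * Z * (up Y)⁻¹, ?_⟩
    rw [conj_mat, hZ, Matrix.mul_smul, Matrix.smul_mul]

lemma isOpen_lev (m : ℕ) : IsOpen (lev p N j m : Set (CM p N j)) := by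
  have h1 : (lev p N j m : Set (CM p N j)) = ⋂ a, ⋂ b, (fun X : CM p N j => X.mat a b) ⁻¹'
      Metric.closedBall 0 ((p : ℝ) ^ (-(m : ℤ))) := by
    ext X
    simp only [Set.mem_iInter, Set.mem_preimage, mem_closedBall_zero_iff]
    constructor
    · rintro ⟨Z, hZ⟩ a b
      rw [hZ, Matrix.smul_apply, smul_eq_mul, PadicInt.norm_le_pow_iff_mem_span_pow]
      exact Ideal.mem_span_singleton.2 (dvd_mul_right _ _)
    · intro h
      have h2 : ∀ a b, ∃ r, X.mat a b = (p : ℤ_[p]) ^ m * r := by
        intro a b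
        have h3 := h a b
        rw [PadicInt.norm_le_pow_iff_mem_span_pow] at h3
        exact Ideal.mem_span_singleton.1 h3
      choose r hr using h2
      refine ⟨Matrix.of r, ?_⟩
      ext a b
      rw [Matrix.smul_apply, smul_eq_mul, of_apply]
      exact hr a b
  rw [h1]
  refine isOpen_iInter_of_finite fun a => isOpen_iInter_of_finite fun b => ?_
  refine (IsUltrametricDist.isOpen_closedBall 0 ?_).preimage ?_
  · exact (zpow_pos (by exact_mod_cast hp.out.pos) _).ne'
  · exact (continuous_apply b).comp ((continuous_apply a).comp continuous_mat)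

end Pool.Agent.TF
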