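import Pool.Agent.TF.Beta

/-!
# Cup products of cochains on lists, and the total cochain
-/

set_option autoImplicit false

namespace Pool.Agent.TF

section cup
variable {X k : Type*} [CommRing k]

/-- the cup product: `cup n c b [z₀, .., z_q] = c [z₀, .., z_n] * b [z_n, .., z_q]` -/
def cup : ℕ → (List X → k) → (List X → k) → List X → k
  | _, _, _, [] => 0
  | 0, c, b, a :: l => c [a] * b (a :: l)
  | n + 1, c, b, a :: l => cup n (fun l' => c (a :: l')) b l

@[simp] lemma cup_nil (n : ℕ) (c b : List X → k) : cup n c b [] = 0 := by
  cases n <;> rfl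

lemma cup_zero (c b : List X → k) (a : X) (l : List X) : cup 0 c b (a :: l) = c [a] * b (a :: l) := rfl

lemma cup_succ (n : ℕ) (c b : List X → k) (a : X) (l : List X) :
    cup (n + 1) c b (a :: l) = cup n (fun l' => c (a :: l')) b l := rfl

lemma cup_of_short {n : ℕ} {c b : List X → k} {l : List X} (h : l.length ≤ n) : cup n c b l = 0 := by
  induction n generalizing c l with
  | zero => rw [List.length_eq_zero_iff.1 (Nat.le_zero.1 h), cup_nil]
  | succ n ih =>
    rcases l with _ | ⟨a, l⟩
    · exact cup_nil _ _ _
    · rw [cup_succ]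
      exact ih (by simpa using h)

/-- the explicit formula -/
lemma cup_eq {n : ℕ} {c b : List X → k} {l : List X} (h : n < l.length) :
    cup n c b l = c (l.take (n + 1)) * b (l.drop n) := by
  induction n generalizing c l with
  | zero =>
    rcases l with _ | ⟨a, l⟩
    · simp at h
    · rfl
  | succ n ih =>
    rcases l with _ | ⟨a, l⟩
    · simp at h
    · rw [cup_succ, ih (by simpa using h), List.take_succ_cons, List.drop_succ_cons]

lemma cup_sub_left (n : ℕ) (c c' b : List X → k) (l : List X) :
    cup n (fun l' => c l' - c' l') b l = cup n c b l - cup n c' b l := by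
  rcases Nat.lt_or_ge n l.length with h | h
  · rw [cup_eq h, cup_eq h, cup_eq h, sub_mul]
  · rw [cup_of_short h, cup_of_short h, cup_of_short h, sub_zero]

lemma cup_add_right (n : ℕ) (c b b' : List X → k) (l : List X) :
    cup n c (fun l' => b l' + b' l') l = cup n c b l + cup n c b' l := by
  rcases Nat.lt_or_ge n l.length with h | h
  · rw [cup_eq h, cup_eq h, cup_eq h, mul_add]
  · rw [cup_of_short h, cup_of_short h, cup_of_short h, add_zero]

lemma cup_mul_right (n : ℕ) (c b : List X → k) (t : k) (l : List X) :
    cup n c (fun l' => t * b l') l = t * cup n c b l := by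
  rcases Nat.lt_or_ge n l.length with h | h
  · rw [cup_eq h, cup_eq h, mul_left_comm]
  · rw [cup_of_short h, cup_of_short h, mul_zero]

/-- **The Leibniz rule**, for lists of length at least `n + 2`. -/
theorem dl_cup (n : ℕ) (c b : List X → k) {l : List X} (h : n + 2 ≤ l.length) :
    dl (cup n c b) l = cup (n + 1) (dl c) b l + (-1) ^ n * cup n c (dl b) l := by
  induction n generalizing c l with
  | zero =>
    obtain ⟨a, l, rfl⟩ := List.exists_cons_of_length_pos (by omega : 0 < l.length)
    obtain ⟨a', l, rfl⟩ := List.exists_cons_of_length_pos (by simp at h; omega : 0 < l.length)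
    rw [dl_cons, cup_zero, cup_succ, cup_zero, pow_zero, one_mul]
    have h1 : (fun l' => cup 0 c b (a :: l')) = fun l' => c [a] * b (a :: l') := rfl
    have h2 : dl c [a, a'] = c [a'] - c [a] := by
      rw [dl_cons, dl_cons, dl_nil, sub_zero]
    rw [h1, dl_mul, h2, cup_zero, dl_cons b a]
    ring
  | succ n ih =>
    obtain ⟨a, l, rfl⟩ := List.exists_cons_of_length_pos (by omega : 0 < l.length)
    rw [dl_cons, cup_succ, cup_succ]
    have h1 : (fun l' => cup (n + 1) c b (a :: l')) = cup n (fun l' => c (a :: l')) b := by
      funext l'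
      exact cup_succ n c b a l'
    have h2 : (fun l' => dl c (a :: l')) = fun l' => c l' - dl (fun l'' => c (a :: l'')) l' := rfl
    rw [h1, ih (fun l' => c (a :: l')) (by simpa using h), h2, cup_sub_left, pow_succ]
    ring

/-- the Leibniz rule for lists of length `n + 1` -/
theorem dl_cup_of_length (n : ℕ) (c b : List X → k) {l : List X} (h : l.length = n + 1) : dl (cup n c b) l = 0 := by
  have h1 : dl (cup n c b) l = dl (fun _ => 0) l := dl_congr fun j hj => by
    apply cup_of_short
    rw [List.length_eraseIdx_of_lt hj]
    omega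
  rw [h1, dl_zero]

end cup

section total
variable {k : Type*} [Field k] {r D : ℕ} {Vx Z : Type*} (S : Sys k r D Vx)

/-- the total cochain: `E z x = c [z₀, .., z_n] * beta [lab z_n, .., lab z_q] x` -/
noncomputable def Etot (n : ℕ) (c : List Z → k) (lab : Z → Vx) (z : List Z) (x : List (Fin r → k)) : k :=
  cup n c (fun z' => S.beta (z'.map lab) x) z

/-- **The total identity.** If `c` is closed and the labels of the last part of `z` are consistent, unless `c` is zero
at the first part of `z`, then for lists `z` of length at least `n + 2` the two coboundaries of the total cochain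
agree up to sign. -/
theorem Etot_dl {n : ℕ} {c : List Z → k} {lab : Z → Vx} {z : List Z} (hc : dl c (z.take (n + 2)) = 0)
    (hz : c (z.take (n + 1)) ≠ 0 → S.Cons ((z.drop n).map lab)) (hlen : n + 2 ≤ z.length) (x : List (Fin r → k)) :
    dl (fun z' => Etot S n c lab z' x) z = (-1) ^ z.length * dl (Etot S n c lab z) x := by
  have h1 : (fun z' => Etot S n c lab z' x) = cup n c (fun z' => S.beta (z'.map lab) x) := rfl
  have h3 : cup (n + 1) (dl c) (fun z' => S.beta (z'.map lab) x) z = 0 := by
    rw [cup_eq (by omega), hc, zero_mul]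
  rw [h1, dl_cup n c _ hlen, h3, zero_add, cup_eq (by omega)]
  -- the coboundary in the labels
  have h4 : dl (fun z' => S.beta (z'.map lab) x) (z.drop n) = dl (fun s => S.beta s x) ((z.drop n).map lab) :=
    dl_pull lab (fun s => S.beta s x) (z.drop n)
  have h6 : dl (Etot S n c lab z) x = c (z.take (n + 1)) * dl (S.beta ((z.drop n).map lab)) x := by
    rw [← dl_mul]
    congr 1
    funext x'
    unfold Etot
    rw [cup_eq (by omega)]
  have h7 : ((-1 : k)) ^ z.length = (-1) ^ n * (-1) ^ (z.drop n).length := by
    rw [← pow_add, List.length_drop]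
    congr 1
    omega
  rw [h4, h6]
  by_cases hc0 : c (z.take (n + 1)) = 0
  · rw [hc0, zero_mul, zero_mul, mul_zero, mul_zero]
  have h5 := S.dl_beta (hz hc0) x
  rw [h5, List.length_map, h7]
  have h8 : ((-1 : k) ^ (z.drop n).length) * (-1) ^ (z.drop n).length = 1 := by
    rw [← pow_add, ← two_mul, pow_mul, neg_one_sq, one_pow]
  linear_combination (-(-1 : k) ^ n * c (z.take (n + 1)) * dl (fun s => S.beta s x) ((z.drop n).map lab)) * h8

/-- at the lists of length `n + 1` the coboundary in the group variables is the volume -/
theorem Etot_dl_bottom {n : ℕ} {c : List Z → k} {lab : Z → Vx} {z : List Z} (hlen : z.length = n + 1)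
    (x : List (Fin r → k)) : dl (Etot S n c lab z) x = - (c z * vol x) := by
  have h6 : dl (Etot S n c lab z) x = c (z.take (n + 1)) * dl (S.beta ((z.drop n).map lab)) x := by
    rw [← dl_mul]
    congr 1
    funext x'
    unfold Etot
    rw [cup_eq (by omega)]
  have h1 : (z.drop n).length = 1 := by
    rw [List.length_drop]
    omega
  obtain ⟨a, ha⟩ := List.length_eq_one_iff.1 h1
  have h2 : S.Cons ([a].map lab) := List.pairwise_singleton _ _
  have h3 := S.dl_beta h2 x
  rw [h6, ha, h3, List.take_of_length_le (by omega), List.map_singleton, List.length_singleton, pow_one, dl_cons, dl_nil,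
    sub_zero, Sys.beta_nil]
  ring

end total

end Pool.Agent.TF
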