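import Pool.Agent.TF.Cong

/-!
# Closed subgroups which are onto modulo `p` (row D of the project TF)

A closed subgroup of `CM p N m`, `1 ≤ m`, whose reduction modulo `p` is everything is the whole group.
-/

set_option autoImplicit false

open Matrix Topology Filter

namespace Pool.Agent.TF

variable {p : ℕ} [hp : Fact p.Prime] {N m : ℕ}

/-- powers in the congruence group -/
lemma pow_mat (X : CM p N m) (n : ℕ) : ∃ W : Matrix (Fin N) (Fin N) ℤ_[p],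
    (X ^ n).mat = (n : ℤ_[p]) • X.mat + (p : ℤ_[p]) ^ (m + 1) • (X.mat * X.mat * W) := by
  induction n with
  | zero => exact ⟨0, by rw [pow_zero, one_mat, Nat.cast_zero, zero_smul, mul_zero, smul_zero, add_zero]⟩
  | succ n ih =>
    obtain ⟨W, hW⟩ := ih
    have hc : X ^ (n + 1) = X * X ^ n := pow_succ' X n
    refine ⟨W + (n : ℤ_[p]) • 1 + (p : ℤ_[p]) ^ (m + 1) • (X.mat * W), ?_⟩
    rw [hc, mul_mat, hW]
    have e1 : X.mat * ((n : ℤ_[p]) • X.mat + (p : ℤ_[p]) ^ (m + 1) • (X.mat * X.mat * W)) =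
        X.mat * X.mat * ((n : ℤ_[p]) • 1 + (p : ℤ_[p]) ^ (m + 1) • (X.mat * W)) := by
      rw [mul_add, mul_add, Matrix.mul_smul, Matrix.mul_smul, Matrix.mul_smul, Matrix.mul_smul, mul_one]
      congr 2
      simp only [Matrix.mul_assoc]
    rw [e1]
    have e2 : ((n + 1 : ℕ) : ℤ_[p]) • X.mat = (n : ℤ_[p]) • X.mat + X.mat := by
      rw [Nat.cast_succ, add_smul, one_smul]
    rw [e2, add_assoc W, mul_add (X.mat * X.mat) W, smul_add]
    abel

/-- the `p`-th power of `p ^ i A` -/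
lemma pow_p_mat (hm : 1 ≤ m) (X : CM p N m) {i : ℕ} {A : Matrix (Fin N) (Fin N) ℤ_[p]} (hX : X.mat = (p : ℤ_[p]) ^ i • A) :
    ∃ R : Matrix (Fin N) (Fin N) ℤ_[p], (X ^ p).mat = (p : ℤ_[p]) ^ (i + 1) • A + (p : ℤ_[p]) ^ (i + 2) • R := by
  obtain ⟨W, hW⟩ := pow_mat X p
  obtain ⟨m', rfl⟩ : ∃ m', m = m' + 1 := ⟨m - 1, by omega⟩
  refine ⟨(p : ℤ_[p]) ^ (m' + i) • (A * A * W), ?_⟩
  rw [hW, hX]
  congr 1
  · rw [smul_smul]
    congr 1
    ring
  · rw [Matrix.smul_mul, Matrix.mul_smul, Matrix.smul_mul, Matrix.smul_mul, smul_smul, smul_smul, smul_smul]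
    congr 1
    ring

lemma exists_pow_mem (hm : 1 ≤ m) {T : Subgroup (CM p N m)} {Y : CM p N m} (hY : Y ∈ T) (i : ℕ) :
    ∃ Z ∈ T, ∃ R : Matrix (Fin N) (Fin N) ℤ_[p], Z.mat = (p : ℤ_[p]) ^ i • Y.mat + (p : ℤ_[p]) ^ (i + 1) • R := by
  induction i with
  | zero => exact ⟨Y, hY, 0, by rw [pow_zero, one_smul, smul_zero, add_zero]⟩
  | succ i ih =>
    obtain ⟨Z, hZ, R, hR⟩ := ih
    have h1 : Z.mat = (p : ℤ_[p]) ^ i • (Y.mat + (p : ℤ_[p]) • R) := by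
      rw [hR, smul_add, smul_smul, pow_succ]
    obtain ⟨R', hR'⟩ := pow_p_mat hm Z h1
    refine ⟨Z ^ p, pow_mem hZ p, R + R', ?_⟩
    rw [hR', smul_add, smul_add, smul_smul, ← pow_succ, add_assoc]

/-- approximation -/
lemma exists_approx (hm : 1 ≤ m) {T : Subgroup (CM p N m)} (hT : ∀ V : Matrix (Fin N) (Fin N) (ZMod p), ∃ X ∈ T, redM X = V)
    (W : CM p N m) (i : ℕ) : ∃ Z ∈ T, ∃ U : Matrix (Fin N) (Fin N) ℤ_[p], W.mat = Z.mat + (p : ℤ_[p]) ^ i • U := by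
  induction i with
  | zero => exact ⟨1, one_mem T, W.mat, by rw [one_mat, pow_zero, one_smul, zero_add]⟩
  | succ i ih =>
    obtain ⟨Z, hZ, U, hU⟩ := ih
    obtain ⟨Y₀, hY₀, hr⟩ := hT (redM (⟨U⟩ : CM p N m))
    obtain ⟨Q, hQ⟩ := exists_of_redM_eq hr.symm
    obtain ⟨Y, hY, R, hR⟩ := exists_pow_mem hm hY₀ i
    have hQ' : U = Y₀.mat + (p : ℤ_[p]) • Q := hQ
    refine ⟨Z * Y, mul_mem hZ hY, Q - R - (p : ℤ_[p]) ^ m • (Z.mat * (Y₀.mat + (p : ℤ_[p]) • R)), ?_⟩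
    have hY' : Y.mat = (p : ℤ_[p]) ^ i • (Y₀.mat + (p : ℤ_[p]) • R) := by
      rw [hR, smul_add, smul_smul, pow_succ]
    rw [mul_mat, hU, hQ', hY', Matrix.mul_smul]
    simp only [smul_add, smul_sub, smul_smul, mul_add, Matrix.mul_smul]
    have e1 : (p : ℤ_[p]) ^ (m + 1) * (p : ℤ_[p]) ^ i = (p : ℤ_[p]) ^ (i + 1) * (p : ℤ_[p]) ^ m := by ring
    have e2 : (p : ℤ_[p]) ^ (m + 1) * ((p : ℤ_[p]) ^ i * (p : ℤ_[p])) = (p : ℤ_[p]) ^ (i + 1) * ((p : ℤ_[p]) ^ m * (p : ℤ_[p])) := by ring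
    rw [e2, e1, pow_succ (p : ℤ_[p]) i]
    abel

/-- a closed subgroup which is onto modulo `p` is everything -/
theorem eq_top_of_closed (hm : 1 ≤ m) {T : Subgroup (CM p N m)} (hcl : IsClosed (T : Set (CM p N m)))
    (hT : ∀ V : Matrix (Fin N) (Fin N) (ZMod p), ∃ X ∈ T, redM X = V) : T = ⊤ := by
  rw [Subgroup.eq_top_iff']
  intro W
  choose Z hZ U hU using exists_approx hm hT W
  have hlim : Tendsto Z atTop (𝓝 W) := by
    rw [(matH (p := p) (N := N) (j := m)).isInducing.tendsto_nhds_iff]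
    rw [tendsto_pi_nhds]
    intro a
    rw [tendsto_pi_nhds]
    intro b
    have h1 : ∀ i, (Z i).mat a b = W.mat a b - (p : ℤ_[p]) ^ i * U i a b := by
      intro i
      rw [hU i, Matrix.add_apply, Matrix.smul_apply, smul_eq_mul, add_sub_cancel_right]
    show Tendsto (fun i => (Z i).mat a b) atTop (𝓝 (W.mat a b))
    simp only [h1]
    have h2 : Tendsto (fun i => (p : ℤ_[p]) ^ i * U i a b) atTop (𝓝 0) := by
      rw [tendsto_zero_iff_norm_tendsto_zero]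
      refine squeeze_zero (fun i => norm_nonneg _) (fun i => ?_)
        (tendsto_pow_atTop_nhds_zero_of_lt_one (r := ‖(p : ℤ_[p])‖) (norm_nonneg _)
        (by rw [PadicInt.norm_p]; exact inv_lt_one_of_one_lt₀ (by exact_mod_cast hp.out.one_lt)))
      rw [norm_mul, norm_pow]
      exact mul_le_of_le_one_right (pow_nonneg (norm_nonneg _) _) (PadicInt.norm_le_one _)
    have h3 := (tendsto_const_nhds (x := W.mat a b)).sub h2
    rwa [sub_zero] at h3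
  exact hcl.mem_of_tendsto hlim (Eventually.of_forall hZ)

end Pool.Agent.TF
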