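import Mathlib

/-!
# Gabidulin vectors

`k` is a field extension of `ZMod p`, `α : Fin r → k` linearly independent over `ZMod p`. The vectors
`gw α j = (α a ^ p ^ j)_a`, `j ≤ D`, are independent modulo the span of every rational subspace of codimension larger
than `D`.
-/

set_option autoImplicit false

open Module Polynomial

namespace Pool.Agent.TF

variable {p : ℕ} [hp : Fact p.Prime] {k : Type*} [Field k] [Algebra (ZMod p) k] {r : ℕ}

variable (k) in
/-- the inclusion of the rational vectors -/
def inc (v : Fin r → ZMod p) : Fin r → k := fun a => algebraMap (ZMod p) k (v a)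

variable (k) in
/-- the extension of a rational functional -/
noncomputable def exf (l : Dual (ZMod p) (Fin r → ZMod p)) : (Fin r → k) →ₗ[k] k :=
  ∑ a, algebraMap (ZMod p) k (l (Pi.single a 1)) • LinearMap.proj a

lemma exf_apply (l : Dual (ZMod p) (Fin r → ZMod p)) (x : Fin r → k) :
    exf k l x = ∑ a, algebraMap (ZMod p) k (l (Pi.single a 1)) * x a := by
  simp [exf, LinearMap.sum_apply, Algebra.smul_def]

lemma exf_inc (l : Dual (ZMod p) (Fin r → ZMod p)) (v : Fin r → ZMod p) :
    exf k l (inc k v) = algebraMap (ZMod p) k (l v) := by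
  rw [exf_apply]
  have h1 : l v = ∑ a, l (Pi.single a 1) * v a := by
    conv_lhs => rw [← LinearMap.sum_single_apply (φ := fun _ : Fin r => ZMod p) (v := v)]
    rw [map_sum]
    refine Finset.sum_congr rfl fun a _ => ?_
    have h2 : (Pi.single a (v a) : Fin r → ZMod p) = v a • Pi.single a 1 := by
      rw [← Pi.single_smul, smul_eq_mul, mul_one]
    rw [h2, map_smul, smul_eq_mul, mul_comm]
  rw [h1, map_sum]
  refine Finset.sum_congr rfl fun a _ => ?_
  rw [map_mul]
  rfl

/-- the Gabidulin vectors -/
def gw (p : ℕ) {k : Type*} [Field k] {r : ℕ} (α : Fin r → k) (j : ℕ) : Fin r → k := fun a => α a ^ p ^ j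

omit hp in
variable (k) in
include hp in
lemma charP_k : CharP k p := charP_of_injective_algebraMap (algebraMap (ZMod p) k).injective p

lemma exf_gw (l : Dual (ZMod p) (Fin r → ZMod p)) (α : Fin r → k) (j : ℕ) :
    exf k l (gw p α j) = (exf k l α) ^ p ^ j := by
  have := charP_k (p := p) k
  rw [exf_apply, exf_apply, sum_pow_char_pow]
  refine Finset.sum_congr rfl fun a _ => ?_
  rw [mul_pow, ← map_pow, ZMod.pow_card_pow]
  rfl

lemma exf_injective {α : Fin r → k} (hα : LinearIndependent (ZMod p) α) {l l' : Dual (ZMod p) (Fin r → ZMod p)}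
    (h : exf k l α = exf k l' α) : l = l' := by
  rw [exf_apply, exf_apply, ← sub_eq_zero, ← Finset.sum_sub_distrib] at h
  have h1 : ∑ a, (l (Pi.single a 1) - l' (Pi.single a 1)) • α a = 0 := by
    rw [← h]
    refine Finset.sum_congr rfl fun a _ => ?_
    rw [Algebra.smul_def, map_sub, sub_mul]
  have h2 := Fintype.linearIndependent_iff.1 hα _ h1
  apply LinearMap.pi_ext'
  intro a
  apply LinearMap.ext_ring
  exact sub_eq_zero.1 (h2 a)

/-- **Gabidulin.** A linear combination of the first `D + 1` vectors that is in the span of a rational subspace of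
codimension at least `D + 1` is trivial. -/
theorem gabidulin {α : Fin r → k} (hα : LinearIndependent (ZMod p) α) {D : ℕ}
    {V : Submodule (ZMod p) (Fin r → ZMod p)} (hV : finrank (ZMod p) V + (D + 1) ≤ r) {c : Fin (D + 1) → k}
    (h : ∑ j : Fin (D + 1), c j • gw p α j ∈ Submodule.span k (inc k '' (V : Set (Fin r → ZMod p)))) : c = 0 := by
  classical
  have hp1 := hp.out.one_lt
  -- the polynomial
  set f : k[X] := ∑ j : Fin (D + 1), C (c j) * X ^ p ^ (j : ℕ) with hf
  have hdeg : f.natDegree ≤ p ^ D := by
    refine natDegree_sum_le_of_forall_le _ _ fun j _ => ?_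
    refine (natDegree_C_mul_X_pow_le _ _).trans (Nat.pow_le_pow_right hp.out.pos (Nat.lt_succ_iff.1 j.2))
  have hroot : ∀ l ∈ V.dualAnnihilator, f.eval (exf k l α) = 0 := by
    intro l hl
    have h1 : ∀ x ∈ Submodule.span k (inc k '' (V : Set (Fin r → ZMod p))), exf k l x = 0 := by
      intro x hx
      have h2 : Submodule.span k (inc k '' (V : Set (Fin r → ZMod p))) ≤ LinearMap.ker (exf k l) := by
        rw [Submodule.span_le]
        rintro _ ⟨v, hv, rfl⟩
        show exf k l (inc k v) = 0
        rw [exf_inc, (Submodule.mem_dualAnnihilator l).1 hl v hv, map_zero]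
      exact h2 hx
    have h3 := h1 _ h
    rw [map_sum] at h3
    rw [hf, eval_finsetSum, ← h3]
    refine Finset.sum_congr rfl fun j _ => ?_
    rw [map_smul, exf_gw, smul_eq_mul, eval_mul, eval_C, eval_pow, eval_X]
  have : Finite (Dual (ZMod p) (Fin r → ZMod p)) := Module.finite_of_finite (ZMod p)
  have : Fintype (V.dualAnnihilator) := Fintype.ofFinite _
  set s : Finset k := Finset.univ.image fun l : V.dualAnnihilator => exf k l.1 α with hs
  have hcard : s.card = p ^ finrank (ZMod p) V.dualAnnihilator := by
    rw [hs, Finset.card_image_of_injective, Finset.card_univ, ← Nat.card_eq_fintype_card,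
      Module.natCard_eq_pow_finrank (K := ZMod p), Nat.card_zmod]
    intro l l' h
    exact Subtype.ext (exf_injective hα h)
  have hfr : D + 1 ≤ finrank (ZMod p) V.dualAnnihilator := by
    have h1 := Subspace.finrank_add_finrank_dualAnnihilator_eq V
    rw [finrank_fintype_fun_eq_card, Fintype.card_fin] at h1
    omega
  have hf0 : f = 0 := by
    apply Polynomial.eq_zero_of_natDegree_lt_card_of_eval_eq_zero' f s
    · intro x hx
      obtain ⟨l, -, rfl⟩ := Finset.mem_image.1 hx
      exact hroot l.1 l.2
    · rw [hcard]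
      exact hdeg.trans_lt (Nat.pow_lt_pow_right hp1 hfr)
  funext i
  have h4 := congrArg (fun g : k[X] => g.coeff (p ^ (i : ℕ))) hf0
  simp only [hf, finsetSum_coeff, coeff_C_mul, coeff_X_pow, coeff_zero, mul_ite, mul_one, mul_zero] at h4
  rw [Finset.sum_eq_single i] at h4
  · rw [if_pos rfl] at h4
    exact h4
  · intro j _ hj
    rw [if_neg]
    intro h5
    exact hj (Fin.ext (Nat.pow_right_injective hp.out.two_le h5.symm))
  · intro h5
    exact absurd (Finset.mem_univ i) h5

/-- **Dual functionals.** For every rational subspace `V` of codimension at least `D + 1` there are functionals that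
vanish on `V` and are dual to the Gabidulin vectors. -/
theorem exists_xi {α : Fin r → k} (hα : LinearIndependent (ZMod p) α) {D : ℕ}
    {V : Submodule (ZMod p) (Fin r → ZMod p)} (hV : finrank (ZMod p) V + (D + 1) ≤ r) (i : Fin (D + 1)) :
    ∃ ξ : (Fin r → k) →ₗ[k] k, (∀ v ∈ V, ξ (inc k v) = 0) ∧
      ∀ j : Fin (D + 1), ξ (gw p α j) = if j = i then 1 else 0 := by
  classical
  set S := Submodule.span k (inc k '' (V : Set (Fin r → ZMod p))) with hS
  have hli : LinearIndependent k (fun j : Fin (D + 1) => S.mkQ (gw p α j)) := by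
    rw [Fintype.linearIndependent_iff]
    intro g hg
    have h1 : S.mkQ (∑ j : Fin (D + 1), g j • gw p α j) = 0 := by
      rw [map_sum, ← hg]
      exact Finset.sum_congr rfl fun j _ => map_smul _ _ _
    rw [Submodule.mkQ_apply, Submodule.Quotient.mk_eq_zero] at h1
    have h2 := gabidulin hα hV h1
    intro j
    rw [h2]
    rfl
  obtain ⟨g, hg⟩ := LinearMap.exists_extend ((Basis.span hli).coord i)
  refine ⟨g ∘ₗ S.mkQ, fun v hv => ?_, fun j => ?_⟩
  · have h1 : S.mkQ (inc k v) = 0 := by
      rw [Submodule.mkQ_apply, Submodule.Quotient.mk_eq_zero]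
      exact Submodule.subset_span ⟨v, hv, rfl⟩
    rw [LinearMap.comp_apply, h1, map_zero]
  · have h1 : S.mkQ (gw p α j) = (Submodule.subtype _) (Basis.span hli j) := by
      rw [Submodule.subtype_apply, Basis.span_apply]
    rw [LinearMap.comp_apply, h1, ← LinearMap.comp_apply, hg, Basis.coord_apply, Basis.repr_self,
      Finsupp.single_apply]

/-- Gabidulin vectors exist -/
theorem exists_alpha (hr : r ≠ 0) : ∃ α : Fin r → GaloisField p r, LinearIndependent (ZMod p) α := by
  have h1 := GaloisField.finrank p hr
  exact ⟨_, (finBasisOfFinrankEq (ZMod p) (GaloisField p r) h1).linearIndependent⟩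

end Pool.Agent.TF
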