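import Pool.Agent.TF.GamGD

/-!
# The congruence subgroups of `SL_N(ℤ_p)`: the class modulo `p ^ n` (project F+)
-/

set_option autoImplicit false

open Matrix Topology Filter Module

namespace Pool.Agent.TF

open Pool.Agent.HSF

variable {p : ℕ} [hp : Fact p.Prime] {M r j n : ℕ}

lemma toZModPow_eq_zero {m : ℕ} {x : ℤ_[p]} : PadicInt.toZModPow m x = 0 ↔ (p : ℤ_[p]) ^ m ∣ x := by
  rw [← RingHom.mem_ker, PadicInt.ker_toZModPow, Ideal.mem_span_singleton]

lemma toZModPow_p {m l : ℕ} (h : m ≤ l) : PadicInt.toZModPow m ((p : ℤ_[p]) ^ l) = 0 :=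
  toZModPow_eq_zero.2 (pow_dvd_pow _ h)

lemma redm_smul {R : Type*} [CommRing R] (c : R) (x : Matrix (Fin (M + 1)) (Fin (M + 1)) R)
    (ij : Fin (M + 1) × Fin (M + 1)) : redm (c • x) ij = c * redm x ij := by
  unfold redm
  rw [Matrix.smul_apply, Matrix.smul_apply, smul_eq_mul, smul_eq_mul]
  split_ifs <;> ring

/-- the class modulo `p ^ n` of an element of the congruence group -/
noncomputable def chiE (n : ℕ) (e : Fin r → Fin (M + 1) × Fin (M + 1)) (g : Gam (M + 1) p (j + 1)) :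
    Fin r → ZMod (p ^ n) := fun a => PadicInt.toZModPow n (redm (qm g).mat (e a))

lemma chiE_mul (hn : n ≤ j + 1) (e : Fin r → Fin (M + 1) × Fin (M + 1)) (g h : Gam (M + 1) p (j + 1)) :
    chiE n e (g * h) = chiE n e g + chiE n e h := by
  funext a
  unfold chiE
  rw [qm_mul, mul_mat, redm_add, redm_add, Pi.add_apply, Pi.add_apply, Pi.add_apply, redm_smul, map_add, map_add,
    map_mul, toZModPow_p hn, zero_mul, add_zero]

lemma qm_of_mem {d : ℕ} {g : Gam (M + 1) p (j + 1)} (hg : g.1 ∈ Gam (M + 1) p (j + 1 + d)) :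
    ∃ Z : Matrix (Fin (M + 1)) (Fin (M + 1)) ℤ_[p], (qm g).mat = (p : ℤ_[p]) ^ d • Z := by
  obtain ⟨Z, hZ⟩ := mem_Gam_iff.1 hg
  refine ⟨Z, ?_⟩
  have h1 : qm g = (⟨(p : ℤ_[p]) ^ d • Z⟩ : CM p (M + 1) j) := by
    apply up_injective
    rw [up_qm, hZ, pow_add, mul_smul]
    rfl
  rw [h1]

lemma chiE_eq_zero (e : Fin r → Fin (M + 1) × Fin (M + 1)) {g : Gam (M + 1) p (j + 1)}
    (hg : g.1 ∈ Gam (M + 1) p (j + 1 + n)) : chiE n e g = 0 := by
  obtain ⟨Z, hZ⟩ := qm_of_mem hg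
  funext a
  unfold chiE
  rw [hZ, redm_smul, map_mul, toZModPow_p le_rfl, zero_mul]
  rfl

lemma chiE_iota (hn : n ≤ j + 1) (hN : ¬ p ∣ M + 1) (e : Fin r → Fin (M + 1) × Fin (M + 1))
    (x : Matrix (Fin (M + 1)) (Fin (M + 1)) ℤ) (a : Fin r) :
    chiE n e (iota hN j x) a = ((redm x (e a) : ℤ) : ZMod (p ^ n)) := by
  unfold iota chiE
  obtain ⟨w, hw⟩ := psi_mem_Gam hN (⟨x.map (Int.cast : ℤ → ℤ_[p])⟩ : CM p (M + 1) j)
  have h1 : qm (psiG hN (le_refl (j + 1)) (⟨x.map (Int.cast : ℤ → ℤ_[p])⟩ : CM p (M + 1) j)) =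
      ⟨x.map (Int.cast : ℤ → ℤ_[p]) + w • 1 + (p : ℤ_[p]) • (((p : ℤ_[p]) ^ j * w) • x.map (Int.cast : ℤ → ℤ_[p]))⟩ := by
    apply up_injective
    rw [up_qm]
    exact hw
  rw [h1]
  show PadicInt.toZModPow n (redm (x.map (Int.cast : ℤ → ℤ_[p]) + w • 1 +
    (p : ℤ_[p]) • (((p : ℤ_[p]) ^ j * w) • x.map (Int.cast : ℤ → ℤ_[p]))) (e a)) = _
  rw [redm_add, redm_add, Pi.add_apply, Pi.add_apply, redm_scalar, Pi.zero_apply, add_zero, smul_smul, redm_smul,
    map_add, map_mul]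
  have h2 : PadicInt.toZModPow n ((p : ℤ_[p]) * ((p : ℤ_[p]) ^ j * w)) = 0 := by
    rw [← mul_assoc, ← pow_succ', map_mul, toZModPow_p hn, zero_mul]
  rw [h2, zero_mul, add_zero]
  have h3 : redm (x.map (Int.cast : ℤ → ℤ_[p])) (e a) = ((redm x (e a) : ℤ) : ℤ_[p]) := by
    unfold redm
    rw [Matrix.map_apply, Matrix.map_apply]
    split_ifs <;> push_cast <;> rfl
  rw [h3, map_intCast]

/-- the socle: an element whose class is divisible by `p ^ n` lies in the congruence group of level `j + 1 + n` -/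
lemma socle (hN : ¬ p ∣ M + 1) {e : Fin r → Fin (M + 1) × Fin (M + 1)}
    (he : ∀ ij, ij ≠ (Fin.last M, Fin.last M) → ∃ a, e a = ij) {g : Gam (M + 1) p (j + 1)} {x : Fin r → ℤ}
    (hx : ∀ a, chiE (n + 1) e g a = (((p : ℤ) ^ n * x a : ℤ) : ZMod (p ^ (n + 1)))) :
    ∃ h : g.1 ∈ Gam (M + 1) p (j + n + 1), ∀ a, chi e (⟨g.1, h⟩ : Gam (M + 1) p (j + n + 1)) a = ((x a : ℤ) : ZMod p) := by
  set X : Matrix (Fin (M + 1)) (Fin (M + 1)) ℤ_[p] := (qm g).mat with hX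
  set c : ℤ_[p] := X (Fin.last M) (Fin.last M) with hc
  have h1 : ∀ a, ∃ t : ℤ_[p], redm X (e a) = (p : ℤ_[p]) ^ n * ((x a : ℤ) + (p : ℤ_[p]) * t) := by
    intro a
    have h2 := hx a
    unfold chiE at h2
    rw [← hX, ← map_intCast (PadicInt.toZModPow (n + 1) : ℤ_[p] →+* ZMod (p ^ (n + 1))), ← sub_eq_zero, ← map_sub,
      toZModPow_eq_zero] at h2
    obtain ⟨t, ht⟩ := h2
    refine ⟨t, ?_⟩
    rw [sub_eq_iff_eq_add.1 ht]
    push_cast
    ring
  choose t ht using h1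
  have h3 : ∀ ij : Fin (M + 1) × Fin (M + 1), ∃ y : ℤ_[p], redm X ij = (p : ℤ_[p]) ^ n * y := by
    intro ij
    by_cases h : ij = (Fin.last M, Fin.last M)
    · refine ⟨0, ?_⟩
      rw [h, mul_zero]
      unfold redm
      rw [if_pos rfl, sub_self]
    · obtain ⟨a, ha⟩ := he ij h
      exact ⟨_, ha ▸ ht a⟩
  choose y hy using h3
  have h4 : X = c • 1 + (p : ℤ_[p]) ^ n • Matrix.of (fun a b => y (a, b)) := by
    ext a b
    rw [Matrix.add_apply, Matrix.smul_apply, Matrix.smul_apply, of_apply, smul_eq_mul, smul_eq_mul, ← hy (a, b)]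
    unfold redm
    by_cases hab : a = b
    · subst hab
      rw [one_apply_eq, if_pos rfl]
      ring
    · rw [one_apply_ne hab]
      simp only [hab, if_false]
      ring
  have h5 : (p : ℤ_[p]) ^ n ∣ c := by
    have e1 : (1 + (p : ℤ_[p]) ^ (j + 1) • X).det = 1 := by
      have h6 := up_qm g
      have h7 : (up (qm g)).det = 1 := by rw [h6]; exact g.1.2
      exact h7
    have e2 : (PadicInt.toZModPow (j + 1 + n) : ℤ_[p] →+* ZMod (p ^ (j + 1 + n))).mapMatrix (1 + (p : ℤ_[p]) ^ (j + 1) • X) =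
        (PadicInt.toZModPow (j + 1 + n) : ℤ_[p] →+* ZMod (p ^ (j + 1 + n))).mapMatrix
          ((1 + (p : ℤ_[p]) ^ (j + 1) * c) • (1 : Matrix (Fin (M + 1)) (Fin (M + 1)) ℤ_[p])) := by
      ext a b
      rw [RingHom.mapMatrix_apply, RingHom.mapMatrix_apply, map_apply, map_apply, ← sub_eq_zero, ← map_sub,
        toZModPow_eq_zero, h4]
      refine ⟨y (a, b), ?_⟩
      simp only [Matrix.add_apply, Matrix.smul_apply, of_apply, smul_eq_mul]
      ring
    have e3 := congrArg Matrix.det e2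
    rw [← RingHom.map_det, ← RingHom.map_det, e1, det_smul, det_one, mul_one, Fintype.card_fin, ← sub_eq_zero, ← map_sub,
      toZModPow_eq_zero, dvd_pow_iff_norm, norm_sub_rev] at e3
    have e4 : ‖(1 + (p : ℤ_[p]) ^ (j + 1) * c) ^ (M + 1) - 1 ^ (M + 1)‖ ≤ (p : ℝ) ^ (-((j + 1 + n : ℕ) : ℤ)) := by
      rw [one_pow]
      exact e3
    rw [norm_pow_sub hN, add_sub_cancel_left, ← dvd_pow_iff_norm, pow_add] at e4
    · exact (mul_dvd_mul_iff_left (pow_ne (j + 1))).1 e4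
    · rw [near_iff, map_add, map_mul, toZMod_p_pow, zero_mul, add_zero, map_one]
    · rw [sub_self, norm_zero]; exact one_pos
  obtain ⟨c', hc'⟩ := h5
  have h6 : (g.1 : Matrix (Fin (M + 1)) (Fin (M + 1)) ℤ_[p]) =
      1 + (p : ℤ_[p]) ^ (j + n + 1) • (c' • 1 + Matrix.of (fun a b => y (a, b))) := by
    rw [← up_qm g]
    show 1 + (p : ℤ_[p]) ^ (j + 1) • X = _
    rw [h4, hc', mul_smul, ← smul_add, smul_smul, ← pow_add]
    congr 3
    ring
  have h7 : g.1 ∈ Gam (M + 1) p (j + n + 1) := mem_Gam_iff.2 ⟨_, h6⟩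
  refine ⟨h7, fun a => ?_⟩
  have h8 : qm (⟨g.1, h7⟩ : Gam (M + 1) p (j + n + 1)) = ⟨c' • 1 + Matrix.of (fun a b => y (a, b))⟩ := by
    apply up_injective
    rw [up_qm]
    exact h6
  have h9 : y (e a) = (x a : ℤ) + (p : ℤ_[p]) * t a :=
    mul_left_cancel₀ (pow_ne n) ((hy (e a)).symm.trans (ht a))
  have h10 : redm (c' • 1 + Matrix.of (fun a b => y (a, b)) : Matrix (Fin (M + 1)) (Fin (M + 1)) ℤ_[p]) (e a) = y (e a) := by
    have h11 : (p : ℤ_[p]) ^ n * redm (c' • 1 + Matrix.of (fun a b => y (a, b)) : Matrix (Fin (M + 1)) (Fin (M + 1)) ℤ_[p]) (e a) =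
        (p : ℤ_[p]) ^ n * y (e a) := by
      rw [← redm_smul, smul_add, smul_smul, ← hc', ← h4, hy]
    exact mul_left_cancel₀ (pow_ne n) h11
  unfold chi
  rw [h8, rdl_apply]
  have h12 : redm (redM (⟨c' • 1 + Matrix.of (fun a b => y (a, b))⟩ : CM p (M + 1) (j + n))) (e a) =
      PadicInt.toZMod (redm (c' • 1 + Matrix.of (fun a b => y (a, b)) : Matrix (Fin (M + 1)) (Fin (M + 1)) ℤ_[p]) (e a)) := by
    unfold redm
    rw [redM_apply, redM_apply]
    split_ifs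
    · rw [map_sub]
    · rw [map_sub, map_zero]
  rw [h12, h10, h9, map_add, map_mul, map_natCast, ZMod.natCast_self, zero_mul, add_zero, map_intCast]

end Pool.Agent.TF
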