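import Pool.Agent.TF.GamTop
import Pool.Agent.Helper34.TF.Perf2

/-!
# The congruence subgroups of `SL_N(ℤ_p)` (row M of Theorem F): closed subgroups

A closed subgroup of the congruence group of level `κ` whose image modulo `p` and modulo scalars has small codimension
contains the congruence group of level `2 κ`; if the image is everything the subgroup is everything.
-/

set_option autoImplicit false

open Matrix Topology Filter Module

namespace Pool.Agent.TF

open Pool.Agent.HSF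

variable {p : ℕ} [hp : Fact p.Prime] {N j : ℕ}

/-- `psi` with values in the congruence subgroup of level `κ ≤ j + 1` -/
noncomputable def psiG (hN : ¬ p ∣ N) {κ : ℕ} (hκ : κ ≤ j + 1) : CM p N j →* Gam N p κ :=
  (psi hN).codRestrict (Gam N p κ) fun X => by
    obtain ⟨w, hw⟩ := psi_mem_Gam hN X
    exact Gam_anti hκ (mem_Gam_iff.2 ⟨_, hw⟩)

lemma psiG_val (hN : ¬ p ∣ N) {κ : ℕ} (hκ : κ ≤ j + 1) (X : CM p N j) :
    (psiG hN hκ X : SpecialLinearGroup (Fin N) ℤ_[p]) = psi hN X := rfl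

lemma continuous_psiG (hN : ¬ p ∣ N) {κ : ℕ} (hκ : κ ≤ j + 1) : Continuous (psiG hN hκ : CM p N j → Gam N p κ) :=
  (continuous_psi hN).subtype_mk _

lemma qm_mul (g h : Gam N p (j + 1)) : qm (g * h) = qm g * qm h :=
  up_injective (by rw [up_mul, up_qm, up_qm, up_qm]; rfl)

lemma psiG_qm (hN : ¬ p ∣ N) (g : Gam N p (j + 1)) : psiG hN le_rfl (qm g) = g := Subtype.ext (psi_qm hN g)

lemma redM_qm_psiG (hN : ¬ p ∣ N) (X : CM p N j) :
    ∃ c : ZMod p, redM (qm (psiG hN le_rfl X)) = redM X + c • (1 : Matrix (Fin N) (Fin N) (ZMod p)) := by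
  obtain ⟨w, hw⟩ := psi_mem_Gam hN X
  refine ⟨PadicInt.toZMod w, ?_⟩
  have h1 : qm (psiG hN le_rfl X) = ⟨X.mat + w • 1 + (p : ℤ_[p]) • (((p : ℤ_[p]) ^ j * w) • X.mat)⟩ := by
    apply up_injective
    rw [up_qm]
    exact hw
  rw [h1]
  ext a b
  rw [redM_apply, Matrix.add_apply, Matrix.smul_apply, redM_apply]
  show PadicInt.toZMod ((X.mat + w • (1 : Matrix (Fin N) (Fin N) ℤ_[p]) + (p : ℤ_[p]) • (((p : ℤ_[p]) ^ j * w) • X.mat)) a b) = _
  rw [Matrix.add_apply, Matrix.add_apply, Matrix.smul_apply, Matrix.smul_apply, map_add, map_add, smul_eq_mul,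
    smul_eq_mul, smul_eq_mul, map_mul, map_mul, map_natCast, ZMod.natCast_self, zero_mul, add_zero]
  congr 2
  by_cases h : a = b
  · subst h
    rw [one_apply_eq, one_apply_eq, map_one]
  · rw [one_apply_ne h, one_apply_ne h, map_zero]

/-! ### The image modulo `p` of a subgroup -/

/-- the image modulo `p` of a subgroup -/
def imM (T : Subgroup (CM p N j)) : Submodule (ZMod p) (Matrix (Fin N) (Fin N) (ZMod p)) :=
  AddSubgroup.toZModSubmodule p
    { carrier := redM '' (T : Set (CM p N j))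
      add_mem' := by
        rintro _ _ ⟨X, hX, rfl⟩ ⟨Y, hY, rfl⟩
        exact ⟨X * Y, mul_mem hX hY, redM_mul X Y⟩
      zero_mem' := ⟨1, one_mem T, redM_one⟩
      neg_mem' := by
        rintro _ ⟨X, hX, rfl⟩
        exact ⟨X⁻¹, inv_mem hX, redM_inv X⟩ }

lemma mem_imM {T : Subgroup (CM p N j)} {v : Matrix (Fin N) (Fin N) (ZMod p)} :
    v ∈ imM T ↔ ∃ X ∈ T, redM X = v := Iff.rfl

/-! ### Commutators -/

/-- the commutator of two matrices, in the group of the double level -/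
noncomputable def comM (X Y : CM p N j) : CM p N (2 * j + 1) :=
  ⟨(X.mat * Y.mat - Y.mat * X.mat) * (up Y * up X)⁻¹⟩

lemma isUnit_det_mul (X Y : CM p N j) : IsUnit (up Y * up X).det := by
  rw [det_mul]
  exact (isUnit_det_up Y).mul (isUnit_det_up X)

lemma up_comM (X Y : CM p N j) : up (comM X Y) = up (X * Y * X⁻¹ * Y⁻¹) := by
  have hu := isUnit_det_mul X Y
  have h1 : up (X * Y * X⁻¹ * Y⁻¹) = up X * up Y * (up Y * up X)⁻¹ := by
    rw [up_mul, up_mul, up_mul, up_inv, up_inv, Matrix.mul_inv_rev, Matrix.mul_assoc (up X * up Y)]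
  have h2 : up X * up Y = up Y * up X + (p : ℤ_[p]) ^ (2 * j + 1 + 1) • (X.mat * Y.mat - Y.mat * X.mat) := by
    unfold up
    have e1 : (p : ℤ_[p]) ^ (2 * j + 1 + 1) = (p : ℤ_[p]) ^ (j + 1) * (p : ℤ_[p]) ^ (j + 1) := by ring
    rw [e1, add_mul, mul_add, mul_add, add_mul, mul_add, mul_add, one_mul, one_mul, one_mul, mul_one, mul_one,
      Matrix.smul_mul, Matrix.mul_smul, Matrix.smul_mul, Matrix.mul_smul, smul_sub, smul_smul, smul_smul]
    abel
  rw [h1, h2, add_mul, mul_nonsing_inv _ hu, Matrix.smul_mul]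
  rfl

lemma redM_comM (X Y : CM p N j) : redM (comM X Y) = redM X * redM Y - redM Y * redM X := by
  have hu := isUnit_det_mul X Y
  have h1 : (comM X Y).mat * (up Y * up X) = X.mat * Y.mat - Y.mat * X.mat := by
    show (X.mat * Y.mat - Y.mat * X.mat) * (up Y * up X)⁻¹ * (up Y * up X) = _
    rw [Matrix.mul_assoc, nonsing_inv_mul _ hu, mul_one]
  have h2 := congrArg (fun M : Matrix (Fin N) (Fin N) ℤ_[p] => M.map (PadicInt.toZMod : ℤ_[p] →+* ZMod p)) h1
  simp only [Matrix.map_mul, Matrix.map_sub _ (fun a b => map_sub (PadicInt.toZMod : ℤ_[p] →+* ZMod p) a b)] at h2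
  rw [map_up, map_up, mul_one, mul_one] at h2
  exact h2

/-- a closed subgroup with large image modulo `p` contains the congruence subgroup of the double level -/
theorem le_of_large {D : ℕ} (hN : ¬ p ∣ N) (hD : D + 1 < N) {H : Subgroup (Gam N p (j + 1))}
    (hH : IsClosed (H : Set (Gam N p (j + 1))))
    (hV : N * N ≤ finrank (ZMod p) (imM (H.comap (psiG hN (le_refl (j + 1))))) + D) {g : Gam N p (j + 1)}
    (hg : g.1 ∈ Gam N p (2 * (j + 1))) : g ∈ H := by
  have hk : j + 1 ≤ 2 * j + 1 + 1 := by omega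
  set T : Subgroup (CM p N j) := H.comap (psiG hN (le_refl (j + 1))) with hT
  set T₂ : Subgroup (CM p N (2 * j + 1)) := H.comap (psiG hN hk) with hT₂
  have hNF : (N : ZMod p) ≠ 0 := fun h => hN ((ZMod.natCast_eq_zero_iff _ _).1 h)
  have hperf := Pool.Agent.Helper34.TF.perf2 hNF hD (imM T) hV
  have hcl : IsClosed (T₂ : Set (CM p N (2 * j + 1))) := hH.preimage (continuous_psiG hN hk)
  have hle : (⊤ : Submodule (ZMod p) (Matrix (Fin N) (Fin N) (ZMod p))) ≤ imM T₂ := by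
    rw [← hperf, Submodule.span_le]
    rintro Z (⟨x, hx, y, hy, rfl⟩ | rfl)
    · obtain ⟨X, hX, rfl⟩ := mem_imM.1 hx
      obtain ⟨Y, hY, rfl⟩ := mem_imM.1 hy
      refine mem_imM.2 ⟨comM X Y, ?_, redM_comM X Y⟩
      have h1 : psiG hN hk (comM X Y) = psiG hN (le_refl (j + 1)) (X * Y * X⁻¹ * Y⁻¹) :=
        Subtype.ext (psi_congr hN (up_comM X Y))
      have h2 : X * Y * X⁻¹ * Y⁻¹ ∈ T := mul_mem (mul_mem (mul_mem hX hY) (inv_mem hX)) (inv_mem hY)
      rw [hT₂, Subgroup.mem_comap, h1]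
      exact h2
    · refine mem_imM.2 ⟨⟨(1 : ℤ_[p]) • 1⟩, ?_, ?_⟩
      · have h1 : psiG hN hk (⟨(1 : ℤ_[p]) • 1⟩ : CM p N (2 * j + 1)) = 1 := Subtype.ext (psi_scalar hN 1)
        rw [hT₂, Subgroup.mem_comap, h1]
        exact one_mem H
      · ext a b
        rw [redM_apply]
        show PadicInt.toZMod (((1 : ℤ_[p]) • (1 : Matrix (Fin N) (Fin N) ℤ_[p])) a b) = _
        rw [one_smul]
        by_cases h : a = b
        · subst h
          rw [one_apply_eq, one_apply_eq, map_one]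
        · rw [one_apply_ne h, one_apply_ne h, map_zero]
  have htop : T₂ = ⊤ := eq_top_of_closed (by omega) hcl fun V => mem_imM.1 (hle (Submodule.mem_top (x := V)))
  obtain ⟨Z, hZ⟩ := mem_Gam_iff.1 hg
  have h1 : psiG hN hk (⟨Z⟩ : CM p N (2 * j + 1)) = g := Subtype.ext (exists_psi_eq hN g.1 hZ)
  have h2 : (⟨Z⟩ : CM p N (2 * j + 1)) ∈ T₂ := by rw [htop]; exact Subgroup.mem_top _
  rw [← h1]
  exact h2

/-- a closed subgroup which is everything modulo `p` is everything -/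
theorem eq_top_of_image (hN : ¬ p ∣ N) (hj : 1 ≤ j) {H : Subgroup (Gam N p (j + 1))}
    (hH : IsClosed (H : Set (Gam N p (j + 1)))) (hV : imM (H.comap (psiG hN (le_refl (j + 1)))) = ⊤) : H = ⊤ := by
  have htop : H.comap (psiG hN (le_refl (j + 1))) = ⊤ :=
    eq_top_of_closed hj (hH.preimage (continuous_psiG hN le_rfl)) fun V => mem_imM.1 (hV ▸ Submodule.mem_top (x := V))
  rw [Subgroup.eq_top_iff']
  intro g
  rw [← psiG_qm hN g, ← Subgroup.mem_comap, htop]
  exact Subgroup.mem_top _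

/-! ### Entries modulo scalars -/

section rdl

variable {F : Type*} [Field F] {M r : ℕ}

/-- the entries modulo scalars with the indices `e a` -/
def rdl (e : Fin r → Fin (M + 1) × Fin (M + 1)) : Matrix (Fin (M + 1)) (Fin (M + 1)) F →ₗ[F] (Fin r → F) where
  toFun x a := redm x (e a)
  map_add' x y := by
    funext a
    exact congrFun (redm_add x y) (e a)
  map_smul' c x := by
    funext a
    rw [Pi.smul_apply, RingHom.id_apply, smul_eq_mul]
    unfold redm
    rw [Matrix.smul_apply, Matrix.smul_apply, smul_eq_mul, smul_eq_mul]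
    split_ifs <;> ring

lemma rdl_apply (e : Fin r → Fin (M + 1) × Fin (M + 1)) (x : Matrix (Fin (M + 1)) (Fin (M + 1)) F) (a : Fin r) :
    rdl e x a = redm x (e a) := rfl

lemma rdl_scalar (e : Fin r → Fin (M + 1) × Fin (M + 1)) (c : F) :
    rdl e (c • (1 : Matrix (Fin (M + 1)) (Fin (M + 1)) F)) = 0 := by
  funext a
  rw [rdl_apply, redm_scalar]
  rfl

lemma exists_of_rdl_eq_zero {e : Fin r → Fin (M + 1) × Fin (M + 1)}
    (he : ∀ ij, ij ≠ (Fin.last M, Fin.last M) → ∃ a, e a = ij)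
    {x : Matrix (Fin (M + 1)) (Fin (M + 1)) F} (hx : rdl e x = 0) : ∃ c : F, x = c • 1 := by
  refine ⟨x (Fin.last M) (Fin.last M), ?_⟩
  ext i j
  by_cases h : (i, j) = (Fin.last M, Fin.last M)
  · obtain ⟨rfl, rfl⟩ := Prod.mk.inj h
    rw [Matrix.smul_apply, one_apply_eq, smul_eq_mul, mul_one]
  · obtain ⟨a, ha⟩ := he _ h
    have h1 := congrFun hx a
    rw [rdl_apply, ha, Pi.zero_apply] at h1
    unfold redm at h1
    rw [sub_eq_zero] at h1
    rw [h1, Matrix.smul_apply, smul_eq_mul]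
    by_cases hij : i = j
    · rw [if_pos hij, hij, one_apply_eq, mul_one]
    · rw [if_neg hij, one_apply_ne hij, mul_zero]

/-- a subspace which contains the scalars -/
lemma finrank_map_rdl (e : Fin r → Fin (M + 1) × Fin (M + 1))
    {V : Submodule F (Matrix (Fin (M + 1)) (Fin (M + 1)) F)} (h1 : (1 : Matrix (Fin (M + 1)) (Fin (M + 1)) F) ∈ V) :
    finrank F (V.map (rdl e)) + 1 ≤ finrank F V := by
  have h2 := LinearMap.finrank_range_add_finrank_ker ((rdl e).domRestrict V)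
  rw [LinearMap.range_domRestrict] at h2
  have h3 : 1 ≤ finrank F (LinearMap.ker ((rdl e).domRestrict V)) := by
    have h4 : (⟨1, h1⟩ : V) ∈ LinearMap.ker ((rdl e).domRestrict V) := by
      rw [LinearMap.mem_ker, LinearMap.domRestrict_apply]
      have h5 := rdl_scalar e (1 : F)
      rwa [one_smul] at h5
    refine Submodule.one_le_finrank_iff.2 fun h => ?_
    rw [h, Submodule.mem_bot] at h4
    exact one_ne_zero (congrArg Subtype.val h4)
  omega

lemma eq_top_of_map_rdl {e : Fin r → Fin (M + 1) × Fin (M + 1)}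
    (he : ∀ ij, ij ≠ (Fin.last M, Fin.last M) → ∃ a, e a = ij)
    {V : Submodule F (Matrix (Fin (M + 1)) (Fin (M + 1)) F)} (h1 : (1 : Matrix (Fin (M + 1)) (Fin (M + 1)) F) ∈ V)
    (h : V.map (rdl e) = ⊤) : V = ⊤ := by
  rw [Submodule.eq_top_iff']
  intro x
  have h2 : rdl e x ∈ V.map (rdl e) := by rw [h]; exact Submodule.mem_top
  obtain ⟨y, hy, hxy⟩ := h2
  obtain ⟨c, hc⟩ := exists_of_rdl_eq_zero he (x := x - y) (by rw [map_sub, hxy, sub_self])
  rw [sub_eq_iff_eq_add.1 hc]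
  exact V.add_mem (V.smul_mem c h1) hy

end rdl

/-! ### The class of an element -/

section chi

variable {M r : ℕ}

/-- the class of an element of the congruence group -/
noncomputable def chi (e : Fin r → Fin (M + 1) × Fin (M + 1)) (g : Gam (M + 1) p (j + 1)) : Fin r → ZMod p :=
  rdl e (redM (qm g))

lemma chi_mul (e : Fin r → Fin (M + 1) × Fin (M + 1)) (g h : Gam (M + 1) p (j + 1)) :
    chi e (g * h) = chi e g + chi e h := by
  unfold chi
  rw [qm_mul, redM_mul, map_add]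

lemma chi_psiG (hN : ¬ p ∣ M + 1) (e : Fin r → Fin (M + 1) × Fin (M + 1)) (X : CM p (M + 1) j) :
    chi e (psiG hN (le_refl (j + 1)) X) = rdl e (redM X) := by
  obtain ⟨c, hc⟩ := redM_qm_psiG hN X
  unfold chi
  rw [hc, map_add, rdl_scalar, add_zero]

lemma chi_eq_zero (e : Fin r → Fin (M + 1) × Fin (M + 1)) {g : Gam (M + 1) p (j + 1)}
    (hg : g.1 ∈ Gam (M + 1) p (j + 1 + 1)) : chi e g = 0 := by
  obtain ⟨Z, hZ⟩ := mem_Gam_iff.1 hg
  have h1 : qm g = (⟨(p : ℤ_[p]) • Z⟩ : CM p (M + 1) j) := by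
    apply up_injective
    rw [up_qm, hZ, pow_succ, mul_smul]
    rfl
  have h2 : redM (qm g) = 0 := by
    rw [h1, ← redM_one]
    exact redM_eq_of (R := Z) (by rw [one_mat, zero_add])
  unfold chi
  rw [h2, map_zero]

lemma one_mem_imM (hN : ¬ p ∣ M + 1) (H : Subgroup (Gam (M + 1) p (j + 1))) :
    (1 : Matrix (Fin (M + 1)) (Fin (M + 1)) (ZMod p)) ∈ imM (H.comap (psiG hN (le_refl (j + 1)))) := by
  refine mem_imM.2 ⟨⟨(1 : ℤ_[p]) • 1⟩, ?_, ?_⟩
  · have h1 : psiG hN (le_refl (j + 1)) (⟨(1 : ℤ_[p]) • 1⟩ : CM p (M + 1) j) = 1 := Subtype.ext (psi_scalar hN 1)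
    rw [Subgroup.mem_comap, h1]
    exact one_mem H
  · ext a b
    rw [redM_apply]
    show PadicInt.toZMod (((1 : ℤ_[p]) • (1 : Matrix (Fin (M + 1)) (Fin (M + 1)) ℤ_[p])) a b) = _
    rw [one_smul]
    by_cases h : a = b
    · subst h
      rw [one_apply_eq, one_apply_eq, map_one]
    · rw [one_apply_ne h, one_apply_ne h, map_zero]

lemma span_chi (hN : ¬ p ∣ M + 1) (e : Fin r → Fin (M + 1) × Fin (M + 1)) (H : Subgroup (Gam (M + 1) p (j + 1))) :
    Submodule.span (ZMod p) (chi e '' (H : Set (Gam (M + 1) p (j + 1)))) =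
      (imM (H.comap (psiG hN (le_refl (j + 1))))).map (rdl e) := by
  apply le_antisymm
  · rw [Submodule.span_le]
    rintro _ ⟨g, hg, rfl⟩
    refine ⟨redM (qm g), mem_imM.2 ⟨qm g, ?_, rfl⟩, rfl⟩
    rw [Subgroup.mem_comap, psiG_qm]
    exact hg
  · rintro _ ⟨v, hv, rfl⟩
    obtain ⟨X, hX, rfl⟩ := mem_imM.1 hv
    rw [← chi_psiG hN]
    exact Submodule.subset_span ⟨_, hX, rfl⟩

lemma exists_index (hr : r + 1 = (M + 1) ^ 2) : ∃ e : Fin r → Fin (M + 1) × Fin (M + 1), Function.Injective e ∧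
    ∀ ij, (∃ a, e a = ij) ↔ ij ≠ (Fin.last M, Fin.last M) := by
  have h1 : Fintype.card {ij : Fin (M + 1) × Fin (M + 1) // ij ≠ (Fin.last M, Fin.last M)} = r := by
    rw [Fintype.card_subtype_compl, Fintype.card_prod, Fintype.card_fin, Fintype.card_subtype_eq]
    have : (M + 1) * (M + 1) = r + 1 := by rw [hr]; ring
    omega
  have f : Fin r ≃ {ij : Fin (M + 1) × Fin (M + 1) // ij ≠ (Fin.last M, Fin.last M)} :=
    (finCongr h1.symm).trans (Fintype.equivFin _).symm
  refine ⟨fun a => (f a).1, fun a b h => f.injective (Subtype.ext h), fun ij => ⟨?_, fun h => ⟨f.symm ⟨ij, h⟩, ?_⟩⟩⟩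
  · rintro ⟨a, rfl⟩
    exact (f a).2
  · show ((f (f.symm ⟨ij, h⟩)) : Fin (M + 1) × Fin (M + 1)) = ij
    rw [f.apply_symm_apply]

end chi

end Pool.Agent.TF
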