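import Pool.Agent.TF.GamData
import Pool.Agent.HSF.Basic

/-!
# The group data of the congruence subgroups of `SL_N(ℤ_p)` (row M of Theorem F)
-/

set_option autoImplicit false

open Matrix Topology Filter Module

namespace Pool.Agent.TF

open Pool.Agent.HSF

variable {p : ℕ} [hp : Fact p.Prime] {N j : ℕ}

/-- the non-vanishing statement for cochains on integer matrices -/
def NvInt (p N κ r : ℕ) [Fact p.Prime] (k : Type*) [Field k] [Algebra (ZMod p) k]
    (e : Fin r → Fin (N + 1) × Fin (N + 1)) : Prop :=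
  ∀ (M : ℕ) (c : List (Matrix (Fin (N + 1)) (Fin (N + 1)) ℤ) → k) (lam : k),
    (∀ l l' : List (Matrix (Fin (N + 1)) (Fin (N + 1)) ℤ),
      List.Forall₂ (fun x y => ∀ i j, (p : ℤ) ^ M ∣ x i j - y i j) l l' → c l = c l') →
    (∀ (a : Matrix (Fin (N + 1)) (Fin (N + 1)) ℤ) l, l.length = r →
      c (l.map fun x => a + x + (p : ℤ) ^ κ • (a * x)) = c l) →
    (∀ l : List (Matrix (Fin (N + 1)) (Fin (N + 1)) ℤ), l.length = r + 1 →
      dl c l = lam * vol r (l.map fun x a => ((redm x (e a) : ℤ) : k))) → lam = 0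

lemma lev_anti {m m' : ℕ} (h : m ≤ m') : lev p N j m' ≤ lev p N j m := by
  rintro X ⟨Z, hZ⟩
  obtain ⟨d, rfl⟩ := Nat.exists_eq_add_of_le h
  exact ⟨(p : ℤ_[p]) ^ d • Z, by rw [hZ, smul_smul, pow_add]⟩

lemma exists_lev_subset {V : Set (CM p N j)} (hV : V ∈ 𝓝 1) : ∃ m, (lev p N j m : Set (CM p N j)) ⊆ V := by
  have hcl : ∀ m, IsClosed (lev p N j m : Set (CM p N j)) := fun m =>
    Subgroup.isClosed_of_isOpen _ (isOpen_lev m)
  have h1 : ⋂ m, (lev p N j m : Set (CM p N j)) = {1} := by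
    ext X
    rw [Set.mem_iInter, Set.mem_singleton_iff]
    constructor
    · intro h
      apply CM.ext
      ext a b
      have h2 : ‖X.mat a b‖ ≤ 0 := by
        refine ge_of_tendsto' (x := atTop) (f := fun l : ℕ => (p : ℝ) ^ (-(l : ℤ))) ?_ fun l => ?_
        · have h3 := tendsto_pow_atTop_nhds_zero_of_lt_one (r := (p : ℝ)⁻¹) (by positivity)
            (inv_lt_one_of_one_lt₀ (by exact_mod_cast hp.out.one_lt))
          refine h3.congr fun l => ?_
          rw [_root_.zpow_neg, zpow_natCast, inv_pow]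
        · obtain ⟨Z, hZ⟩ := mem_lev.1 (h l)
          rw [← dvd_pow_iff_norm, hZ, Matrix.smul_apply, smul_eq_mul]
          exact dvd_mul_right _ _
      exact norm_le_zero_iff.1 h2
    · rintro rfl l
      exact one_mem _
  obtain ⟨l, hl⟩ := exists_subset_nhds_of_isCompact' (V := fun l => (lev p N j l : Set (CM p N j)))
    (directed_of_isDirected_le fun a b hab => lev_anti hab)
    (fun l => (hcl l).isCompact) hcl (U := V) (by
      intro x hx
      rw [h1, Set.mem_singleton_iff] at hx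
      rw [hx]
      exact hV)
  exact ⟨l, hl⟩

lemma inv_mul_mat (X Y : CM p N j) : (X⁻¹ * Y).mat = (up X)⁻¹ * (Y.mat - X.mat) := by
  have h1 : (X⁻¹ * Y : CM p N j) = ⟨(up X)⁻¹ * (Y.mat - X.mat)⟩ := by
    apply up_injective
    have h2 : up (⟨(up X)⁻¹ * (Y.mat - X.mat)⟩ : CM p N j) = 1 + (p : ℤ_[p]) ^ (j + 1) • ((up X)⁻¹ * (Y.mat - X.mat)) := rfl
    have h3 : up Y = up X + (p : ℤ_[p]) ^ (j + 1) • (Y.mat - X.mat) := by
      unfold up
      rw [smul_sub]
      abel
    rw [up_mul, up_inv, h2, h3, mul_add, nonsing_inv_mul _ (isUnit_det_up X), Matrix.mul_smul]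
  rw [h1]

/-- the map from integer matrices to the congruence group -/
noncomputable def iota (hN : ¬ p ∣ N) (j : ℕ) (x : Matrix (Fin N) (Fin N) ℤ) : Gam N p (j + 1) :=
  psiG hN (le_refl (j + 1)) ⟨x.map (Int.cast : ℤ → ℤ_[p])⟩

lemma iota_mul (hN : ¬ p ∣ N) (a x : Matrix (Fin N) (Fin N) ℤ) :
    iota hN j (a + x + (p : ℤ) ^ (j + 1) • (a * x)) = iota hN j a * iota hN j x := by
  unfold iota
  rw [← map_mul]
  congr 1
  apply CM.ext
  ext i l
  rw [mul_mat]
  simp only [map_apply, Matrix.add_apply, Matrix.smul_apply, Matrix.mul_apply, smul_eq_mul]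
  push_cast
  ring

lemma iota_near (hN : ¬ p ∣ N) {K : Subgroup (Gam N p (j + 1))} (hK : IsOpen (K : Set (Gam N p (j + 1)))) :
    ∃ M : ℕ, ∀ x y : Matrix (Fin N) (Fin N) ℤ, (∀ i l, (p : ℤ) ^ M ∣ x i l - y i l) →
      (iota hN j x)⁻¹ * iota hN j y ∈ K := by
  have h1 : (psiG hN (le_refl (j + 1)) : CM p N j → Gam N p (j + 1)) ⁻¹' (K : Set (Gam N p (j + 1))) ∈ 𝓝 (1 : CM p N j) := by
    refine (continuous_psiG hN (le_refl (j + 1))).continuousAt.preimage_mem_nhds ?_
    rw [map_one]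
    exact hK.mem_nhds (one_mem K)
  obtain ⟨M, hM⟩ := exists_lev_subset h1
  refine ⟨M, fun x y hxy => ?_⟩
  unfold iota
  rw [← map_inv, ← map_mul]
  refine hM ?_
  choose z hz using hxy
  refine mem_lev.2 ⟨(up (⟨x.map (Int.cast : ℤ → ℤ_[p])⟩ : CM p N j))⁻¹ * (-((Matrix.of z).map (Int.cast : ℤ → ℤ_[p]))), ?_⟩
  rw [inv_mul_mat, ← Matrix.mul_smul]
  congr 1
  ext a b
  have h2 : y a b - x a b = -((p : ℤ) ^ M * z a b) := by rw [← hz a b]; ring
  show ((y a b : ℤ) : ℤ_[p]) - ((x a b : ℤ) : ℤ_[p]) = (p : ℤ_[p]) ^ M * (-((z a b : ℤ) : ℤ_[p]))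
  rw [← Int.cast_sub, h2]
  push_cast
  ring

lemma chi_iota {M r : ℕ} (hN : ¬ p ∣ M + 1) (e : Fin r → Fin (M + 1) × Fin (M + 1))
    (x : Matrix (Fin (M + 1)) (Fin (M + 1)) ℤ) (a : Fin r) :
    chi e (iota hN j x) a = ((redm x (e a) : ℤ) : ZMod p) := by
  unfold iota
  rw [chi_psiG, rdl_apply]
  have h1 : ∀ i l, redM (⟨x.map (Int.cast : ℤ → ℤ_[p])⟩ : CM p (M + 1) j) i l = ((x i l : ℤ) : ZMod p) := by
    intro i l
    rw [redM_apply]
    show PadicInt.toZMod ((x i l : ℤ) : ℤ_[p]) = _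
    rw [map_intCast]
  unfold redm
  rw [h1, h1]
  split_ifs
  · rw [Int.cast_sub]
  · rw [sub_zero, sub_zero]

/-- **Row M**: the group data of the congruence group of level `κ ≥ 2`. -/
theorem exists_GD_of {κ D r : ℕ} (hκ : 2 ≤ κ) (hN : D < N) (hpN : ¬ p ∣ N + 1)
    (hr : r + 1 = (N + 1) ^ 2) (k : Type*) [Field k] [Algebra (ZMod p) k]
    (hnv : ∀ e : Fin r → Fin (N + 1) × Fin (N + 1), Function.Injective e →
      (∀ ij, (∃ a, e a = ij) ↔ ij ≠ (Fin.last N, Fin.last N)) → NvInt p N κ r k e) :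
    Nonempty (GD (Gam (N + 1) p κ) p r D k) := by
  obtain ⟨j, rfl⟩ : ∃ j, κ = j + 1 := ⟨κ - 1, by omega⟩
  obtain ⟨e, he, he'⟩ := exists_index hr
  have hle : ∀ {l : ℕ}, j + 1 + 1 ≤ l → ∀ g ∈ (Gam (N + 1) p l).subgroupOf (Gam (N + 1) p (j + 1)), chi e g = 0 :=
    fun hl g hg => chi_eq_zero e (Gam_anti hl (Subgroup.mem_subgroupOf.1 hg))
  have hopen : ∀ l, IsOpen (((Gam (N + 1) p l).subgroupOf (Gam (N + 1) p (j + 1)) : Subgroup _) : Set (Gam (N + 1) p (j + 1))) :=
    fun l => (isClopen_Gam l).isOpen.preimage continuous_subtype_val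
  refine ⟨GD.mk (chi e) (chi_mul e) ((Gam (N + 1) p (2 * (j + 1))).subgroupOf (Gam (N + 1) p (j + 1)))
    inferInstance (hopen _) (hle (by omega)) ?_ ?_ ?_ ?_⟩
  · intro H hH hfin g hg
    have h1 := finrank_map_rdl e (one_mem_imM hpN H)
    rw [← span_chi hpN e H] at h1
    refine le_of_large (D := D) hpN (by omega) hH ?_ (Subgroup.mem_subgroupOf.1 hg)
    have h2 : (N + 1) * (N + 1) = r + 1 := by rw [hr]; ring
    omega
  · intro H hH hspan
    refine eq_top_of_image hpN (by omega) hH ?_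
    rw [span_chi hpN e H] at hspan
    exact eq_top_of_map_rdl (fun ij hij => (he' ij).2 hij) (one_mem_imM hpN H) hspan
  · intro V hV
    obtain ⟨V', hV', hVV⟩ := mem_nhds_subtype _ _ _ |>.1 hV
    obtain ⟨l, hl, hsub⟩ := exists_Gam_subset hV' (2 * (j + 1))
    exact ⟨(Gam (N + 1) p l).subgroupOf (Gam (N + 1) p (j + 1)), inferInstance, hopen l,
      fun g hg => hVV (hsub (Subgroup.mem_subgroupOf.1 hg)),
      fun g hg => Subgroup.mem_subgroupOf.2 (Gam_anti hl (Subgroup.mem_subgroupOf.1 hg))⟩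
  · intro K _ hK _ c lam hper hinv hd
    obtain ⟨M, hM⟩ := iota_near (j := j) hpN hK
    refine hnv e he he' M (fun l => c (l.map (iota hpN j))) lam ?_ ?_ ?_
    · intro l l' hl
      refine hper _ _ ?_
      rw [List.forall₂_map_left_iff, List.forall₂_map_right_iff]
      exact hl.imp fun x y h => hM x y h
    · intro a l hl
      have h1 : (l.map fun x => a + x + (p : ℤ) ^ (j + 1) • (a * x)).map (iota hpN j) =
          (l.map (iota hpN j)).map (iota hpN j a * ·) := by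
        rw [List.map_map, List.map_map]
        exact List.map_congr_left fun x _ => iota_mul hpN a x
      show c ((l.map fun x => a + x + (p : ℤ) ^ (j + 1) • (a * x)).map (iota hpN j)) = _
      rw [h1]
      exact hinv _ _ (by rw [List.length_map, hl])
    · intro l hl
      rw [dl_map (iota hpN j) c l, hd _ (by rw [List.length_map, hl]), List.map_map]
      congr 2
      refine List.map_congr_left fun x _ => ?_
      funext a
      show algebraMap (ZMod p) k (chi e (iota hpN j x) a) = _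
      rw [chi_iota, map_intCast]

end Pool.Agent.TF
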