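import Pool.Agent.TF.Gam2
import Pool.Agent.HSF.Defs4

/-!
# The group data of the congruence subgroups of `SL_N(ℤ_p)` with coefficients in a ring (project F+)
-/

set_option autoImplicit false

open Matrix Topology Filter Module

namespace Pool.Agent.TF

open Pool.Agent.HSF

variable {p : ℕ} [hp : Fact p.Prime] {N j n : ℕ}

/-- the non-vanishing statement for cochains on integer matrices with values in a commutative ring -/
def NvInt2 (p N κ r : ℕ) (k : Type*) [CommRing k] (e : Fin r → Fin (N + 1) × Fin (N + 1)) : Prop :=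
  ∀ (M : ℕ) (c : List (Matrix (Fin (N + 1)) (Fin (N + 1)) ℤ) → k) (lam : k),
    (∀ l l' : List (Matrix (Fin (N + 1)) (Fin (N + 1)) ℤ),
      List.Forall₂ (fun x y => ∀ i j, (p : ℤ) ^ M ∣ x i j - y i j) l l' → c l = c l') →
    (∀ (a : Matrix (Fin (N + 1)) (Fin (N + 1)) ℤ) l, l.length = r →
      c (l.map fun x => a + x + (p : ℤ) ^ κ • (a * x)) = c l) →
    (∀ l : List (Matrix (Fin (N + 1)) (Fin (N + 1)) ℤ), l.length = r + 1 →
      dl c l = lam * vol r (l.map fun x a => ((redm x (e a) : ℤ) : k))) → (r.factorial : k) * lam = 0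

/-- the inclusion of a deeper congruence subgroup -/
noncomputable def incl (N p : ℕ) [Fact p.Prime] (j n : ℕ) : Gam N p (j + n + 1) →* Gam N p (j + 1) :=
  Subgroup.inclusion (Gam_anti (by omega))

lemma continuous_incl : Continuous (incl N p j n) := continuous_subtype_val.subtype_mk _

/-- the classes of the elements of level `j + n + 1` -/
noncomputable def lvl {r : ℕ} (n : ℕ) (e : Fin r → Fin (N + 1) × Fin (N + 1)) (H : Subgroup (Gam (N + 1) p (j + 1))) :
    Submodule (ZMod p) (Fin r → ZMod p) :=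
  Submodule.span (ZMod p) (chi e '' ((H.comap (incl (N + 1) p j n) : Subgroup _) : Set (Gam (N + 1) p (j + n + 1))))

lemma finrank_lvl {r D : ℕ} (hpN : ¬ p ∣ N + 1) (hN : D < N) (hr : r + 1 = (N + 1) ^ 2)
    (e : Fin r → Fin (N + 1) × Fin (N + 1)) {H : Subgroup (Gam (N + 1) p (j + 1))}
    (hH : IsClosed (H : Set (Gam (N + 1) p (j + 1))))
    (hnot : ¬ (Gam (N + 1) p (2 * (j + n + 1))).subgroupOf (Gam (N + 1) p (j + 1)) ≤ H) :
    finrank (ZMod p) (lvl n e H) + (D + 1) ≤ r := by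
  by_contra hlt
  apply hnot
  intro g hg
  have hg1 : g.1 ∈ Gam (N + 1) p (2 * (j + n + 1)) := Subgroup.mem_subgroupOf.1 hg
  have hg2 : g.1 ∈ Gam (N + 1) p (j + n + 1) := Gam_anti (by omega) hg1
  have hcl : IsClosed ((H.comap (incl (N + 1) p j n) : Subgroup _) : Set (Gam (N + 1) p (j + n + 1))) :=
    hH.preimage continuous_incl
  have h1 := finrank_map_rdl e (one_mem_imM hpN (H.comap (incl (N + 1) p j n)))
  rw [← span_chi hpN e (H.comap (incl (N + 1) p j n))] at h1
  have h2 : (N + 1) * (N + 1) = r + 1 := by rw [hr]; ring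
  have h4 : lvl n e H = Submodule.span (ZMod p)
      (chi e '' ((H.comap (incl (N + 1) p j n) : Subgroup _) : Set (Gam (N + 1) p (j + n + 1)))) := rfl
  rw [← h4] at h1
  have h3 : (⟨g.1, hg2⟩ : Gam (N + 1) p (j + n + 1)) ∈ H.comap (incl (N + 1) p j n) :=
    le_of_large (D := D) hpN (by omega) hcl (by omega) hg1
  exact h3

lemma rdl_surjective {F : Type*} [Field F] {r : ℕ} {e : Fin r → Fin (N + 1) × Fin (N + 1)} (he : Function.Injective e)
    (he' : ∀ a, e a ≠ (Fin.last N, Fin.last N)) : Function.Surjective (rdl (F := F) e) := by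
  intro v
  classical
  refine ⟨Matrix.of fun i l => if h : ∃ a, e a = (i, l) then v h.choose else 0, ?_⟩
  funext a
  rw [rdl_apply]
  unfold redm
  rw [of_apply, of_apply]
  have h1 : ¬ ∃ b, e b = (Fin.last N, Fin.last N) := fun ⟨b, hb⟩ => he' b hb
  have h2 : ∃ b, e b = ((e a).1, (e a).2) := ⟨a, rfl⟩
  rw [dif_neg h1, dif_pos h2]
  have h3 : h2.choose = a := he h2.choose_spec
  rw [h3]
  split_ifs <;> rw [sub_zero]

/-- a proper closed subgroup is killed by a nonzero homomorphism to `ℤ / p` -/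
lemma exists_eta {r : ℕ} (hpN : ¬ p ∣ N + 1) (hj : 1 ≤ j) {e : Fin r → Fin (N + 1) × Fin (N + 1)}
    (he : Function.Injective e) (he' : ∀ ij, (∃ a, e a = ij) ↔ ij ≠ (Fin.last N, Fin.last N))
    {H : Subgroup (Gam (N + 1) p (j + 1))} (hH : IsClosed (H : Set (Gam (N + 1) p (j + 1)))) (hne : H ≠ ⊤) :
    ∃ η : Gam (N + 1) p (j + 1) → ZMod p, (∀ g h, η (g * h) = η g + η h) ∧ (∀ g ∈ H, η g = 0) ∧
      (∀ g : Gam (N + 1) p (j + 1), g.1 ∈ Gam (N + 1) p (j + 1 + 1) → η g = 0) ∧ ∃ g, η g ≠ 0 := by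
  have h1 : Submodule.span (ZMod p) (chi e '' (H : Set (Gam (N + 1) p (j + 1)))) ≠ ⊤ := by
    intro h
    apply hne
    refine eq_top_of_image hpN hj hH ?_
    rw [span_chi hpN e H] at h
    exact eq_top_of_map_rdl (fun ij hij => (he' ij).2 hij) (one_mem_imM hpN H) h
  obtain ⟨f, hf0, hf⟩ := Submodule.exists_le_ker_of_lt_top _ (lt_top_iff_ne_top.2 h1)
  refine ⟨fun g => f (chi e g), fun g h => ?_, fun g hg => ?_, fun g hg => ?_, ?_⟩
  · show f (chi e (g * h)) = f (chi e g) + f (chi e h)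
    rw [chi_mul, map_add]
  · exact hf (Submodule.subset_span ⟨g, hg, rfl⟩)
  · show f (chi e g) = 0
    rw [chi_eq_zero e hg, map_zero]
  · by_contra hall
    push Not at hall
    apply hf0
    refine LinearMap.ext fun v => ?_
    obtain ⟨x, rfl⟩ := rdl_surjective (F := ZMod p) he (fun a => (he' (e a)).1 ⟨a, rfl⟩) v
    obtain ⟨X, rfl⟩ := redM_surjective (p := p) (N := N + 1) (j := j) x
    rw [← chi_psiG hpN]
    exact hall _

/-- the group data with coefficients in a ring -/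
theorem exists_GR_of {κ D r s : ℕ} (hs : 1 ≤ s) (hκ : 2 ≤ κ) (hsκ : s ≤ κ) (hN : D < N) (hpN : ¬ p ∣ N + 1)
    (hr : r + 1 = (N + 1) ^ 2) {k : Type*} [CommRing k] [Algebra (ZMod (p ^ s)) k] {w : Fin (D + 1) → Fin r → k}
    (hfac : ∀ a : k, (r.factorial : k) * (1 + p * a) ≠ 0)
    (hdual : ∀ (V : AddSubgroup (Fin r → ZMod (p ^ s))) (S : Submodule (ZMod p) (Fin r → ZMod p)),
      (∀ x : Fin r → ℤ, (fun i => (((p : ℤ) ^ (s - 1) * x i : ℤ) : ZMod (p ^ s))) ∈ V →
        (fun i => ((x i : ℤ) : ZMod p)) ∈ S) →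
      Module.finrank (ZMod p) S + (D + 1) ≤ r → ∃ Ξ : Fin (D + 1) → Fin r → k,
        (∀ c, ∀ v ∈ V, ∑ i, Ξ c i * algebraMap (ZMod (p ^ s)) k (v i) = 0) ∧
          ∀ c j, ∑ i, Ξ c i * w j i = if c = j then 1 else 0)
    (hnv : ∀ e : Fin r → Fin (N + 1) × Fin (N + 1), Function.Injective e →
      (∀ ij, (∃ a, e a = ij) ↔ ij ≠ (Fin.last N, Fin.last N)) → NvInt2 p N κ r k e) :
    Nonempty (GR (Gam (N + 1) p κ) p r D k w) := by
  obtain ⟨j, rfl⟩ : ∃ j, κ = j + 1 := ⟨κ - 1, by omega⟩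
  obtain ⟨n, rfl⟩ : ∃ n, s = n + 1 := ⟨s - 1, by omega⟩
  obtain ⟨e, he, he'⟩ := exists_index hr
  have hopen : ∀ l, IsOpen (((Gam (N + 1) p l).subgroupOf (Gam (N + 1) p (j + 1)) : Subgroup _) : Set (Gam (N + 1) p (j + 1))) :=
    fun l => (isClopen_Gam l).isOpen.preimage continuous_subtype_val
  refine ⟨GR.mk (fun g i => algebraMap (ZMod (p ^ (n + 1))) k (chiE (n + 1) e g i)) ?_
    ((Gam (N + 1) p (2 * (j + n + 1))).subgroupOf (Gam (N + 1) p (j + 1)))
    inferInstance (hopen _) ?_ ?_ ?_ ?_ ?_ hfac⟩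
  · intro g h
    funext i
    rw [chiE_mul hsκ, Pi.add_apply, Pi.add_apply, map_add]
  · intro g hg
    have h1 := chiE_eq_zero (n := n + 1) e (Gam_anti (show j + 1 + (n + 1) ≤ 2 * (j + n + 1) by omega) (Subgroup.mem_subgroupOf.1 hg))
    rw [h1]
    funext i
    rw [Pi.zero_apply, Pi.zero_apply, map_zero]
  · intro H hH hnot
    let V : AddSubgroup (Fin r → ZMod (p ^ (n + 1))) :=
      { carrier := chiE (n + 1) e '' (H : Set (Gam (N + 1) p (j + 1)))
        add_mem' := by
          rintro _ _ ⟨g, hg, rfl⟩ ⟨h, hh, rfl⟩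
          exact ⟨g * h, mul_mem hg hh, chiE_mul hsκ e g h⟩
        zero_mem' := ⟨1, one_mem H, by
          have h1 := chiE_mul hsκ e (1 : Gam (N + 1) p (j + 1)) 1
          rw [mul_one] at h1
          exact left_eq_add.1 h1⟩
        neg_mem' := by
          rintro _ ⟨g, hg, rfl⟩
          refine ⟨g⁻¹, inv_mem hg, ?_⟩
          have h0 : chiE (n + 1) e (1 : Gam (N + 1) p (j + 1)) = 0 := by
            have h1 := chiE_mul hsκ e (1 : Gam (N + 1) p (j + 1)) 1
            rw [mul_one] at h1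
            exact left_eq_add.1 h1
          have h1 := chiE_mul hsκ e g⁻¹ g
          rw [inv_mul_cancel, h0] at h1
          exact eq_neg_of_add_eq_zero_left h1.symm }
    obtain ⟨Ξ, h1, h2⟩ := hdual V (lvl n e H) (by
      rintro x ⟨h, hh, hx⟩
      obtain ⟨h3, h4⟩ := socle hpN (fun ij hij => (he' ij).2 hij) (g := h) (x := x) (fun a => by
        rw [hx]
        rfl)
      refine Submodule.subset_span ⟨⟨h.1, h3⟩, ?_, funext h4⟩
      exact hh) (finrank_lvl hpN hN hr e hH hnot)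
    exact ⟨Ξ, fun c h hh => h1 c _ ⟨h, hh, rfl⟩, h2⟩
  · intro H hH hne
    obtain ⟨η, h1, h2, h3, h4⟩ := exists_eta hpN (by omega) he he' hH hne
    exact ⟨η, h1, h2, fun g hg => h3 g (Gam_anti (by omega) (Subgroup.mem_subgroupOf.1 hg)), h4⟩
  · intro V hV
    obtain ⟨V', hV', hVV⟩ := mem_nhds_subtype _ _ _ |>.1 hV
    obtain ⟨l, hl, hsub⟩ := exists_Gam_subset hV' (2 * (j + n + 1))
    exact ⟨(Gam (N + 1) p l).subgroupOf (Gam (N + 1) p (j + 1)), inferInstance, hopen l,
      fun g hg => hVV (hsub (Subgroup.mem_subgroupOf.1 hg)),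
      fun g hg => Subgroup.mem_subgroupOf.2 (Gam_anti hl (Subgroup.mem_subgroupOf.1 hg))⟩
  · intro K _ hK _ c lam hper hinv hd
    obtain ⟨M, hM⟩ := iota_near (j := j) hpN hK
    refine hnv e he he' M (fun l => c (l.map (iota hpN j))) lam ?_ ?_ ?_
    · intro l l' hl
      refine hper _ _ ?_
      rw [List.forall₂_map_left_iff, List.forall₂_map_right_iff]
      exact hl.imp fun x y h => hM x y h
    · intro a l hl
      have h1 : (l.map fun x => a + x + (p : ℤ) ^ (j + 1) • (a * x)).map (iota hpN j) =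
          (l.map (iota hpN j)).map (iota hpN j a * ·) := by
        rw [List.map_map, List.map_map]
        exact List.map_congr_left fun x _ => iota_mul hpN a x
      show c ((l.map fun x => a + x + (p : ℤ) ^ (j + 1) • (a * x)).map (iota hpN j)) = _
      rw [h1]
      exact hinv _ _ (by rw [List.length_map, hl])
    · intro l hl
      rw [dl_map (iota hpN j) c l, hd _ (by rw [List.length_map, hl]), List.map_map]
      congr 2
      refine List.map_congr_left fun x _ => ?_
      funext a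
      show algebraMap (ZMod (p ^ (n + 1))) k (chiE (n + 1) e (iota hpN j x) a) = _
      rw [chiE_iota hsκ, map_intCast]

end Pool.Agent.TF
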