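import Pool.Agent.TF.Chain

/-!
# Kuhn grid: faces of lists
-/

set_option autoImplicit false

open Finset

namespace Pool.Agent.TF

section

variable {X M : Type*} [AddCommGroup M]

theorem eraseIdx_ofFn {n : ℕ} (v : Fin (n + 1) → X) (j : Fin (n + 1)) :
    (List.ofFn v).eraseIdx j = List.ofFn (v ∘ j.succAbove) := by
  apply List.ext_getElem
  · rw [List.length_eraseIdx, List.length_ofFn, List.length_ofFn, if_pos j.2]
    rfl
  · intro i h1 h2
    have hi : i < n := by simpa using h2
    have e2 : (List.ofFn (v ∘ j.succAbove))[i] = v (j.succAbove ⟨i, hi⟩) := by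
      rw [List.getElem_ofFn]
      rfl
    rw [e2, List.getElem_eraseIdx]
    split_ifs with h
    · rw [List.getElem_ofFn, Fin.succAbove_of_castSucc_lt _ _ h]
      rfl
    · rw [List.getElem_ofFn, Fin.succAbove_of_le_castSucc _ _ (not_lt.1 h)]
      rfl

theorem dl_ofFn {n : ℕ} (f : List X → M) (v : Fin (n + 1) → X) :
    dl f (List.ofFn v) = ∑ j : Fin (n + 1), (-1 : ℤ) ^ (j : ℕ) •
      f (List.ofFn (v ∘ j.succAbove)) := by
  rw [dl_eq_sum, List.length_ofFn, Finset.sum_range]
  exact Finset.sum_congr rfl fun j _ => by rw [eraseIdx_ofFn]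

end

end Pool.Agent.TF
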