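import Pool.Agent.TF.GridBase

/-!
# The Kuhn triangulation of a box and its integral
-/

set_option autoImplicit false

open Finset Equiv

namespace Pool.Agent.TF

variable {n : ℕ} {M : Type*} [AddCommGroup M]

/-- The vertices of the Kuhn simplex with first vertex `a` and direction order `σ`. -/
def kv (a : Fin n → ℤ) (σ : Perm (Fin n)) (j : Fin (n + 1)) : Fin n → ℤ :=
  fun x => a x + if ((σ.symm x : Fin n) : ℕ) < (j : ℕ) then 1 else 0

/-- The box. -/
noncomputable def box (n N : ℕ) : Finset (Fin n → ℤ) := Fintype.piFinset fun _ => Finset.Ico (-(N : ℤ)) N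

theorem mem_box {N : ℕ} {a : Fin n → ℤ} : a ∈ box n N ↔ ∀ i, -(N : ℤ) ≤ a i ∧ a i < N := by
  simp [box]

/-- The integral of a function on lists over the Kuhn triangulation of the box. -/
noncomputable def kint (N : ℕ) (f : List (Fin n → ℤ) → M) : M :=
  ∑ a ∈ box n N, ∑ σ : Perm (Fin n), (Perm.sign σ : ℤ) • f (List.ofFn (kv a σ))

/-- The inner faces cancel. -/
theorem inner_face (g : List (Fin (n + 1) → ℤ) → M) (a : Fin (n + 1) → ℤ) (j : Fin n) :
    ∑ σ : Perm (Fin (n + 1)), (Perm.sign σ : ℤ) •
      g (List.ofFn (kv a σ ∘ (j.succ.castSucc).succAbove)) = 0 := by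
  classical
  set τ : Perm (Fin (n + 1)) := swap j.castSucc j.succ with hτ
  have hne : j.castSucc ≠ j.succ := (Fin.castSucc_lt_succ).ne
  apply Finset.sum_involution (fun σ _ => σ * τ)
  · intro σ _
    have h1 : kv a (σ * τ) ∘ (j.succ.castSucc).succAbove =
        kv a σ ∘ (j.succ.castSucc).succAbove := by
      funext i
      funext x
      simp only [Function.comp_apply, kv]
      congr 2
      apply propext
      have hi : ((j.succ.castSucc).succAbove i : ℕ) ≠ (j : ℕ) + 1 := by
        intro h
        apply Fin.succAbove_ne (j.succ.castSucc) i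
        apply Fin.ext
        rw [h]
        simp
      have h2 : (σ * τ).symm x = τ (σ.symm x) := by
        rw [← Perm.inv_def, mul_inv_rev, Perm.mul_apply, Perm.inv_def, Perm.inv_def, hτ,
          symm_swap]
      rw [h2]
      generalize σ.symm x = y
      generalize ((j.succ.castSucc).succAbove i : ℕ) = m at hi
      rw [hτ]
      by_cases hy1 : y = j.castSucc
      · rw [hy1, swap_apply_left]
        simp only [Fin.val_succ, Fin.val_castSucc]
        omega
      · by_cases hy2 : y = j.succ
        · rw [hy2, swap_apply_right]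
          simp only [Fin.val_succ, Fin.val_castSucc]
          omega
        · rw [swap_apply_of_ne_of_ne hy1 hy2]
    rw [h1, Perm.sign_mul, hτ, Perm.sign_swap hne]
    simp
  · intro σ _ _ h
    have h1 : τ = 1 := by
      have := mul_left_cancel (a := σ) (b := τ) (c := 1) (by rw [h, mul_one])
      exact this
    rw [hτ] at h1
    have h2 := congrArg (fun e : Perm (Fin (n + 1)) => e j.castSucc) h1
    simp only [swap_apply_left, Perm.one_apply] at h2
    exact hne h2.symm
  · intro σ _
    exact Finset.mem_univ _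
  · intro σ _
    rw [mul_assoc, hτ, swap_mul_self, mul_one]

/-- The first face is a last face. -/
theorem first_face (a : Fin (n + 1) → ℤ) (σ : Perm (Fin (n + 1))) :
    kv a σ ∘ (0 : Fin (n + 2)).succAbove =
      kv (a + Pi.single (σ 0) 1) (σ * finRotate (n + 1)) ∘ (Fin.last (n + 1)).succAbove := by
  funext j
  funext x
  simp only [Function.comp_apply, kv, Fin.succAbove_zero, Fin.succAbove_last, Pi.add_apply]
  have h1 : (σ * finRotate (n + 1)).symm x = (finRotate (n + 1)).symm (σ.symm x) := by
    rw [← Perm.inv_def, mul_inv_rev, Perm.mul_apply, Perm.inv_def, Perm.inv_def]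
  rw [h1]
  have hj := j.2
  by_cases hx : x = σ 0
  · subst hx
    have h2 : (finRotate (n + 1)).symm 0 = Fin.last n := by
      rw [symm_apply_eq, finRotate_last]
    have e1 : ((σ.symm (σ 0) : Fin (n + 1)) : ℕ) = 0 := by rw [symm_apply_apply]; rfl
    have e2 : (((finRotate (n + 1)).symm (σ.symm (σ 0)) : Fin (n + 1)) : ℕ) = n := by
      rw [symm_apply_apply, h2]; rfl
    rw [e1, e2, Pi.single_eq_same, Fin.val_succ, Fin.val_castSucc, if_pos (by omega),
      if_neg (by omega)]
    ring
  · rw [Pi.single_eq_of_ne hx]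
    have hy : σ.symm x ≠ 0 := by
      intro h
      apply hx
      rw [← h, apply_symm_apply]
    obtain ⟨y, hy'⟩ := Fin.exists_succ_eq.2 hy
    rw [← hy']
    have h2 : (finRotate (n + 1)).symm y.succ = y.castSucc := by
      rw [symm_apply_eq]
      apply Fin.ext
      rw [coe_finRotate_of_ne_last (Fin.castSucc_lt_last y).ne]
      simp
    rw [h2]
    simp only [Fin.val_succ, Fin.val_castSucc]
    have h3 : ((y : ℕ) + 1 < (j : ℕ) + 1) ↔ ((y : ℕ) < (j : ℕ)) := by omega
    simp only [h3, add_zero]

/-- The vertices of the last face have the same coordinate in the last direction. -/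
theorem last_face_coord (a : Fin (n + 1) → ℤ) (σ : Perm (Fin (n + 1))) (j : Fin (n + 1)) :
    (kv a σ ∘ (Fin.last (n + 1)).succAbove) j (σ (Fin.last n)) = a (σ (Fin.last n)) := by
  simp only [Function.comp_apply, kv, Fin.succAbove_last, symm_apply_apply, Fin.val_last,
    Fin.val_castSucc]
  rw [if_neg (by have := j.2; omega), add_zero]

/-- **Stokes.** The integral of a coboundary vanishes. -/
theorem kint_dl (N : ℕ) (g : List (Fin (n + 1) → ℤ) → M)
    (hg : ∀ (a : Fin (n + 1) → ℤ) (σ : Perm (Fin (n + 1))), (∀ l, -(N : ℤ) ≤ a l ∧ a l ≤ N) →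
      (∀ l, l ≠ σ (Fin.last n) → a l < N) → (a (σ (Fin.last n)) = N ∨ a (σ (Fin.last n)) = -(N : ℤ)) →
      g (List.ofFn (kv a σ ∘ (Fin.last (n + 1)).succAbove)) = 0) : kint N (dl g) = 0 := by
  classical
  have h0 : kint N (dl g) = ∑ j : Fin (n + 2), (-1 : ℤ) ^ (j : ℕ) • ∑ a ∈ box (n + 1) N,
      ∑ σ : Perm (Fin (n + 1)), (Perm.sign σ : ℤ) • g (List.ofFn (kv a σ ∘ j.succAbove)) := by
    unfold kint
    simp only [dl_ofFn, Finset.smul_sum]
    rw [Finset.sum_congr rfl fun a _ => Finset.sum_comm]
    rw [Finset.sum_comm]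
    refine Finset.sum_congr rfl fun j _ => Finset.sum_congr rfl fun a _ =>
      Finset.sum_congr rfl fun σ _ => ?_
    rw [smul_comm]
  -- the sum over the last faces
  set T : ℤ → M := fun s => ∑ a ∈ box (n + 1) N, ∑ σ : Perm (Fin (n + 1)),
    (Perm.sign σ : ℤ) • g (List.ofFn (kv a σ ∘ (Fin.last (n + 1)).succAbove)) with hT
  have hfirst : ∑ a ∈ box (n + 1) N, ∑ σ : Perm (Fin (n + 1)),
      (Perm.sign σ : ℤ) • g (List.ofFn (kv a σ ∘ (0 : Fin (n + 2)).succAbove)) =
      (-1 : ℤ) ^ n • ∑ a ∈ box (n + 1) N, ∑ σ : Perm (Fin (n + 1)),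
      (Perm.sign σ : ℤ) • g (List.ofFn (kv a σ ∘ (Fin.last (n + 1)).succAbove)) := by
    rw [Finset.sum_comm, Finset.sum_comm (s := box (n + 1) N), Finset.smul_sum]
    rw [← Equiv.sum_comp (Equiv.mulRight (finRotate (n + 1)))
      (fun σ : Perm (Fin (n + 1)) => (-1 : ℤ) ^ n • ∑ a ∈ box (n + 1) N,
        (Perm.sign σ : ℤ) • g (List.ofFn (kv a σ ∘ (Fin.last (n + 1)).succAbove)))]
    refine Finset.sum_congr rfl fun σ _ => ?_
    simp only [Equiv.coe_mulRight]
    rw [← Finset.smul_sum, ← Finset.smul_sum, smul_smul]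
    have hs : (-1 : ℤ) ^ n * (Perm.sign (σ * finRotate (n + 1)) : ℤ) = (Perm.sign σ : ℤ) := by
      rw [Perm.sign_mul, sign_finRotate]
      push_cast
      rw [mul_comm, mul_assoc, ← pow_add, ← two_mul, pow_mul]
      norm_num
    rw [hs]
    congr 1
    have hsh : ∀ a, kv a σ ∘ (0 : Fin (n + 2)).succAbove = kv (a + Pi.single (σ 0) 1)
        (σ * finRotate (n + 1)) ∘ (Fin.last (n + 1)).succAbove := fun a => first_face a σ
    simp only [hsh]
    set i := σ 0 with hi
    set σ' := σ * finRotate (n + 1) with hσ'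
    have hlast : σ' (Fin.last n) = i := by
      rw [hσ', Perm.mul_apply, finRotate_last]
    set h : (Fin (n + 1) → ℤ) → M := fun a =>
      g (List.ofFn (kv a σ' ∘ (Fin.last (n + 1)).succAbove)) with hh
    have hz : ∀ a : Fin (n + 1) → ℤ, (∀ l, -(N : ℤ) ≤ a l ∧ a l ≤ N) →
        (∀ l, l ≠ i → a l < N) → (a i = N ∨ a i = -(N : ℤ)) → h a = 0 := by
      intro a hal hal' ha
      apply hg a σ' hal
      · rw [hlast]
        exact hal'
      · rw [hlast]
        exact ha
    change ∑ a ∈ box (n + 1) N, h (a + Pi.single i 1) = ∑ a ∈ box (n + 1) N, h a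
    have hinj : Function.Injective (fun a : Fin (n + 1) → ℤ => a + Pi.single i 1) :=
      add_left_injective _
    rw [← Finset.sum_image (s := box (n + 1) N) (g := fun a => a + Pi.single i 1) (f := h)
      (fun a _ b _ hab => hinj hab)]
    set S := (box (n + 1) N).image (fun a => a + Pi.single i 1) with hS
    rw [← Finset.sum_subset (s₁ := S ∩ box (n + 1) N) (s₂ := S) Finset.inter_subset_left (by
      intro b hb hb'
      obtain ⟨a, ha, rfl⟩ := Finset.mem_image.1 hb
      have h1 : a + Pi.single i 1 ∉ box (n + 1) N := fun h => hb' (Finset.mem_inter.2 ⟨hb, h⟩)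
      rw [mem_box] at ha h1
      apply hz
      · intro l
        have := ha l
        by_cases hli : l = i
        · rw [hli, Pi.add_apply, Pi.single_eq_same]
          rw [hli] at this
          omega
        · rw [Pi.add_apply, Pi.single_eq_of_ne hli, add_zero]
          omega
      · intro l hli
        have := ha l
        rw [Pi.add_apply, Pi.single_eq_of_ne hli, add_zero]
        omega
      left
      push Not at h1
      obtain ⟨l, hl⟩ := h1
      by_cases hli : l = i
      · rw [hli] at hl
        simp only [Pi.add_apply, Pi.single_eq_same] at hl ⊢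
        have h2 := ha i
        have h3 := hl (by omega)
        omega
      · simp only [Pi.add_apply, Pi.single_eq_of_ne hli, add_zero] at hl
        have h2 := ha l
        have h3 := hl h2.1
        omega)]
    rw [← Finset.sum_subset (s₁ := S ∩ box (n + 1) N) (s₂ := box (n + 1) N)
      Finset.inter_subset_right (by
      intro b hb hb'
      apply hz
      · intro l
        have := mem_box.1 hb l
        omega
      · intro l _
        exact (mem_box.1 hb l).2
      right
      have h1 : b ∉ S := fun h => hb' (Finset.mem_inter.2 ⟨h, hb⟩)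
      by_contra hne
      apply h1
      refine Finset.mem_image.2 ⟨b - Pi.single i 1, ?_, by simp⟩
      rw [mem_box] at hb ⊢
      intro l
      by_cases hli : l = i
      · rw [hli]
        simp only [Pi.sub_apply, Pi.single_eq_same]
        have h2 := hb i
        omega
      · simp only [Pi.sub_apply, Pi.single_eq_of_ne hli, sub_zero]
        exact hb l)]
  rw [h0, Fin.sum_univ_succ]
  have hmid : ∀ j : Fin (n + 1), j ≠ Fin.last n → ∑ a ∈ box (n + 1) N,
      ∑ σ : Perm (Fin (n + 1)), (Perm.sign σ : ℤ) • g (List.ofFn (kv a σ ∘ j.succ.succAbove)) =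
      0 := by
    intro j hj
    apply Finset.sum_eq_zero
    intro a _
    obtain ⟨j', hj'⟩ := Fin.exists_castSucc_eq.2 hj
    have := inner_face g a j'
    rw [← hj']
    exact this
  rw [Finset.sum_eq_single (Fin.last n) (fun j _ hj => by rw [hmid j hj, smul_zero])
    (fun h => absurd (Finset.mem_univ _) h), hfirst]
  simp only [Fin.val_zero, pow_zero, one_smul, Fin.val_last, Fin.succ_last,
    pow_succ, mul_neg, mul_one, neg_smul, add_neg_cancel]

end Pool.Agent.TF
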