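import Pool.Agent.TF.Kuhn

/-!
# The point cocycle
-/

set_option autoImplicit false

open Finset Equiv

namespace Pool.Agent.TF

section point

variable {X R : Type*} [CommRing R]

/-- The product of the coboundaries of the functions `h` in the list `hs`. -/
def pc : List (X → R) → List X → R
  | [], [_] => 1
  | h :: hs, v :: w :: l => (h w - h v) * pc hs (w :: l)
  | _, _ => 0

theorem pc_nil (hs : List (X → R)) : pc hs ([] : List X) = 0 := by
  cases hs <;> rfl

/-- The point cocycle is closed on all lists. -/
theorem dl_pc (hs : List (X → R)) (l : List X) : dl (pc hs) l = 0 := by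
  induction hs generalizing l with
  | nil =>
    match l with
    | [] => rfl
    | [v] => simp [dl, pc]
    | [v, w] => simp [dl, pc]
    | v :: w :: u :: l =>
      have h0 : ∀ m : List X, pc ([] : List (X → R)) (v :: w :: m) = 0 := fun m => by
        simp [pc]
      have h1 : pc ([] : List (X → R)) (w :: u :: l) = 0 := by simp [pc]
      have h2 : pc ([] : List (X → R)) (v :: u :: l) = 0 := by simp [pc]
      simp only [dl, h1, h2, h0]
      rw [dl_zero]
      ring
  | cons h hs ih =>
    match l with
    | [] => rfl
    | [v] => simp [dl, pc]
    | [v, w] =>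
      simp only [dl]
      simp [pc, pc_nil]
    | v :: w :: u :: l =>
      have key : ∀ m : List X, dl (fun l' => pc hs (w :: l')) m = pc hs m := by
        intro m
        have h1 := ih (w :: m)
        simp only [dl] at h1
        exact (sub_eq_zero.1 h1).symm
      have h1 : dl (fun l' => pc (h :: hs) (v :: w :: l')) (u :: l) =
          (h w - h v) * pc hs (u :: l) := by
        have h2 : (fun l' : List X => pc (h :: hs) (v :: w :: l')) =
            fun l' => (h w - h v) * pc hs (w :: l') := by
          funext l'
          simp [pc]
        rw [h2, dl_mul, key]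
      have e1 : dl (pc (h :: hs)) (v :: w :: u :: l) = pc (h :: hs) (w :: u :: l) -
          (pc (h :: hs) (v :: u :: l) - dl (fun l' => pc (h :: hs) (v :: w :: l')) (u :: l)) := by
        simp only [dl]
      rw [e1, h1]
      simp only [pc]
      ring

/-- The support of the point cocycle. -/
theorem pc_ne_zero {hs : List (X → R)} {l : List X} (hne : pc hs l ≠ 0) :
    l.length = hs.length + 1 ∧ ∀ h ∈ hs, ∃ v ∈ l, ∃ w ∈ l, h v ≠ h w := by
  induction hs generalizing l with
  | nil =>
    match l with
    | [] => exact absurd rfl hne
    | [v] => simp
    | v :: w :: l => exact absurd rfl hne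
  | cons h hs ih =>
    match l with
    | [] => exact absurd rfl hne
    | [v] => exact absurd rfl hne
    | v :: w :: l =>
      have h1 : (h w - h v) * pc hs (w :: l) ≠ 0 := hne
      have h2 := ih (right_ne_zero_of_mul h1)
      refine ⟨by simpa using h2.1, ?_⟩
      intro g hg
      rcases List.mem_cons.1 hg with rfl | hg
      · exact ⟨v, by simp, w, by simp, fun heq => left_ne_zero_of_mul h1 (by
          rw [heq, sub_self])⟩
      · obtain ⟨a, ha, b, hb, hab⟩ := h2.2 g hg
        exact ⟨a, List.mem_cons_of_mem _ ha, b, List.mem_cons_of_mem _ hb, hab⟩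

end point

end Pool.Agent.TF
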