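import Mathlib

/-!
# The volume cochain and affine projections

`vol l`, for a list `l` of `r + 1` vectors of `k ^ r`, is the determinant of the matrix with the rows `(1, x)`; it is
zero for the other lists. It is closed, invariant under translations, and zero on lists in a hyperplane.
-/

set_option autoImplicit false

open Module Matrix

namespace Pool.Agent.TF

variable {k : Type*} [Field k] {r : ℕ}

/-- the matrix with the rows `(1, x)` -/
def vmat (f : Fin (r + 1) → (Fin r → k)) : Matrix (Fin (r + 1)) (Fin (r + 1)) k :=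
  Matrix.of fun i => Fin.cons 1 (f i)

lemma vmat_zero (f : Fin (r + 1) → (Fin r → k)) (i : Fin (r + 1)) : vmat f i 0 = 1 := rfl

lemma vmat_succ (f : Fin (r + 1) → (Fin r → k)) (i : Fin (r + 1)) (j : Fin r) : vmat f i j.succ = f i j := rfl

/-- the volume of a list -/
noncomputable def vol (l : List (Fin r → k)) : k :=
  if h : l.length = r + 1 then (vmat fun i => l.get (i.cast h.symm)).det else 0

lemma vol_ofFn (f : Fin (r + 1) → (Fin r → k)) : vol (List.ofFn f) = (vmat f).det := by
  unfold vol
  rw [dif_pos (List.length_ofFn (f := f))]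
  congr 2
  funext i
  rw [List.get_ofFn]
  rfl

lemma vol_of_ne {l : List (Fin r → k)} (h : l.length ≠ r + 1) : vol l = 0 := dif_neg h

/-- the volume is closed -/
theorem vol_closed (f : Fin (r + 2) → (Fin r → k)) :
    ∑ j : Fin (r + 2), (-1) ^ (j : ℕ) * vol (List.ofFn (f ∘ j.succAbove)) = 0 := by
  set M : Matrix (Fin (r + 2)) (Fin (r + 2)) k := Matrix.of fun i => Fin.cons 1 (Fin.cons 1 (f i)) with hM
  have h1 : M.det = 0 := by
    apply Matrix.det_zero_of_column_eq (i := (0 : Fin (r + 2))) (j := (1 : Fin (r + 2)))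
    · exact Fin.zero_ne_one
    · intro i
      rfl
  rw [Matrix.det_succ_column_zero] at h1
  rw [← h1]
  refine Finset.sum_congr rfl fun j _ => ?_
  rw [vol_ofFn]
  have h2 : M j 0 = 1 := rfl
  rw [h2, mul_one]
  congr 1

/-- translations -/
theorem vol_add (g : Fin r → k) (l : List (Fin r → k)) : vol (l.map (· + g)) = vol l := by
  unfold vol
  by_cases h : l.length = r + 1
  · rw [dif_pos h, dif_pos (by rw [List.length_map]; exact h)]
    rw [← Matrix.det_transpose, ← Matrix.det_transpose (vmat fun i => l.get (i.cast h.symm))]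
    refine Matrix.det_eq_of_forall_row_eq_smul_add_const (Fin.cons 0 g) 0 rfl ?_
    intro j i
    rw [Matrix.transpose_apply, Matrix.transpose_apply, Matrix.transpose_apply, vmat_zero, mul_one]
    refine Fin.cases ?_ (fun j => ?_) j
    · rw [vmat_zero, vmat_zero, Fin.cons_zero, add_zero]
    · rw [vmat_succ, vmat_succ, Fin.cons_succ]
      simp
  · rw [dif_neg h, dif_neg (by rw [List.length_map]; exact h)]

/-- a list in a hyperplane has volume zero -/
theorem vol_eq_zero_of_hyperplane {ξ : (Fin r → k) →ₗ[k] k} (hξ : ξ ≠ 0) {b : k} {l : List (Fin r → k)}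
    (h : ∀ x ∈ l, ξ x = b) : vol l = 0 := by
  classical
  by_cases hl : l.length = r + 1
  · unfold vol
    rw [dif_pos hl]
    rw [← Matrix.exists_mulVec_eq_zero_iff]
    refine ⟨Fin.cons (-b) fun j => ξ (Pi.single j 1), ?_, ?_⟩
    · intro h0
      apply hξ
      apply LinearMap.pi_ext'
      intro j
      apply LinearMap.ext_ring
      have h1 := congrFun h0 j.succ
      rw [Fin.cons_succ] at h1
      exact h1
    · funext i
      rw [Matrix.mulVec, dotProduct, Fin.sum_univ_succ, vmat_zero, Fin.cons_zero, one_mul]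
      have h2 : ∑ j : Fin r, vmat (fun i => l.get (i.cast hl.symm)) i j.succ *
          (Fin.cons (-b) (fun j => ξ (Pi.single j 1)) : Fin (r + 1) → k) j.succ = ξ (l.get (i.cast hl.symm)) := by
        conv_rhs => rw [← LinearMap.sum_single_apply (φ := fun _ : Fin r => k) (v := l.get (i.cast hl.symm)), map_sum]
        refine Finset.sum_congr rfl fun j _ => ?_
        rw [vmat_succ, Fin.cons_succ]
        have h3 : (Pi.single j (l.get (i.cast hl.symm) j) : Fin r → k) = l.get (i.cast hl.symm) j • Pi.single j 1 := by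
          rw [← Pi.single_smul, smul_eq_mul, mul_one]
        rw [h3, map_smul, smul_eq_mul]
      rw [h2, h _ (List.get_mem _ _), neg_add_cancel]
      rfl
  · exact vol_of_ne hl

/-! ### affine projections -/

/-- the projection along `w` to the hyperplane `ξ = b` -/
def Pm (w : Fin r → k) (ξ : (Fin r → k) →ₗ[k] k) (b : k) (x : Fin r → k) : Fin r → k := x - (ξ x - b) • w

lemma xi_Pm {w : Fin r → k} {ξ : (Fin r → k) →ₗ[k] k} (h : ξ w = 1) (b : k) (x : Fin r → k) : ξ (Pm w ξ b x) = b := by
  unfold Pm
  rw [map_sub, map_smul, h, smul_eq_mul, mul_one, sub_sub_cancel]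

/-- projections for different colours commute -/
lemma Pm_comm {w w' : Fin r → k} {ξ ξ' : (Fin r → k) →ₗ[k] k} (h : ξ w' = 0) (h' : ξ' w = 0) (b b' : k)
    (x : Fin r → k) : Pm w ξ b (Pm w' ξ' b' x) = Pm w' ξ' b' (Pm w ξ b x) := by
  unfold Pm
  rw [map_sub, map_smul, h, smul_zero, sub_zero, map_sub, map_smul, h', smul_zero, sub_zero, sub_right_comm]

/-- projections and translations -/
lemma Pm_add (w : Fin r → k) (ξ : (Fin r → k) →ₗ[k] k) (b : k) (g x : Fin r → k) :
    Pm w ξ (b + ξ g) (x + g) = Pm w ξ b x + g := by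
  unfold Pm
  rw [map_add, add_sub_add_right_eq_sub, sub_add_eq_add_sub]

/-- the volume of a projected list -/
lemma vol_map_Pm {w : Fin r → k} {ξ : (Fin r → k) →ₗ[k] k} (h : ξ w = 1) (b : k) (l : List (Fin r → k)) :
    vol (l.map (Pm w ξ b)) = 0 := by
  refine vol_eq_zero_of_hyperplane (ξ := ξ) ?_ (b := b) ?_
  · rintro rfl
    rw [LinearMap.zero_apply] at h
    exact zero_ne_one h
  · intro x hx
    obtain ⟨y, -, rfl⟩ := List.mem_map.1 hx
    exact xi_Pm h b y

end Pool.Agent.TF
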